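import Pool.Agent.V11291.EK.NumK
import Pool.Agent.Y333.CX.LAM

/-!
# A fixed number of primes over `ℤ[ω]`: residue classes of the norms
-/

set_option autoImplicit false

open scoped Classical

namespace Pool.Agent.V11291.EK

open Finset NumberField
open Pool.Agent.Y692.QS (Ei nr)
open Pool.Agent.V11291.FK (Dn)

variable {K : Type} [Field K] [NumberField K] [IsCyclotomicExtension {3} ℚ K]

/-- a prime number `≡ 1` modulo `3` is the norm of an ideal -/
theorem exists_ideal {p : ℕ} (hp : p.Prime) (h3 : p % 3 = 1) :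
    ∃ P : Ideal (𝓞 K), Ideal.absNorm P = p := by
  obtain ⟨⟨j, hj⟩, -⟩ := Pool.Agent.Y455.CTK.jex K
  obtain ⟨-, h2⟩ := Pool.Agent.Y333.CX.pp_spec hp h3
  refine ⟨Ideal.span {j (Pool.Agent.Y703.CX.pp p)}, ?_⟩
  rw [Ideal.absNorm_span_singleton, hj, h2, Int.natAbs_natCast]

/-- the primes with norm in a residue class modulo a number prime to `3` are sufficient -/
theorem rich_classK {q c : ℕ} (hq : Nat.Coprime q 3) (hc : Nat.Coprime c q) {m : ℕ} (hm : 1 ≤ m) :
    Rich {P : Ideal (𝓞 K) | Ideal.absNorm P % q = c % q} m := by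
  have h9 : Nat.Coprime 9 q := by
    have : Nat.Coprime (3 ^ 2) q := Nat.Coprime.pow_left 2 hq.symm
    exact this
  have hq0 : 1 ≤ q := by
    rcases Nat.eq_zero_or_pos q with h | h
    · subst h
      exact absurd hq (by decide)
    · exact h
  have key : ∀ s : ℕ, s < 9 → s % 3 = 1 → Dn fun p => p.Prime ∧ p % 9 = s ∧
      ∃ P ∈ {P : Ideal (𝓞 K) | Ideal.absNorm P % q = c % q}, Ideal.absNorm P = p := by
    intro s hs9 hs3
    obtain ⟨y, hy9, hyq⟩ := Nat.chineseRemainder h9 s c
    have hy : y % 9 = s := by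
      have h1 : y % 9 = s % 9 := hy9
      omega
    have hco : Nat.Coprime y (9 * q) := by
      apply Nat.Coprime.mul_right
      · have h1 : Nat.Coprime y 3 := by
          rw [Nat.coprime_comm]
          refine (Nat.Prime.coprime_iff_not_dvd Nat.prime_three).2 fun h => ?_
          have := Nat.mod_eq_zero_of_dvd h
          omega
        exact h1.pow_right 2
      · have h1 : y % q = c % q := hyq
        rw [Nat.coprime_comm, Nat.Coprime, Nat.gcd_rec, h1, ← Nat.gcd_rec]
        exact hc.symm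
    obtain ⟨δ, Y₀, hδ, h⟩ := Pool.Agent.V11291.FK.Cb.pai_low' (9 * q) (by omega) y hco
    refine ⟨δ, Y₀, hδ, fun Y hY => (h Y hY).trans ?_⟩
    have h5 : ((range (Y + 1)).filter fun p => p.Prime ∧ p % (9 * q) = y % (9 * q)) ⊆
        (range (Y + 1)).filter fun p => p.Prime ∧ p % 9 = s ∧
          ∃ P ∈ {P : Ideal (𝓞 K) | Ideal.absNorm P % q = c % q}, Ideal.absNorm P = p := by
      intro p hp
      rw [mem_filter] at hp ⊢
      obtain ⟨hp1, hp2, hp3⟩ := hp
      have h6 : p % q = y % q := Nat.ModEq.of_mul_left 9 hp3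
      have h7 : p % 9 = y % 9 := Nat.ModEq.of_mul_right q hp3
      obtain ⟨P, hP⟩ := exists_ideal (K := K) hp2 (by omega)
      refine ⟨hp1, hp2, h7.trans hy, P, ?_, hP⟩
      show Ideal.absNorm P % q = c % q
      rw [hP]
      exact h6.trans hyq
    have h6 : (((range (Y + 1)).filter fun p => p.Prime ∧ p % (9 * q) = y % (9 * q)).card : ℝ) ≤
        (((range (Y + 1)).filter fun p => p.Prime ∧ p % 9 = s ∧
          ∃ P ∈ {P : Ideal (𝓞 K) | Ideal.absNorm P % q = c % q}, Ideal.absNorm P = p).card : ℝ) := by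
      exact_mod_cast Finset.card_le_card h5
    refine le_trans (le_of_eq ?_) (h6.trans (le_of_eq ?_))
    · congr 2
      ext p
      simp only [mem_filter]
    · congr 2
      ext p
      simp only [mem_filter]
  refine ⟨fun i => if i = ⟨0, hm⟩ then 4 else 1, ?_, fun i => ?_⟩
  · rw [Finset.prod_ite_eq' univ (⟨0, hm⟩ : Fin m) fun _ => 4, if_pos (mem_univ _)]
    norm_num
  · beta_reduce
    split_ifs with hi
    · exact ⟨rfl, key 4 (by norm_num) (by norm_num)⟩
    · exact ⟨rfl, key 1 (by norm_num) (by norm_num)⟩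

end Pool.Agent.V11291.EK
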