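import Pool.Agent.Y715.T.Pf
import Mathlib.NumberTheory.MulChar.Duality

/-!
# The number of the characters of order `3 ^ k` modulo an Eisenstein prime, with the type
-/

set_option autoImplicit false
set_option linter.unusedSectionVars false

open scoped Classical

namespace Pool.Agent.V11291.EK.Chr

open Pool.Agent.Y692.QS (Ei w nr toC)
open Pool.Agent.Y715.T.Rec
open Pool.Agent.Y715.T.St (omega)
open Pool.Agent.Y715.T.Pf (omega_eq)

/-! ### Powers of `omega` -/

/-- the powers of the cube root of unity -/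
noncomputable def Om (a : ZMod 3) : ℂ := omega ^ a.val

theorem omega_cube : omega ^ 3 = 1 := by
  rw [omega_eq]
  exact Pool.Agent.Y715.T.Fin.toC_w_cube

theorem om_nat (n : ℕ) : omega ^ n = Om (n : ZMod 3) := by
  unfold Om
  rw [ZMod.val_natCast]
  conv_lhs => rw [← Nat.div_add_mod n 3]
  rw [pow_add, pow_mul, omega_cube, one_pow, one_mul]

theorem om_add (a b : ZMod 3) : Om (a + b) = Om a * Om b := by
  have h : ((a.val + b.val : ℕ) : ZMod 3) = a + b := by
    push_cast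
    rw [ZMod.natCast_zmod_val, ZMod.natCast_zmod_val]
  rw [← h, ← om_nat, pow_add]
  rfl

theorem om_zero : Om 0 = 1 := by
  unfold Om
  rw [ZMod.val_zero, pow_zero]

theorem om_ne_zero (a : ZMod 3) : Om a ≠ 0 := by
  intro h
  have h1 := om_add a (-a)
  rw [h, zero_mul, add_neg_cancel, om_zero] at h1
  exact one_ne_zero h1

theorem om_neg (a : ZMod 3) : Om (-a) = (Om a)⁻¹ := by
  have h1 := om_add a (-a)
  rw [add_neg_cancel, om_zero] at h1
  exact eq_inv_of_mul_eq_one_right h1.symm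

theorem omega_ne : omega ≠ 1 := by
  intro h
  have h1 := congrArg Complex.re h
  have h2 : omega.re = -1 / 2 := rfl
  rw [h2, Complex.one_re] at h1
  norm_num at h1

theorem om_eq_one {a : ZMod 3} (h : Om a = 1) : a = 0 := by
  have h3 := omega_cube
  fin_cases a
  · rfl
  · exfalso
    have h1 : omega ^ 1 = 1 := h
    rw [pow_one] at h1
    exact omega_ne h1
  · exfalso
    have h1 : omega ^ 2 = 1 := h
    have h2 : omega = 1 := by
      have h4 : omega ^ 3 = omega ^ 2 * omega := by ring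
      rw [h4, h1, one_mul] at h3
      exact h3
    exact omega_ne h2

theorem om_inj {a b : ZMod 3} (h : Om a = Om b) : a = b := by
  have h1 : Om (a - b) = 1 := by
    rw [sub_eq_add_neg, om_add, om_neg, h]
    exact mul_inv_cancel₀ (om_ne_zero b)
  exact sub_eq_zero.1 (om_eq_one h1)

theorem om_pow (a : ZMod 3) (n : ℕ) : Om a ^ n = Om (n * a) := by
  unfold Om
  rw [← pow_mul, om_nat]
  unfold Om
  congr 2
  push_cast
  rw [ZMod.natCast_zmod_val, mul_comm]

theorem om_cube (a : ZMod 3) : Om a ^ 3 = 1 := by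
  rw [om_pow]
  have : ((3 : ℕ) : ZMod 3) = 0 := rfl
  rw [this, zero_mul, om_zero]

theorem eq_om {z : ℂ} (h : z ^ 3 = 1) : ∃ a, z = Om a := by
  have h1 : (z - 1) * (z - omega) * (z - omega ^ 2) = 0 := by
    have h2 : omega ^ 2 + omega + 1 = 0 := by
      have h3 : (omega - 1) * (omega ^ 2 + omega + 1) = 0 := by
        have := omega_cube
        linear_combination this
      exact (mul_eq_zero.1 h3).resolve_left (sub_ne_zero.2 omega_ne)
    have h4 := omega_cube
    linear_combination h + (z - z ^ 2) * h2 + (z - 1) * h4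
  rcases mul_eq_zero.1 h1 with h2 | h2
  · rcases mul_eq_zero.1 h2 with h3 | h3
    · exact ⟨0, by rw [om_zero]; exact sub_eq_zero.1 h3⟩
    · refine ⟨1, ?_⟩
      have : Om 1 = omega ^ 1 := rfl
      rw [this, pow_one]
      exact sub_eq_zero.1 h3
  · refine ⟨2, ?_⟩
    have : Om 2 = omega ^ 2 := rfl
    rw [this]
    exact sub_eq_zero.1 h2

/-! ### The characters -/

section chr

variable {π : Ei} (hπ : Prime π) {k : ℕ}

/-- the characters modulo `π` -/
abbrev MC (π : Ei) : Type := MulChar (Ei ⧸ Ideal.span {π}) ℂ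

/-- the type of a character: `χ ^ 3 ^ (k - 1)` is the `e`-th power of the cubic residue symbol -/
def Ty (k : ℕ) (χ : MC π) (e : ZMod 3) : Prop :=
  ∀ (x : Ei) (c : ℕ), π ∣ x ^ (((nr π).natAbs - 1) / 3) - w ^ c →
    χ (Ideal.Quotient.mk _ x) ^ 3 ^ (k - 1) = omega ^ (c * e.val)

include hπ

/-- there is a primitive root -/
theorem exists_root : ∃ g : Ei, ¬ π ∣ g ∧ (∀ x, ¬ π ∣ x → ∃ n : ℕ, π ∣ x - g ^ n) ∧
    ∀ n : ℕ, π ∣ g ^ n - 1 → (nr π).natAbs - 1 ∣ n := by
  let _ := fld hπ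
  let _ := ftp hπ
  obtain ⟨g, hg⟩ := IsCyclic.exists_generator (α := (FF π)ˣ)
  obtain ⟨x, hx⟩ := Ideal.Quotient.mk_surjective ((g : (FF π)ˣ) : FF π)
  have hcard : Fintype.card (FF π) = (nr π).natAbs := card_FF' hπ
  have horder : orderOf g = (nr π).natAbs - 1 := by
    rw [orderOf_eq_card_of_forall_mem_zpowers hg, Nat.card_units, Nat.card_eq_fintype_card, hcard]
  refine ⟨x, fun h => ?_, fun y hy => ?_, fun n hn => ?_⟩
  · have h1 : mk π x = 0 := (mk_eq_zero x).2 h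
    have h2 : ((g : (FF π)ˣ) : FF π) = 0 := hx.symm.trans h1
    exact g.ne_zero h2
  · have hy0 : mk π y ≠ 0 := fun h => hy ((mk_eq_zero y).1 h)
    obtain ⟨v, hv⟩ := hy0.isUnit
    have h1 := hg v
    rw [mem_zpowers_iff_mem_range_orderOf, Finset.mem_image] at h1
    obtain ⟨n, -, hn⟩ := h1
    refine ⟨n, ?_⟩
    rw [← mk_eq, map_pow, ← hv, ← hn]
    show ((g ^ n : (FF π)ˣ) : FF π) = (Ideal.Quotient.mk _ x) ^ n
    rw [hx, Units.val_pow_eq_pow_val]
  · rw [← horder, orderOf_dvd_iff_pow_eq_one]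
    apply Units.ext
    rw [Units.val_pow_eq_pow_val, Units.val_one, ← hx]
    have h1 := (mk_eq (π := π) _ _).2 hn
    rw [map_pow, map_one] at h1
    exact h1

variable (h9 : (9 : ℤ) ∣ nr π - 1)

include h9

/-- the type in terms of the additive symbol -/
theorem ty_iff (χ : MC π) (e : ZMod 3) : Ty k χ e ↔
    ∀ x : Ei, ¬ π ∣ x → χ (Ideal.Quotient.mk _ x) ^ 3 ^ (k - 1) = Om (cs π x * e) := by
  have key : ∀ c : ZMod 3, omega ^ (c.val * e.val) = Om (c * e) := by
    intro c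
    rw [om_nat]
    push_cast
    simp only [ZMod.natCast_zmod_val]
  constructor
  · intro h x hx
    have h1 := h x (cs π x).val (cs_spec hπ h9 hx)
    rw [h1, key]
  · intro h x c hc
    have hx : ¬ π ∣ x := by
      intro hx
      have h0 : ((nr π).natAbs - 1) / 3 ≠ 0 := by
        intro h0
        have h1 : (nr π).natAbs ≤ 3 := by omega
        have h2 := Pool.Agent.Y692.QS.nr_nonneg π
        have h3 : nr π ≤ 3 := by omega
        obtain ⟨d, hd⟩ := h9
        have h4 : nr π = 1 := by omega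
        exact hπ.not_isUnit (Pool.Agent.Y692.QS.isUnit_iff.2 h4)
      have h1 : π ∣ w ^ c := (dvd_sub_right (dvd_pow hx h0)).1 hc
      have h2 : π ∣ 1 := by
        rw [← w_pow_cube c]
        exact dvd_pow h1 (by norm_num)
      exact hπ.not_isUnit (isUnit_of_dvd_one h2)
    rw [h x hx]
    have h1 : π ∣ x ^ nn π - w ^ ((c : ZMod 3)).val := by
      have h2 : w ^ ((c : ZMod 3)).val = w ^ c := by
        rw [ZMod.val_natCast]
        conv_rhs => rw [← Nat.div_add_mod c 3]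
        rw [pow_add, pow_mul]
        have h3 : (w : Ei) ^ 3 = 1 := by decide
        rw [h3, one_pow, one_mul]
      rw [h2]
      exact hc
    have h2 := cs_of hπ h9 h1
    rw [h2, om_nat]
    congr 1
    push_cast
    rw [ZMod.natCast_zmod_val]

theorem cs_root {g : Ei} (hg : ¬ π ∣ g) (h1 : ∀ x, ¬ π ∣ x → ∃ n : ℕ, π ∣ x - g ^ n)
    (h2 : ∀ n : ℕ, π ∣ g ^ n - 1 → (nr π).natAbs - 1 ∣ n) : cs π g ≠ 0 := by
  intro h0
  obtain ⟨y, hy⟩ := (cs_zero_iff hπ h9 hg).1 h0
  have hy0 : ¬ π ∣ y := by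
    intro h
    apply hg
    have h3 := dvd_add hy (dvd_pow h (three_ne_zero))
    rw [sub_add_cancel] at h3
    exact h3
  obtain ⟨n, hn⟩ := h1 y hy0
  have h3 : π ∣ g - g ^ (3 * n) := by
    have h4 : π ∣ y ^ 3 - (g ^ n) ^ 3 := dvd_trans hn (sub_dvd_pow_sub_pow _ _ _)
    have h5 := dvd_add hy h4
    have h6 : g - y ^ 3 + (y ^ 3 - (g ^ n) ^ 3) = g - g ^ (3 * n) := by
      rw [mul_comm 3 n, pow_mul]
      ring
    rw [h6] at h5
    exact h5
  have hnn := Pool.Agent.Y692.QS.nr_nonneg π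
  have hu : nr π ≠ 1 := fun h => hπ.not_isUnit (Pool.Agent.Y692.QS.isUnit_iff.2 h)
  have hz : nr π ≠ 0 := fun h => hπ.ne_zero (Pool.Agent.Y692.QS.nr_zero_iff.1 h)
  have h7 : 3 ∣ (nr π).natAbs - 1 := by omega
  rcases Nat.eq_zero_or_pos n with hn0 | hn0
  · subst hn0
    rw [mul_zero, pow_zero] at h3
    have h4 : π ∣ g ^ 1 - 1 := by rw [pow_one]; exact h3
    have h5 := h7.trans (h2 1 h4)
    omega
  · have h4 : π ∣ g * (g ^ (3 * n - 1) - 1) := by
      have h5 : g * (g ^ (3 * n - 1) - 1) = -(g - g ^ (3 * n)) := by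
        have h6 : g ^ (3 * n) = g * g ^ (3 * n - 1) := by
          rw [← pow_succ']
          congr 1
          omega
        rw [h6]
        ring
      rw [h5]
      exact (dvd_neg).2 h3
    have h5 := (hπ.dvd_or_dvd h4).resolve_left hg
    have h6 := h7.trans (h2 _ h5)
    omega

variable (hk : 1 ≤ k)

include hk

/-- a character of order `3 ^ k` has a type, and the type is not zero -/
theorem exists_ty {χ : MC π} (hχ : orderOf χ = 3 ^ k) : ∃ e : ZMod 3, e ≠ 0 ∧ Ty k χ e := by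
  let _ := fld hπ
  obtain ⟨g, hg, h1, h2⟩ := exists_root hπ
  have hc0 := cs_root hπ h9 hg h1 h2
  have hval : ∀ x : Ei, ¬ π ∣ x → ∀ n : ℕ, (χ ^ n) (Ideal.Quotient.mk _ x) =
      χ (Ideal.Quotient.mk _ x) ^ n := by
    intro x hx n
    have hx0 : mk π x ≠ 0 := fun h => hx ((mk_eq_zero x).1 h)
    obtain ⟨v, hv⟩ := hx0.isUnit
    have : Ideal.Quotient.mk (Ideal.span {π}) x = ((v : (FF π)ˣ) : FF π) := hv.symm
    rw [this, MulChar.pow_apply_coe]
  obtain ⟨a, ha⟩ := eq_om (z := χ (Ideal.Quotient.mk _ g) ^ 3 ^ (k - 1)) (by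
    rw [← pow_mul]
    have e : 3 ^ (k - 1) * 3 = 3 ^ k := by
      rw [← pow_succ]
      congr 1
      omega
    rw [e, ← hval g hg, ← hχ, pow_orderOf_eq_one]
    have hx0 : mk π g ≠ 0 := fun h => hg ((mk_eq_zero g).1 h)
    obtain ⟨v, hv⟩ := hx0.isUnit
    have : Ideal.Quotient.mk (Ideal.span {π}) g = ((v : (FF π)ˣ) : FF π) := hv.symm
    rw [this]
    exact MulChar.one_apply_coe _)
  have hty : Ty k χ (a * cs π g) := by
    rw [ty_iff hπ h9]
    intro x hx
    obtain ⟨n, hn⟩ := h1 x hx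
    have e1 : Ideal.Quotient.mk (Ideal.span {π}) x = (Ideal.Quotient.mk (Ideal.span {π}) g) ^ n := by
      rw [← map_pow]
      exact (mk_eq (π := π) _ _).2 hn
    have hgn : ¬ π ∣ g ^ n := fun h => hg (hπ.dvd_of_dvd_pow h)
    have e2 : cs π x = n * cs π g := by
      rw [cs_congr hπ h9 hx hn, cs_pow hπ h9 hg]
    rw [e1, map_pow, ← pow_mul, mul_comm n, pow_mul, ha, om_pow, e2]
    congr 1
    have h3 : ∀ c : ZMod 3, c ≠ 0 → c * c = 1 := by decide
    have h4 := h3 _ hc0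
    calc (n : ZMod 3) * a = n * a * 1 := by ring
      _ = n * a * (cs π g * cs π g) := by rw [h4]
      _ = n * cs π g * (a * cs π g) := by ring
  refine ⟨_, fun h0 => ?_, hty⟩
  rw [h0, ty_iff hπ h9] at hty
  have h3 : χ ^ 3 ^ (k - 1) = 1 := by
    refine MulChar.ext fun v => ?_
    obtain ⟨x, hx⟩ := Ideal.Quotient.mk_surjective ((v : (FF π)ˣ) : FF π)
    have hxn : ¬ π ∣ x := by
      intro h
      have h4 : mk π x = 0 := (mk_eq_zero x).2 h
      exact v.ne_zero (hx.symm.trans h4)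
    rw [← hx, hval x hxn, hty x hxn, mul_zero, om_zero, hx]
    exact (MulChar.one_apply_coe _).symm
  have h4 := orderOf_dvd_of_pow_eq_one h3
  rw [hχ] at h4
  have h5 := (Nat.pow_dvd_pow_iff_le_right (by norm_num : 1 < 3)).1 h4
  omega

omit hk in
theorem ty_uniq {χ : MC π} {e e' : ZMod 3} (h : Ty k χ e) (h' : Ty k χ e') : e = e' := by
  obtain ⟨g, hg, h1, h2⟩ := exists_root hπ
  have hc0 := cs_root hπ h9 hg h1 h2
  rw [ty_iff hπ h9] at h h'
  have h3 := om_inj ((h g hg).symm.trans (h' g hg))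
  exact mul_left_cancel₀ hc0 h3

omit hk in
theorem ty_inv {χ : MC π} {e : ZMod 3} (h : Ty k χ e) : Ty k χ⁻¹ (-e) := by
  let _ := fld hπ
  rw [ty_iff hπ h9] at h ⊢
  intro x hx
  have hx0 : mk π x ≠ 0 := fun h => hx ((mk_eq_zero x).1 h)
  obtain ⟨v, hv⟩ := hx0.isUnit
  have e1 : Ideal.Quotient.mk (Ideal.span {π}) x = ((v : (FF π)ˣ) : FF π) := hv.symm
  have h1 := h x hx
  have h2 : χ⁻¹ (Ideal.Quotient.mk (Ideal.span {π}) x) =
      (χ (Ideal.Quotient.mk (Ideal.span {π}) x))⁻¹ := by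
    rw [e1, MulChar.inv_apply_eq_inv']
  rw [h2, inv_pow, h1, mul_neg, om_neg]

omit hk in
/-- the number of the characters of order `3 ^ k` -/
theorem card_order (hdvd : (3 : ℤ) ^ k ∣ nr π - 1) :
    Nat.card {χ : MC π // orderOf χ = 3 ^ k} = Nat.totient (3 ^ k) := by
  let _ := fld hπ
  let _ := ftp hπ
  have hcard : Fintype.card (FF π) = (nr π).natAbs := card_FF' hπ
  obtain ⟨e⟩ := MulChar.mulEquiv_units (FF π) ℂ
  have e1 : Nat.card {χ : MC π // orderOf χ = 3 ^ k} =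
      Nat.card {v : (FF π)ˣ // orderOf v = 3 ^ k} := by
    refine Nat.card_congr (Equiv.subtypeEquiv e.toEquiv fun χ => ?_)
    show orderOf χ = 3 ^ k ↔ orderOf (e χ) = 3 ^ k
    rw [MulEquiv.orderOf_eq]
  have hd : 3 ^ k ∣ Fintype.card (FF π)ˣ := by
    have h1 : Fintype.card (FF π)ˣ = (nr π).natAbs - 1 := by
      rw [← Nat.card_eq_fintype_card, Nat.card_units, Nat.card_eq_fintype_card, hcard]
    rw [h1]
    have hnn := Pool.Agent.Y692.QS.nr_nonneg π
    have hz : nr π ≠ 0 := fun h => hπ.ne_zero (Pool.Agent.Y692.QS.nr_zero_iff.1 h)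
    have h2 : (((nr π).natAbs - 1 : ℕ) : ℤ) = nr π - 1 := by omega
    rw [← h2] at hdvd
    exact_mod_cast hdvd
  rw [e1, Nat.card_eq_fintype_card, Fintype.card_subtype]
  exact IsCyclic.card_orderOf_eq_totient hd

/-- **the number of the characters of order `3 ^ k` of a given type** -/
theorem card_type (hdvd : (3 : ℤ) ^ k ∣ nr π - 1) {e : ZMod 3} (he : e ≠ 0) :
    Nat.card {χ : MC π // orderOf χ = 3 ^ k ∧ Ty k χ e} = 3 ^ (k - 1) := by
  let _ := fld hπ
  let _ := ftp hπ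
  have h1 := card_order hπ h9 hdvd
  have hfin : Finite (MC π) := by
    obtain ⟨e⟩ := MulChar.mulEquiv_units (FF π) ℂ
    exact Finite.of_equiv _ e.symm.toEquiv
  have h2 : Nat.card {χ : MC π // orderOf χ = 3 ^ k ∧ Ty k χ e} =
      Nat.card {χ : MC π // orderOf χ = 3 ^ k ∧ Ty k χ (-e)} := by
    refine Nat.card_congr (Equiv.subtypeEquiv (Equiv.inv (MC π)) fun χ => ?_)
    constructor
    · rintro ⟨a, b⟩
      exact ⟨by rw [Equiv.inv_apply, orderOf_inv, a], by
        rw [Equiv.inv_apply]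
        exact ty_inv hπ h9 b⟩
    · rintro ⟨a, b⟩
      rw [Equiv.inv_apply] at a b
      rw [orderOf_inv] at a
      refine ⟨a, ?_⟩
      have := ty_inv hπ h9 b
      rwa [inv_inv, neg_neg] at this
  have h3 : Nat.card {χ : MC π // orderOf χ = 3 ^ k} =
      Nat.card {χ : MC π // orderOf χ = 3 ^ k ∧ Ty k χ e} +
      Nat.card {χ : MC π // orderOf χ = 3 ^ k ∧ Ty k χ (-e)} := by
    rw [← Nat.card_sum]
    refine Nat.card_congr (Equiv.symm (Equiv.ofBijective
      (Sum.elim (fun χ => ⟨χ.1, χ.2.1⟩) fun χ => ⟨χ.1, χ.2.1⟩) ⟨?_, ?_⟩))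
    · rintro (a | a) (b | b) hab
      · have h3 : (⟨a.1, a.2.1⟩ : {χ : MC π // orderOf χ = 3 ^ k}) = ⟨b.1, b.2.1⟩ := hab
        exact congrArg Sum.inl (Subtype.ext (Subtype.mk.inj h3))
      · exfalso
        have h3 : (⟨a.1, a.2.1⟩ : {χ : MC π // orderOf χ = 3 ^ k}) = ⟨b.1, b.2.1⟩ := hab
        have h4 : a.1 = b.1 := Subtype.mk.inj h3
        have h5 := ty_uniq hπ h9 a.2.2 (h4 ▸ b.2.2)
        exact he ((by decide : ∀ e : ZMod 3, e = -e → e = 0) e h5)
      · exfalso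
        have h3 : (⟨a.1, a.2.1⟩ : {χ : MC π // orderOf χ = 3 ^ k}) = ⟨b.1, b.2.1⟩ := hab
        have h4 : a.1 = b.1 := Subtype.mk.inj h3
        have h5 := ty_uniq hπ h9 (h4 ▸ b.2.2) a.2.2
        exact he ((by decide : ∀ e : ZMod 3, e = -e → e = 0) e h5)
      · have h3 : (⟨a.1, a.2.1⟩ : {χ : MC π // orderOf χ = 3 ^ k}) = ⟨b.1, b.2.1⟩ := hab
        exact congrArg Sum.inr (Subtype.ext (Subtype.mk.inj h3))
    · rintro ⟨χ, hχ⟩
      obtain ⟨e', he', hty⟩ := exists_ty hπ h9 hk hχ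
      rcases (by decide : ∀ e e' : ZMod 3, e ≠ 0 → e' ≠ 0 → e' = e ∨ e' = -e) e e' he he' with
        h | h
      · subst h
        exact ⟨Sum.inl ⟨χ, hχ, hty⟩, rfl⟩
      · subst h
        exact ⟨Sum.inr ⟨χ, hχ, hty⟩, rfl⟩
  rw [← h2, h1] at h3
  have h4 : Nat.totient (3 ^ k) = 3 ^ (k - 1) * 2 := by
    rw [Nat.totient_prime_pow Nat.prime_three (by omega)]
  omega

end chr

end Pool.Agent.V11291.EK.Chr
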