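import Pool.Agent.V11291.EK.NumK
import Pool.Agent.V11291.EK.Chr

/-!
# The law for the characters of order `3 ^ k`
-/

set_option autoImplicit false
set_option linter.unusedSectionVars false
set_option linter.unusedVariables false

open scoped Classical

namespace Pool.Agent.V11291.EK

open Finset Filter Topology Module
open Pool.Agent.Y692.QS (Ei nr)
open Pool.Agent.Y715.T.RecG (Pq)
open Pool.Agent.Y699.E (nrm nrm_cast)
open Pool.Agent.Y85.XK (sp)
open Pool.Agent.V11291.FK (Dn)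
open Chr (MC Ty)

section lab

variable {ι : Type} [Fintype ι] [LinearOrder ι]

/-- the weights -/
def eb (b : ι → Bool) (i : ι) : ZMod 3 := if b i then 1 else 2

theorem eb_ne (b : ι → Bool) (i : ι) : eb b i ≠ 0 := by
  unfold eb
  cases b i <;> decide

theorem eb_inj {b b' : ι → Bool} (h : ∀ i, eb b i = eb b' i) : b = b' := by
  funext i
  have h1 := h i
  unfold eb at h1
  revert h1
  cases b i <;> cases b' i <;> decide

theorem exists_eb {e : ι → ZMod 3} (he : ∀ i, e i ≠ 0) : ∃ b, eb b = e := by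
  refine ⟨fun i => decide (e i = 1), ?_⟩
  funext i
  unfold eb
  have h1 := he i
  by_cases h : e i = 1
  · simp [h]
  · simp only [h, decide_false, Bool.false_eq_true, if_false]
    revert h1 h
    generalize e i = x
    revert x
    decide

/-- the condition modulo `9` -/
def Wb (e : ι → ZMod 3) (p : ι → Ei) : Prop := ¬ (9 : Ei) ∣ ∏ i, p i ^ (e i).val - 1

/-- the label of an element -/
def lb (π : Ei) : ZMod 9 × ZMod 9 := ((π.re : ZMod 9), (π.im : ZMod 9))

/-- the representative of a label -/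
def rep (a : ZMod 9 × ZMod 9) : Ei := ⟨(a.1.val : ℤ), (a.2.val : ℤ)⟩

theorem dvd_rep (π : Ei) : (9 : Ei) ∣ π - rep (lb π) := by
  have h : ∀ x : ℤ, (9 : ℤ) ∣ x - (((x : ZMod 9).val : ℕ) : ℤ) := by
    intro x
    have h1 : (((x : ZMod 9).val : ℕ) : ℤ) = x % 9 := ZMod.val_intCast (n := 9) x
    rw [h1]
    omega
  obtain ⟨a, ha⟩ := h π.re
  obtain ⟨b, hb⟩ := h π.im
  refine ⟨⟨a, b⟩, ?_⟩
  have e9re : (9 : Ei).re = 9 := rfl
  have e9im : (9 : Ei).im = 0 := rfl
  ext
  · rw [Pool.Agent.Y692.QS.mul_re, e9re, e9im]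
    show π.re - (((π.re : ZMod 9).val : ℕ) : ℤ) = _
    rw [ha]
    ring
  · rw [Pool.Agent.Y692.QS.mul_im, e9re, e9im]
    show π.im - (((π.im : ZMod 9).val : ℕ) : ℤ) = _
    rw [hb]
    ring

theorem dvd_prod_sub {a : Ei} {f g : ι → Ei} (h : ∀ i, a ∣ f i - g i) (s : Finset ι) :
    a ∣ ∏ i ∈ s, f i - ∏ i ∈ s, g i := by
  induction s using Finset.induction_on with
  | empty => rw [Finset.prod_empty, Finset.prod_empty, sub_self]; exact dvd_zero _
  | insert i s hi ih =>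
    rw [Finset.prod_insert hi, Finset.prod_insert hi]
    have e : f i * ∏ i ∈ s, f i - g i * ∏ i ∈ s, g i =
        (f i - g i) * ∏ i ∈ s, f i + g i * (∏ i ∈ s, f i - ∏ i ∈ s, g i) := by ring
    rw [e]
    exact dvd_add ((h i).mul_right _) (ih.mul_left _)

theorem wb_iff {e : ι → ZMod 3} {p : ι → Ei} {ρ : ι → ZMod 9 × ZMod 9} (h : ∀ i, lb (p i) = ρ i) :
    Wb e p ↔ Wb e (fun i => rep (ρ i)) := by
  unfold Wb
  have h1 : (9 : Ei) ∣ ∏ i, p i ^ (e i).val - ∏ i, rep (ρ i) ^ (e i).val := by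
    refine dvd_prod_sub (fun i => ?_) _
    refine dvd_trans ?_ (sub_dvd_pow_sub_pow _ _ _)
    rw [← h i]
    exact dvd_rep _
  have e1 : ∏ i, p i ^ (e i).val - 1 = (∏ i, p i ^ (e i).val - ∏ i, rep (ρ i) ^ (e i).val) +
      (∏ i, rep (ρ i) ^ (e i).val - 1) := by ring
  rw [e1, dvd_add_right h1]

/-- the tuples with the condition for the weights -/
noncomputable def TB (A : Ei → Prop) (b : ι → Bool) (X : ℕ) : Finset (ι → Ei) :=
  (TupE (fun _ => Bs A) X).filter fun p => Wb (eb b) p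

/-- the labels are prescribed -/
def PB (A : Ei → Prop) (s : (ι → Bool) × (ι → ZMod 9 × ZMod 9)) (i : ι) (π : Ei) : Prop :=
  Bs A π ∧ lb π = s.2 i ∧ Wb (eb s.1) (fun i => rep (s.2 i))

theorem sum_lab (i₀ : ι) (A : Ei → Prop) (X : ℕ) (Q : (ι → Bool) → (ι → Ei) → Prop) :
    ∑ s : (ι → Bool) × (ι → ZMod 9 × ZMod 9), ((TupE (PB A s) X).filter fun p => Q s.1 p).card =
      ∑ b, ((TB A b X).filter fun p => Q b p).card := by
  rw [Fintype.sum_prod_type]
  refine Finset.sum_congr rfl fun b _ => ?_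
  rw [Finset.card_eq_sum_card_fiberwise (s := (TB A b X).filter fun p => Q b p)
    (f := fun (p : ι → Ei) (i : ι) => lb (p i))
    (t := univ) fun p _ => mem_coe.2 (mem_univ _)]
  refine Finset.sum_congr rfl fun ρ _ => ?_
  congr 1
  ext p
  unfold TB
  rw [mem_filter, mem_TupE fun i π h => h.1.1, mem_filter, mem_filter, mem_filter,
    mem_TupE fun i π h => h.1]
  constructor
  · rintro ⟨⟨h1, h2, h3⟩, h4⟩
    have h5 : ∀ i, lb (p i) = ρ i := fun i => (h1 i).2.1
    refine ⟨⟨⟨⟨fun i => (h1 i).1, h2, h3⟩, ?_⟩, h4⟩, funext h5⟩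
    rw [wb_iff h5]
    exact (h1 i₀).2.2
  · rintro ⟨⟨⟨⟨h1, h2, h3⟩, h4⟩, h5⟩, h6⟩
    have h7 : ∀ i, lb (p i) = ρ i := fun i => congrFun h6 i
    rw [wb_iff h7] at h4
    exact ⟨⟨fun i => ⟨h1 i, h7 i, h4⟩, h2, h3⟩, h5⟩

theorem exists_wb (i₀ : ι) {p : ι → Ei} (h : ¬ (9 : Ei) ∣ p i₀ - 1) : ∃ b, Wb (eb b) p := by
  by_cases h1 : (9 : Ei) ∣ ∏ i, p i - 1
  · refine ⟨fun i => decide (i ≠ i₀), ?_⟩
    unfold Wb
    have e1 : ∏ i, p i ^ (eb (fun i => decide (i ≠ i₀)) i).val = p i₀ * ∏ i, p i := by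
      rw [← Finset.mul_prod_erase univ _ (mem_univ i₀),
        ← Finset.mul_prod_erase univ (fun i => p i) (mem_univ i₀)]
      have e2 : eb (fun i => decide (i ≠ i₀)) i₀ = 2 := by
        unfold eb
        simp
      have e3 : ((2 : ZMod 3)).val = 2 := rfl
      rw [e2, e3, pow_two, mul_assoc]
      congr 2
      refine Finset.prod_congr rfl fun i hi => ?_
      have e4 : eb (fun i => decide (i ≠ i₀)) i = 1 := by
        unfold eb
        simp [Finset.ne_of_mem_erase hi]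
      have e5 : ((1 : ZMod 3)).val = 1 := rfl
      rw [e4, e5, pow_one]
    rw [e1]
    intro h2
    apply h
    have e2 : p i₀ - 1 = (p i₀ * ∏ i, p i - 1) - p i₀ * (∏ i, p i - 1) := by ring
    rw [e2]
    exact dvd_sub h2 (h1.mul_left _)
  · refine ⟨fun _ => true, ?_⟩
    unfold Wb
    have e1 : ∏ i, p i ^ (eb (fun _ : ι => true) i).val = ∏ i, p i := by
      refine Finset.prod_congr rfl fun i _ => ?_
      have e4 : eb (fun _ : ι => true) i = 1 := by
        unfold eb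
        simp
      have e5 : ((1 : ZMod 3)).val = 1 := rfl
      rw [e4, e5, pow_one]
    rw [e1]
    exact h1

/-- the number of the tuples with weights -/
noncomputable def NB (ι : Type) [Fintype ι] [LinearOrder ι] (A : Ei → Prop) (X : ℕ) : ℕ :=
  ∑ b : ι → Bool, (TB A b X).card

/-- the number of the good tuples with weights -/
noncomputable def GB (ι : Type) [Fintype ι] [LinearOrder ι] (A : Ei → Prop) (X : ℕ) : ℕ :=
  ∑ b : ι → Bool, ((TB A b X).filter fun p => GdT (eb b) p).card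

theorem NB_low (i₀ : ι) {A : Ei → Prop}
    (hD : Dn fun p => ∃ π, (Bs A π ∧ ¬ (9 : Ei) ∣ π - 1) ∧ nrm π = p) :
    ∃ (c : ℝ) (X₀ : ℕ), 0 < c ∧ ∀ X : ℕ, X₀ ≤ X →
      c * (X * Real.log (Real.log X) ^ (Fintype.card ι - 1) / Real.log X) ≤ (NB ι A X : ℝ) := by
  obtain ⟨c, X₀, hc, h⟩ := lowE (ι := ι) (P := fun _ π => Bs A π ∧ ¬ (9 : Ei) ∣ π - 1)
    (fun i π h => h.1.1) (fun _ => hD) i₀
  refine ⟨c, X₀, hc, fun X hX => (h X hX).trans ?_⟩
  have h1 : (TupE (ι := ι) (fun _ π => Bs A π ∧ ¬ (9 : Ei) ∣ π - 1) X).card ≤ NB ι A X := by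
    unfold NB
    have h2 : TupE (ι := ι) (fun _ π => Bs A π ∧ ¬ (9 : Ei) ∣ π - 1) X ⊆
        univ.biUnion fun b => TB A b X := by
      intro p hp
      rw [mem_TupE fun i π h => h.1.1] at hp
      obtain ⟨h3, h4, h5⟩ := hp
      obtain ⟨b, hb⟩ := exists_wb i₀ (h3 i₀).2
      rw [mem_biUnion]
      refine ⟨b, mem_univ _, ?_⟩
      unfold TB
      rw [mem_filter, mem_TupE fun i π h => h.1]
      exact ⟨⟨fun i => (h3 i).1, h4, h5⟩, hb⟩
    exact (Finset.card_le_card h2).trans Finset.card_biUnion_le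
  exact_mod_cast h1

open Pool.Agent.V11291.FK (Tup mem_Tup AA mem_AA card_AA exists_MH MH LL card_le_image one_le_LL) in
theorem TupE_up {n : ℕ} (hn : Fintype.card ι = n + 1) :
    ∃ (C : ℝ) (X₀ : ℕ), 0 < C ∧ ∀ (P : ι → Ei → Prop), (∀ i π, P i π → P1 π) → ∀ X : ℕ, X₀ ≤ X →
      ((TupE P X).card : ℝ) ≤ C * (X * Real.log (Real.log X) ^ n / Real.log X) := by
  obtain ⟨M, hM⟩ := exists_MH
  obtain ⟨C₁, hC₁, hAA⟩ := card_AA hM n
  have t3 : Tendsto (fun X : ℕ => Real.log (Real.log (X : ℝ))) atTop atTop :=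
    Real.tendsto_log_atTop.comp (Real.tendsto_log_atTop.comp tendsto_natCast_atTop_atTop)
  obtain ⟨X₀, hX₀⟩ := eventually_atTop.1 ((eventually_ge_atTop 3).and
    (t3.eventually_ge_atTop (max 1 M)))
  have hc0 : 0 < Fintype.card ι := by omega
  have hc0' : (0 : ℝ) < (Fintype.card ι : ℝ) := by exact_mod_cast hc0
  refine ⟨2 ^ Fintype.card ι * (Fintype.card ι : ℝ) ^ Fintype.card ι * (C₁ * 2 ^ n), X₀,
    by positivity, fun P hP X hX => ?_⟩
  obtain ⟨h3, hll⟩ := hX₀ X hX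
  have hX1 : (1 : ℝ) < X := by exact_mod_cast (by omega : 1 < X)
  have hl : 0 < Real.log X := Real.log_pos hX1
  have h1 : (TupE P X).card ≤ 2 ^ Fintype.card ι *
      (Tup (fun (_ : ι) (p : ℕ) => p.Prime) X).card := by
    refine card_le_norms _ (fun p hp i => ?_) _ fun p hp => ?_
    · rw [mem_TupE hP] at hp
      exact hP _ _ (hp.1 i)
    · rw [mem_TupE hP] at hp
      rw [mem_Tup fun i p h => h]
      exact ⟨fun i => (hP _ _ (hp.1 i)).2, hp.2⟩
  have h2 : (Tup (fun (_ : ι) (p : ℕ) => p.Prime) X).card ≤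
      Fintype.card ι ^ Fintype.card ι * (AA (n + 1) X).card := by
    refine card_le_image _ (fun p hp => ?_) _ fun p hp => ?_
    · rw [mem_Tup fun i p h => h] at hp
      exact hp.2.1
    · rw [mem_Tup fun i p h => h] at hp
      rw [mem_AA]
      refine ⟨fun q hq => ?_, ?_, ?_⟩
      · rw [mem_image] at hq
        obtain ⟨i, -, rfl⟩ := hq
        exact hp.1 i
      · rw [Finset.card_image_of_injective _ hp.2.1, Finset.card_univ, hn]
      · rw [Finset.prod_image fun a _ b _ h => hp.2.1 h]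
        exact hp.2.2
  have h4 : ((TupE P X).card : ℝ) ≤ 2 ^ Fintype.card ι *
      ((Fintype.card ι : ℝ) ^ Fintype.card ι * ((AA (n + 1) X).card : ℝ)) := by
    have : (TupE P X).card ≤ 2 ^ Fintype.card ι *
      (Fintype.card ι ^ Fintype.card ι * (AA (n + 1) X).card) :=
      h1.trans (Nat.mul_le_mul_left _ h2)
    exact_mod_cast this
  have h5 := hAA X (by omega)
  have h6 : LL M X ≤ 2 * Real.log (Real.log X) := by
    unfold LL
    have := (le_max_right 1 M).trans hll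
    linarith
  have h7 : 0 ≤ LL M X := by linarith [one_le_LL hM.1 (show 2 ≤ X by omega)]
  have h8 : LL M X ^ n ≤ (2 * Real.log (Real.log X)) ^ n := pow_le_pow_left₀ h7 h6 n
  have h9 : ((AA (n + 1) X).card : ℝ) ≤ C₁ * 2 ^ n * (X * Real.log (Real.log X) ^ n / Real.log X) := by
    refine h5.trans ?_
    calc C₁ * (X * LL M X ^ n / Real.log X) ≤
        C₁ * (X * (2 * Real.log (Real.log X)) ^ n / Real.log X) := by gcongr
      _ = _ := by
          rw [mul_pow]
          ring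
  calc ((TupE P X).card : ℝ) ≤ 2 ^ Fintype.card ι *
      ((Fintype.card ι : ℝ) ^ Fintype.card ι * ((AA (n + 1) X).card : ℝ)) := h4
    _ ≤ 2 ^ Fintype.card ι * ((Fintype.card ι : ℝ) ^ Fintype.card ι *
        (C₁ * 2 ^ n * (X * Real.log (Real.log X) ^ n / Real.log X))) := by gcongr
    _ = _ := by ring

theorem NB_up {n : ℕ} (hn : Fintype.card ι = n + 1) (A : Ei → Prop) :
    ∃ (C : ℝ) (X₀ : ℕ), 0 < C ∧ ∀ X : ℕ, X₀ ≤ X →
      (NB ι A X : ℝ) ≤ C * (X * Real.log (Real.log X) ^ n / Real.log X) := by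
  obtain ⟨C, X₀, hC, h⟩ := TupE_up (ι := ι) hn
  refine ⟨2 ^ Fintype.card ι * C, X₀, by positivity, fun X hX => ?_⟩
  have h1 := h (fun _ => Bs A) (fun _ π h => h.1) X hX
  have h2 : NB ι A X ≤ 2 ^ Fintype.card ι * (TupE (fun _ : ι => Bs A) X).card := by
    unfold NB
    have h3 : ∀ b ∈ (univ : Finset (ι → Bool)), (TB A b X).card ≤
        (TupE (fun _ : ι => Bs A) X).card := fun b _ => Finset.card_filter_le _ _
    refine (Finset.sum_le_sum h3).trans ?_
    rw [Finset.sum_const, smul_eq_mul, Finset.card_univ, Fintype.card_fun, Fintype.card_bool]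
  have h3 : (NB ι A X : ℝ) ≤ 2 ^ Fintype.card ι * ((TupE (fun _ : ι => Bs A) X).card : ℝ) := by
    exact_mod_cast h2
  refine h3.trans ?_
  rw [mul_assoc]
  exact mul_le_mul_of_nonneg_left h1 (by positivity)

/-- **The law for the tuples with weights.** -/
theorem NB_law (ks : ι) {j : ℕ} (hj : Fintype.card ι = j + 2) {A : Ei → Prop}
    (hD : Dn fun p => ∃ π, (Bs A π ∧ ¬ (9 : Ei) ∣ π - 1) ∧ nrm π = p) :
    Tendsto (fun X : ℕ => (GB ι A X : ℝ) / (NB ι A X : ℝ)) atTop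
      (𝓝 (sp (Fintype.card ι - 1))) := by
  have e1 : ∀ X, ∑ s : (ι → Bool) × (ι → ZMod 9 × ZMod 9), (TupE (PB A s) X).card = NB ι A X := by
    intro X
    have h := sum_lab (ι := ι) ks A X fun _ _ => True
    simp only [Finset.filter_true] at h
    exact h
  have hL : LowG (Fintype.card ι) (Sg fun s : (ι → Bool) × (ι → ZMod 9 × ZMod 9) => PB A s) := by
    obtain ⟨c, X₀, hc, h⟩ := NB_low ks hD
    refine ⟨c, X₀, hc, fun X hX => (h X hX).trans (le_of_eq ?_)⟩
    rw [← e1]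
    unfold Sg
    rw [Finset.card_sigma]
  have h := law_sig' ks hj (P := fun s : (ι → Bool) × (ι → ZMod 9 × ZMod 9) => PB A s)
    (fun s i π h => h.1.1) (ε := fun s => eb s.1) (fun s i => eb_ne _ _) hL
  refine h.congr fun X => ?_
  rw [e1, sum_lab ks A X fun b p => GdT (eb b) p]
  rfl

/-- the law, all lengths -/
theorem NB_law' {m : ℕ} (hm : 1 ≤ m) {A : Ei → Prop}
    (hD : Dn fun p => ∃ π, (Bs A π ∧ ¬ (9 : Ei) ∣ π - 1) ∧ nrm π = p) :
    Tendsto (fun X : ℕ => (GB (Fin m) A X : ℝ) / (NB (Fin m) A X : ℝ)) atTop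
      (𝓝 (sp (m - 1))) := by
  have ks : Fin m := ⟨0, hm⟩
  rcases Nat.lt_or_ge m 2 with h1 | h1
  · have hm1 : m = 1 := by omega
    subst hm1
    have h2 : ∀ X, GB (Fin 1) A X = NB (Fin 1) A X := by
      intro X
      unfold GB NB
      refine Finset.sum_congr rfl fun b _ => ?_
      rw [Finset.filter_true_of_mem fun p _ => gdT_one (by simp) _ p]
    have h3 := pos_of_low (NB_low ks hD)
    have h4 : sp (1 - 1) = 1 := by
      unfold sp
      norm_num
    rw [h4]
    refine tendsto_const_nhds.congr' ?_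
    filter_upwards [h3] with X hX
    rw [h2]
    have : (NB (Fin 1) A X : ℝ) ≠ 0 := by exact_mod_cast hX.ne'
    rw [div_self this]
  · obtain ⟨n, rfl⟩ : ∃ n, m = n + 2 := ⟨m - 2, by omega⟩
    have h := NB_law (ι := Fin (n + 2)) ks (j := n) (by rw [Fintype.card_fin]) hD
    rw [Fintype.card_fin] at h
    exact h

end lab

end Pool.Agent.V11291.EK
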