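import Pool.Agent.Y333.CX.LAM

/-!
# The supplementary law of cubic reciprocity for primes congruent to one modulo nine
-/

set_option autoImplicit false

namespace Pool.Agent.V11291.EK.Su

open Pool.Agent.Y692.QS
open Pool.Agent.Y715.T.Rec (cs nn)
open Pool.Agent.Y715.T.RecG (Pq cs_mul cs_congr cs_neg cs_of cs_spec cs_pow cs_one)
open Pool.Agent.Y699.E (rec_all eq_of_dvd)
open Pool.Agent.Y405.CT (pq_star cs_starG)
open Pool.Agent.Y333.CX (exists_pq)

/-- no common prime factor -/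
def Cop (n : ℕ) (x : Ei) : Prop := ∀ ρ : Ei, Prime ρ → ρ ∣ (n : Ei) → ¬ ρ ∣ x

/-- the symbol of a rational number -/
structure TT (n : ℕ) (T : Ei → ZMod 3) : Prop where
  mul : ∀ x y, Cop n x → Cop n y → T (x * y) = T x + T y
  con : ∀ x y, Cop n x → (n : Ei) ∣ x - y → T x = T y
  rat : ∀ c : ℤ, Cop n (c : Ei) → T (c : Ei) = 0
  om : T w = (((n ^ 2 - 1) / 3 : ℕ) : ZMod 3)
  rc : ∀ π, Pq π → Cop n π → cs π (n : Ei) = T π

lemma cs_wG {π : Ei} (h : Pq π) : cs π w = ((nn π : ℕ) : ZMod 3) := by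
  apply cs_of h.prime h.norm
  have h1 : (w : Ei) ^ nn π = w ^ (((nn π : ℕ) : ZMod 3)).val := by
    rw [ZMod.val_natCast]
    conv_lhs => rw [← Nat.div_add_mod (nn π) 3]
    rw [pow_add, pow_mul, w_cube, one_pow, one_mul]
  rw [h1, sub_self]
  exact dvd_zero _

lemma rho_not {ρ x : Ei} {n : ℕ} (h : Pq ρ) (hd : ρ ∣ (n : Ei)) (hx : Cop n x) : ¬ ρ ∣ x :=
  hx ρ h.prime hd

lemma star_int (c : ℤ) : star (c : Ei) = (c : Ei) := by
  exact star_intCast c

lemma two_zero : ∀ x : ZMod 3, x = -x → x = 0 := by decide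

lemma tt_prime {q : ℕ} (hq : q.Prime) (h3 : q ≠ 3) : ∃ T, TT q T := by
  obtain ⟨ρ, hρ, hd, hc, hint⟩ := exists_pq hq h3
  have hρ' := pq_star hρ
  rcases hc with ⟨hq1, hn⟩ | ⟨hq2, hn⟩
  · -- split
    have hprod : ρ * star ρ = (q : Ei) := by
      rw [mul_star, hn]
      push_cast
      rfl
    have hd' : star ρ ∣ (q : Ei) := by rw [← hprod]; exact dvd_mul_left _ _
    have nnr : nn ρ = (q - 1) / 3 := by unfold nn; rw [hn]; simp
    have nnr' : nn (star ρ) = (q - 1) / 3 := by unfold nn; rw [nr_star, hn]; simp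
    refine ⟨fun x => cs ρ x + cs (star ρ) x, ?_, ?_, ?_, ?_, ?_⟩
    · intro x y hx hy
      show cs ρ (x * y) + cs (star ρ) (x * y) = cs ρ x + cs (star ρ) x + (cs ρ y + cs (star ρ) y)
      rw [cs_mul hρ.prime hρ.norm (rho_not hρ hd hx) (rho_not hρ hd hy),
        cs_mul hρ'.prime hρ'.norm (rho_not hρ' hd' hx) (rho_not hρ' hd' hy)]
      ring
    · intro x y hx hxy
      show cs ρ x + cs (star ρ) x = cs ρ y + cs (star ρ) y
      rw [cs_congr hρ.prime hρ.norm (rho_not hρ hd hx) (hd.trans hxy),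
        cs_congr hρ'.prime hρ'.norm (rho_not hρ' hd' hx) (hd'.trans hxy)]
    · intro c hc
      show cs ρ (c : Ei) + cs (star ρ) (c : Ei) = 0
      have h1 := cs_starG hρ (rho_not hρ hd hc)
      rw [star_int] at h1
      rw [h1, add_neg_cancel]
    · show cs ρ w + cs (star ρ) w = _
      rw [cs_wG hρ, cs_wG hρ', nnr, nnr', ← Nat.cast_add, ZMod.natCast_eq_natCast_iff]
      obtain ⟨k, hk⟩ : ∃ k, q = 3 * k + 1 := ⟨q / 3, by omega⟩
      have e1 : (q - 1) / 3 = k := by omega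
      have e2 : (q ^ 2 - 1) / 3 = 3 * k ^ 2 + 2 * k := by
        have : q ^ 2 - 1 = 3 * (3 * k ^ 2 + 2 * k) := by
          rw [hk]
          have : (3 * k + 1) ^ 2 = 3 * (3 * k ^ 2 + 2 * k) + 1 := by ring
          omega
        rw [this]
        exact Nat.mul_div_cancel_left _ (by norm_num)
      rw [e1, e2]
      unfold Nat.ModEq
      omega
    · intro π hπ hco
      have a1 := rho_not hρ hd hco
      have a2 := rho_not hρ' hd' hco
      have b1 : ¬ π ∣ ρ := fun h => a1 (by rw [eq_of_dvd hπ hρ h])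
      have b2 : ¬ π ∣ star ρ := fun h => a2 (by rw [eq_of_dvd hπ hρ' h])
      show cs π (q : Ei) = cs ρ π + cs (star ρ) π
      rw [← hprod, cs_mul hπ.prime hπ.norm b1 b2, rec_all π ρ hπ hρ a1,
        rec_all π (star ρ) hπ hρ' a2]
  · -- inert
    obtain ⟨c, hc⟩ := hd
    have hcu : IsUnit c := by
      rw [isUnit_iff]
      have h1 : nr (q : Ei) = nr ρ * nr c := by rw [hc, nr_mul]
      rw [nr_nat, hn] at h1
      have h2 : (0 : ℤ) < (q : ℤ) ^ 2 := by
        have := hq.pos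
        positivity
      nlinarith
    have hqp : Prime (-(q : Ei)) := by
      obtain ⟨u, rfl⟩ := hcu
      have h1 : Associated ρ (-(q : Ei)) := ⟨-u, by rw [hc]; push_cast; ring⟩
      exact h1.prime hρ.prime
    have hq3 : (3 : Ei) ∣ -(q : Ei) - 1 := by
      obtain ⟨k, hk⟩ : ∃ k, q = 3 * k + 2 := ⟨q / 3, by omega⟩
      rw [hk]
      refine ⟨-((k : Ei) + 1), ?_⟩
      push_cast
      ring
    have hρq : ρ = -(q : Ei) := eq_of_dvd hρ ⟨hqp, hq3⟩ (by rw [hc]; exact (dvd_neg).2 (dvd_mul_right _ _))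
    have hρs : star ρ = ρ := by
      rw [hρq, star_neg, star_natCast]
    have hd : ρ ∣ (q : Ei) := ⟨c, hc⟩
    have nnr : nn ρ = (q ^ 2 - 1) / 3 := by
      unfold nn; rw [hn]
      have : ((q : ℤ) ^ 2).natAbs = q ^ 2 := by
        rw [Int.natAbs_pow, Int.natAbs_natCast]
      rw [this]
    refine ⟨cs ρ, ?_, ?_, ?_, ?_, ?_⟩
    · intro x y hx hy
      exact cs_mul hρ.prime hρ.norm (rho_not hρ hd hx) (rho_not hρ hd hy)
    · intro x y hx hxy
      exact cs_congr hρ.prime hρ.norm (rho_not hρ hd hx) (hd.trans hxy)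
    · intro c hc
      have h1 := cs_starG hρ (rho_not hρ hd hc)
      rw [star_int, hρs] at h1
      exact two_zero _ h1
    · rw [cs_wG hρ, nnr]
    · intro π hπ hco
      have a1 := rho_not hρ hd hco
      have b1 : ¬ π ∣ ρ := fun h => a1 (by rw [eq_of_dvd hπ hρ h])
      have e : (q : Ei) = -ρ := by rw [hρq, neg_neg]
      rw [e, cs_neg hπ.prime hπ.norm b1, rec_all π ρ hπ hρ a1]

lemma tt_one : TT 1 (fun _ => 0) := by
  refine ⟨fun _ _ _ _ => by simp, fun _ _ _ _ => rfl, fun _ _ => rfl, by simp, ?_⟩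
  intro π hπ _
  rw [Nat.cast_one, cs_one hπ.prime hπ.norm]

lemma cop_left {n m : ℕ} {x : Ei} (h : Cop (n * m) x) : Cop n x := fun ρ hρ hd =>
  h ρ hρ (by push_cast; exact Dvd.dvd.mul_right hd _)

lemma cop_right {n m : ℕ} {x : Ei} (h : Cop (n * m) x) : Cop m x := fun ρ hρ hd =>
  h ρ hρ (by push_cast; exact Dvd.dvd.mul_left hd _)

lemma tt_mul {n m : ℕ} {S T : Ei → ZMod 3} (hn : ¬ 3 ∣ n) (hm : ¬ 3 ∣ m) (h : TT n S)
    (h' : TT m T) : TT (n * m) (fun x => S x + T x) := by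
  refine ⟨?_, ?_, ?_, ?_, ?_⟩
  · intro x y hx hy
    show S (x * y) + T (x * y) = S x + T x + (S y + T y)
    rw [h.mul x y (cop_left hx) (cop_left hy), h'.mul x y (cop_right hx) (cop_right hy)]
    ring
  · intro x y hx hxy
    show S x + T x = S y + T y
    rw [h.con x y (cop_left hx) (Dvd.dvd.trans (by push_cast; exact dvd_mul_right _ _) hxy),
      h'.con x y (cop_right hx) (Dvd.dvd.trans (by push_cast; exact dvd_mul_left _ _) hxy)]
  · intro c hc
    show S c + T c = 0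
    rw [h.rat c (cop_left hc), h'.rat c (cop_right hc), add_zero]
  · show S w + T w = _
    rw [h.om, h'.om, ← Nat.cast_add, ZMod.natCast_eq_natCast_iff]
    have sq : ∀ n : ℕ, ¬ 3 ∣ n → ∃ s, n ^ 2 = 3 * s + 1 := by
      intro n hn
      obtain ⟨k, hk | hk⟩ : ∃ k, n = 3 * k + 1 ∨ n = 3 * k + 2 := ⟨n / 3, by omega⟩
      · exact ⟨3 * k ^ 2 + 2 * k, by rw [hk]; ring⟩
      · exact ⟨3 * k ^ 2 + 4 * k + 1, by rw [hk]; ring⟩
    obtain ⟨s, hs⟩ := sq n hn
    obtain ⟨t, ht⟩ := sq m hm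
    have e1 : (n ^ 2 - 1) / 3 = s := by omega
    have e2 : (m ^ 2 - 1) / 3 = t := by omega
    have e3 : ((n * m) ^ 2 - 1) / 3 = 3 * (s * t) + s + t := by
      have : (n * m) ^ 2 = 3 * (3 * (s * t) + s + t) + 1 := by
        rw [mul_pow, hs, ht]; ring
      omega
    rw [e1, e2, e3]
    unfold Nat.ModEq
    omega
  · intro π hπ hco
    have b1 : ¬ π ∣ (n : Ei) := fun hd => cop_left hco π hπ.prime hd (dvd_refl _)
    have b2 : ¬ π ∣ (m : Ei) := fun hd => cop_right hco π hπ.prime hd (dvd_refl _)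
    show cs π ((n * m : ℕ) : Ei) = S π + T π
    rw [Nat.cast_mul, cs_mul hπ.prime hπ.norm b1 b2, h.rc π hπ (cop_left hco),
      h'.rc π hπ (cop_right hco)]

lemma exists_tt (n : ℕ) (h3 : ¬ 3 ∣ n) : ∃ T, TT n T := by
  induction n using Nat.recOnMul with
  | zero => exact absurd (dvd_zero _) h3
  | one => exact ⟨_, tt_one⟩
  | prime p hp => exact tt_prime hp (by rintro rfl; exact h3 (dvd_refl _))
  | mul a b iha ihb =>
    have ha : ¬ 3 ∣ a := fun h => h3 (Dvd.dvd.mul_right h _)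
    have hb : ¬ 3 ∣ b := fun h => h3 (Dvd.dvd.mul_left h _)
    obtain ⟨S, hS⟩ := iha ha
    obtain ⟨T, hT⟩ := ihb hb
    exact ⟨_, tt_mul ha hb hS hT⟩

/-- the same for an integer -/
lemma exists_ti (n : ℤ) (h3 : ¬ 3 ∣ n) : ∃ T : Ei → ZMod 3,
    (∀ x y, Cop n.natAbs x → Cop n.natAbs y → T (x * y) = T x + T y) ∧
    (∀ x y, Cop n.natAbs x → (n : Ei) ∣ x - y → T x = T y) ∧
    (∀ c : ℤ, Cop n.natAbs (c : Ei) → T (c : Ei) = 0) ∧
    T w = (((n.natAbs ^ 2 - 1) / 3 : ℕ) : ZMod 3) ∧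
    (∀ π, Pq π → Cop n.natAbs π → cs π (n : Ei) = T π) := by
  obtain ⟨T, hT⟩ := exists_tt n.natAbs (by rwa [← Int.natCast_dvd] )
  have hdv : ((n.natAbs : ℕ) : Ei) ∣ (n : Ei) ∧ (n : Ei) ∣ ((n.natAbs : ℕ) : Ei) := by
    rcases Int.natAbs_eq n with h | h
    · constructor
      · conv_rhs => rw [h]
        rw [Int.cast_natCast]
      · conv_lhs => rw [h]
        rw [Int.cast_natCast]
    · constructor
      · conv_rhs => rw [h]
        rw [Int.cast_neg, Int.cast_natCast]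
        exact (dvd_neg).2 (dvd_refl _)
      · conv_lhs => rw [h]
        rw [Int.cast_neg, Int.cast_natCast]
        exact (neg_dvd).2 (dvd_refl _)
  refine ⟨T, hT.mul, fun x y hx hxy => hT.con x y hx (hdv.1.trans hxy), hT.rat, hT.om, ?_⟩
  intro π hπ hco
  rw [← hT.rc π hπ hco]
  have b1 : ¬ π ∣ ((n.natAbs : ℕ) : Ei) := fun hd => hco π hπ.prime hd (dvd_refl _)
  rcases Int.natAbs_eq n with h | h
  · conv_lhs => rw [h]
    rw [Int.cast_natCast]
  · conv_lhs => rw [h]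
    rw [Int.cast_neg, Int.cast_natCast, cs_neg hπ.prime hπ.norm b1]

lemma cop_of {n : ℤ} {x : Ei} (h : ∀ ρ : Ei, Prime ρ → ρ ∣ (n : Ei) → ρ ∣ x → False) :
    Cop n.natAbs x := by
  intro ρ hρ hd hx
  refine h ρ hρ (hd.trans ?_) hx
  rcases Int.natAbs_eq n with h | h
  · conv_rhs => rw [h]
    rw [Int.cast_natCast]
  · conv_rhs => rw [h]
    rw [Int.cast_neg, Int.cast_natCast]
    exact (dvd_neg).2 (dvd_refl _)

lemma not_three {n : ℤ} (h9 : (9 : ℤ) ∣ n - 1) {ρ : Ei} (hρ : Prime ρ) (hd : ρ ∣ (n : Ei)) :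
    ¬ ρ ∣ 3 := by
  intro h
  obtain ⟨k, hk⟩ := h9
  have e : (1 : Ei) = (n : Ei) - 3 * (3 * (k : Ei)) := by
    have : n = 9 * k + 1 := by linarith
    rw [this]; push_cast; ring
  refine hρ.not_isUnit (isUnit_of_dvd_one ?_)
  rw [e]
  exact dvd_sub hd (Dvd.dvd.mul_right h _)

lemma unit_w : IsUnit w := isUnit_iff.2 (by decide)

lemma not_w {ρ : Ei} (hρ : Prime ρ) : ¬ ρ ∣ w := fun h =>
  hρ.not_isUnit (isUnit_of_dvd_unit h unit_w)

lemma lam_sq : (1 - w) * (1 - w) = ((-3 : ℤ) : Ei) * w := by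
  have := w_sq
  push_cast
  linear_combination this

lemma lam_dvd : (1 - w) ∣ (3 : Ei) := ⟨2 + w, by have := w_sq; linear_combination this⟩

/-- the values at the unit and at the prime above three -/
lemma ti_val {n : ℤ} (h9 : (9 : ℤ) ∣ n - 1) : ∃ T : Ei → ZMod 3,
    (∀ x y, Cop n.natAbs x → Cop n.natAbs y → T (x * y) = T x + T y) ∧
    (∀ x y, Cop n.natAbs x → (n : Ei) ∣ x - y → T x = T y) ∧
    (∀ c : ℤ, Cop n.natAbs (c : Ei) → T (c : Ei) = 0) ∧
    T w = 0 ∧ T (1 - w) = 0 ∧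
    (∀ π, Pq π → Cop n.natAbs π → cs π (n : Ei) = T π) := by
  have h3 : ¬ 3 ∣ n := by omega
  obtain ⟨T, hm, hc, hr, ho, hrc⟩ := exists_ti n h3
  have how : T w = 0 := by
    rw [ho, ZMod.natCast_eq_zero_iff]
    obtain ⟨k, hk⟩ := h9
    have hn : n = 9 * k + 1 := by linarith
    have e : ((n.natAbs ^ 2 : ℕ) : ℤ) = 9 * (9 * k ^ 2 + 2 * k) + 1 := by
      rw [Nat.cast_pow, Int.natCast_natAbs, sq_abs, hn]; ring
    have hnn : 0 ≤ 9 * k ^ 2 + 2 * k := by
      rcases le_or_gt 0 k with h0 | h0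
      · positivity
      · nlinarith
    obtain ⟨j, hj⟩ := Int.eq_ofNat_of_zero_le hnn
    have e2 : n.natAbs ^ 2 = 9 * j + 1 := by
      rw [hj] at e
      exact_mod_cast e
    exact ⟨j, by omega⟩
  refine ⟨T, hm, hc, hr, how, ?_, hrc⟩
  have c1 : Cop n.natAbs (1 - w) := cop_of fun ρ hρ hd hx => not_three h9 hρ hd (hx.trans lam_dvd)
  have c2 : Cop n.natAbs w := cop_of fun ρ hρ _ hx => not_w hρ hx
  have c3 : Cop n.natAbs (((-3 : ℤ)) : Ei) := cop_of fun ρ hρ hd hx => not_three h9 hρ hd (by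
    have h4 := (dvd_neg).2 hx
    have e : (3 : Ei) = -(((-3 : ℤ)) : Ei) := by push_cast; ring
    rw [e]
    exact h4)
  have h1 := hm _ _ c1 c1
  rw [lam_sq, hm _ _ c3 c2, hr _ c3, how] at h1
  revert h1
  generalize T (1 - w) = c
  revert c
  decide

/-- the supplementary law -/
theorem supp {π : Ei} (h : Pq π) (hp : (nr π).natAbs.Prime) (h9 : (9 : Ei) ∣ π - 1) :
    cs π 3 = 0 := by
  obtain ⟨a, b, rfl⟩ : ∃ a b : ℤ, π = (a : Ei) + (b : Ei) * w := ⟨π.re, π.im, eta π⟩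
  set π : Ei := (a : Ei) + (b : Ei) * w with hπ
  have hre : π.re = a := by rw [hπ]; simp [w]
  have him : π.im = b := by rw [hπ]; simp [w]
  have h9' : (9 : ℤ) ∣ a - 1 ∧ (9 : ℤ) ∣ b := by
    have h1 : (((9 : ℤ) : Ei)) ∣ π - 1 := by exact_mod_cast h9
    rw [int_dvd] at h1
    have e1 : (π - 1).re = a - 1 := by
      rw [QuadraticAlgebra.re_sub, hre, QuadraticAlgebra.re_one]
    have e2 : (π - 1).im = b := by
      rw [QuadraticAlgebra.im_sub, him, QuadraticAlgebra.im_one, sub_zero]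
    rw [e1, e2] at h1
    exact h1
  obtain ⟨ha9, hb9⟩ := h9'
  have hnr : nr π = a ^ 2 - a * b + b ^ 2 := by unfold nr; rw [hre, him]
  -- coprime
  have hcop : IsCoprime a b := by
    rw [Int.isCoprime_iff_gcd_eq_one]
    have hda : ((Int.gcd a b : ℕ) : ℤ) ∣ a := Int.gcd_dvd_left ..
    have hdb : ((Int.gcd a b : ℕ) : ℤ) ∣ b := Int.gcd_dvd_right ..
    have h1 : ((Int.gcd a b : ℕ) : ℤ) * ((Int.gcd a b : ℕ) : ℤ) ∣ nr π := by
      obtain ⟨u, hu⟩ := hda
      obtain ⟨v, hv⟩ := hdb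
      refine ⟨u ^ 2 - u * v + v ^ 2, ?_⟩
      rw [hnr]
      calc a ^ 2 - a * b + b ^ 2 = (((Int.gcd a b : ℕ) : ℤ) * u) ^ 2 - (((Int.gcd a b : ℕ) : ℤ) * u) *
            (((Int.gcd a b : ℕ) : ℤ) * v) + (((Int.gcd a b : ℕ) : ℤ) * v) ^ 2 := by rw [← hu, ← hv]
        _ = _ := by ring
    have h2 : Int.gcd a b * Int.gcd a b ∣ (nr π).natAbs := by
      have := Int.natAbs_dvd_natAbs.2 h1
      rwa [Int.natAbs_mul, Int.natAbs_natCast] at this
    have h3 := hp.prime.irreducible.squarefree _ h2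
    exact Nat.isUnit_iff.1 h3
  have hdvd2 : ∀ ρ : Ei, Prime ρ → ρ ∣ (a : Ei) → ρ ∣ (b : Ei) → False := by
    intro ρ hρ h1 h2
    obtain ⟨u, v, huv⟩ := hcop
    refine hρ.not_isUnit (isUnit_of_dvd_one ?_)
    have e : (1 : Ei) = (u : Ei) * (a : Ei) + (v : Ei) * (b : Ei) := by
      have := congrArg (fun z : ℤ => (z : Ei)) huv
      push_cast at this
      exact this.symm
    rw [e]
    exact dvd_add (Dvd.dvd.mul_left h1 _) (Dvd.dvd.mul_left h2 _)
  have hb0 : b ≠ 0 := by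
    intro hb
    rw [hb] at hnr
    have : (nr π).natAbs = a.natAbs * a.natAbs := by
      rw [hnr, ← Int.natAbs_mul]; congr 1; ring
    rw [this] at hp
    rcases Nat.prime_mul_iff.1 hp with ⟨h1, h2⟩ | ⟨h1, h2⟩ <;> exact h1.ne_one h2
  -- the prime does not divide small things
  have hπ3 := h.norm
  have nl : ¬ π ∣ 1 - w := fun hd => hπ3 (hd.trans lam_dvd)
  have nw : ¬ π ∣ w := not_w h.prime
  have nb : ¬ π ∣ (b : Ei) := by
    intro hd
    have h1 : π ∣ (a : Ei) := by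
      have e : (a : Ei) = π - (b : Ei) * w := by rw [hπ]; ring
      rw [e]
      exact dvd_sub (dvd_refl _) (Dvd.dvd.mul_right hd _)
    exact hdvd2 π h.prime h1 hd
  -- first number
  set s : ℤ := a + b with hs
  have hs9 : (9 : ℤ) ∣ s - 1 := by omega
  obtain ⟨T, hm, hc, hr, how, hol, hrc⟩ := ti_val hs9
  have hsum : (s : Ei) = (a : Ei) + (b : Ei) := by rw [hs]; push_cast; ring
  have ca : Cop s.natAbs (a : Ei) := cop_of fun ρ hρ hd hx => by
    refine hdvd2 ρ hρ hx ?_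
    have e : (b : Ei) = (s : Ei) - (a : Ei) := by rw [hsum]; ring
    rw [e]
    exact dvd_sub hd hx
  have cl : Cop s.natAbs (1 - w) := cop_of fun ρ hρ hd hx =>
    not_three hs9 hρ hd (hx.trans lam_dvd)
  have cπ : Cop s.natAbs π := cop_of fun ρ hρ hd hx => by
    have h1 : ρ ∣ (a : Ei) * (1 - w) := by
      have e : (a : Ei) * (1 - w) = π - (s : Ei) * w := by rw [hπ, hsum]; ring
      rw [e]
      exact dvd_sub hx (Dvd.dvd.mul_right hd _)
    rcases hρ.dvd_or_dvd h1 with h2 | h2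
    · refine hdvd2 ρ hρ h2 ?_
      have e : (b : Ei) = (s : Ei) - (a : Ei) := by rw [hsum]; ring
      rw [e]
      exact dvd_sub hd h2
    · exact not_three hs9 hρ hd (h2.trans lam_dvd)
  have k1 : cs π (s : Ei) = 0 := by
    rw [hrc π h cπ, hc π ((a : Ei) * (1 - w)) cπ ⟨w, by rw [hπ, hsum]; ring⟩,
      hm _ _ ca cl, hr a ca, hol, add_zero]
  have ns : ¬ π ∣ (s : Ei) := fun hd => cπ π h.prime (by
    refine hd.trans ?_
    rcases Int.natAbs_eq s with h | h
    · conv_lhs => rw [h]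
      rw [Int.cast_natCast]
    · conv_lhs => rw [h]
      rw [Int.cast_neg, Int.cast_natCast]
      exact (neg_dvd).2 (dvd_refl _)) (dvd_refl _)
  have k2 : cs π (b : Ei) + cs π (1 - w) = 0 := by
    rw [← cs_mul h.prime h.norm nb nl, ← k1]
    refine (cs_congr h.prime h.norm ns ?_).symm
    exact ⟨1, by rw [hsum, hπ]; ring⟩
  -- second number
  obtain ⟨T', hm', hc', hr', how', -, hrc'⟩ := ti_val ha9
  have cb : Cop a.natAbs (b : Ei) := cop_of fun ρ hρ hd hx => hdvd2 ρ hρ hd hx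
  have cw : Cop a.natAbs w := cop_of fun ρ hρ _ hx => not_w hρ hx
  have cπ' : Cop a.natAbs π := cop_of fun ρ hρ hd hx => by
    have h1 : ρ ∣ (b : Ei) * w := by
      have e : (b : Ei) * w = π - (a : Ei) := by rw [hπ]; ring
      rw [e]
      exact dvd_sub hx hd
    rcases hρ.dvd_or_dvd h1 with h2 | h2
    · exact hdvd2 ρ hρ hd h2
    · exact not_w hρ h2
  have k3 : cs π (a : Ei) = 0 := by
    rw [hrc' π h cπ', hc' π ((b : Ei) * w) cπ' ⟨1, by rw [hπ]; ring⟩,
      hm' _ _ cb cw, hr' b cb, how', add_zero]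
  have na : ¬ π ∣ (a : Ei) := by
    intro hd
    have h1 : π ∣ (b : Ei) * w := by
      have e : (b : Ei) * w = π - (a : Ei) := by rw [hπ]; ring
      rw [e]
      exact dvd_sub (dvd_refl _) hd
    rcases h.prime.dvd_or_dvd h1 with h2 | h2
    · exact nb h2
    · exact nw h2
  have kw : cs π w = 0 := by
    rw [cs_wG h, ZMod.natCast_eq_zero_iff]
    unfold nn
    obtain ⟨i, hi⟩ := ha9
    obtain ⟨j, hj⟩ := hb9
    have hai : a = 9 * i + 1 := by linarith
    have e : nr π = 9 * (9 * i ^ 2 + 2 * i - (9 * i + 1) * j + 9 * j ^ 2) + 1 := by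
      rw [hnr, hai, hj]; ring
    have hnn := nr_nonneg π
    omega
  have nbw : ¬ π ∣ (b : Ei) * w := fun h1 => by
    rcases h.prime.dvd_or_dvd h1 with h2 | h2
    · exact nb h2
    · exact nw h2
  have k4 : cs π (b : Ei) = 0 := by
    have h1 : cs π (a : Ei) = cs π (-((b : Ei) * w)) :=
      cs_congr h.prime h.norm na ⟨1, by rw [hπ]; ring⟩
    rw [k3, cs_neg h.prime h.norm nbw, cs_mul h.prime h.norm nb nw, kw, add_zero] at h1
    exact h1.symm
  rw [k4, zero_add] at k2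
  have nll : ¬ π ∣ (1 - w) * (1 - w) := fun h1 => by
    rcases h.prime.dvd_or_dvd h1 with h2 | h2 <;> exact nl h2
  have e3 : (3 : Ei) = -((1 - w) * (1 - w) * (w * w)) := by
    have h1 := w_sq
    have h2 := w_cube
    rw [lam_sq]
    push_cast
    linear_combination (-3 : Ei) * h2
  have nww : ¬ π ∣ w * w := fun h1 => by
    rcases h.prime.dvd_or_dvd h1 with h2 | h2 <;> exact nw h2
  rw [e3, cs_neg h.prime h.norm (fun h1 => by
    rcases h.prime.dvd_or_dvd h1 with h2 | h2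
    · exact nll h2
    · exact nww h2), cs_mul h.prime h.norm nll nww, cs_mul h.prime h.norm nl nl,
    cs_mul h.prime h.norm nw nw, k2, kw]
  rfl

end Pool.Agent.V11291.EK.Su
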