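import Pool.Agent.W401.Cheb.Main
import Pool.Agent.V11291.E49.Sep
import Pool.Agent.V11291.FK.Low
import Pool.Agent.V11291.EK.Supp
import Pool.Agent.V11291.EK.Par

/-!
# The density of the primes for the characters of order `3 ^ k`
-/

set_option autoImplicit false
set_option linter.style.haveILetI false

open scoped Classical

namespace Pool.Agent.V11291.EK.De

open NumberField Polynomial Filter Topology
open Pool.Agent.W401.Cheb (xp HasFrob pr)

theorem not_cube (b : ℚ) : b ^ 3 ≠ 3 := by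
  intro h
  have hb : b ≠ 0 := by rintro rfl; norm_num at h
  have : Fact (Nat.Prime 3) := ⟨Nat.prime_three⟩
  have h1 : padicValRat 3 (b ^ 3) = 3 * padicValRat 3 b := by
    rw [padicValRat.pow]
    norm_num
  have h2 : padicValRat 3 (3 : ℚ) = 1 := by
    have := padicValRat.self (p := 3) (by norm_num)
    exact_mod_cast this
  rw [h, h2] at h1
  omega

theorem exists_field3 (k : ℕ) :
    ∃ (L : Type) (_ : Field L) (_ : NumberField L) (_ : IsGalois ℚ L) (g : Gal(L/ℚ))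
      (ζ α : 𝓞 L), (ζ ^ 3 ^ k) ^ 2 + ζ ^ 3 ^ k + 1 = 0 ∧ α ^ 3 = 3 ∧ g • ζ = ζ ∧
      (g • α) ^ 2 + (g • α) * α + α ^ 2 = 0 := by
  classical
  obtain ⟨n, hn⟩ : ∃ n : ℕ, n = 3 ^ (k + 1) := ⟨_, rfl⟩
  have hn0 : 0 < n := by rw [hn]; positivity
  obtain ⟨f1, hf1⟩ : ∃ f : ℚ[X], f = cyclotomic n ℚ := ⟨_, rfl⟩
  obtain ⟨f2, hf2⟩ : ∃ f : ℚ[X], f = X ^ 3 - C 3 := ⟨_, rfl⟩
  have d1 : f1.natDegree ≠ 0 := by
    rw [hf1, natDegree_cyclotomic]
    exact (Nat.totient_pos.2 hn0).ne'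
  have d2 : f2.natDegree = 3 := by rw [hf2]; compute_degree!
  have n1 : f1 ≠ 0 := by rintro h; rw [h] at d1; simp at d1
  have n2 : f2 ≠ 0 := by rintro h; rw [h] at d2; simp at d2
  obtain ⟨f, hf⟩ : ∃ f : ℚ[X], f = f1 * f2 := ⟨_, rfl⟩
  have hf0 : f ≠ 0 := by rw [hf]; exact mul_ne_zero n1 n2
  obtain ⟨L, hL1, hcz, hLs⟩ := Pool.Agent.V11291.E49.exists_split f
  have hroot : ∀ h : ℚ[X], h ∣ f → h.natDegree ≠ 0 → ∃ x : L, aeval x h = 0 := by
    intro h hd hdeg
    have hs : Splits (h.map (algebraMap ℚ L)) :=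
      (IsSplittingField.splits L f).of_dvd (Polynomial.map_ne_zero hf0) (Polynomial.map_dvd _ hd)
    obtain ⟨x, hx⟩ := hs.exists_eval_eq_zero (by
      rw [degree_map]
      intro h0
      exact hdeg (natDegree_eq_of_degree_eq_some h0))
    exact ⟨x, by rwa [eval_map_algebraMap] at hx⟩
  obtain ⟨ζ, hζ⟩ := hroot f1 ⟨f2, hf⟩ d1
  obtain ⟨α, hα⟩ := hroot f2 ⟨f1, by rw [hf]; ring⟩ (by rw [d2]; norm_num)
  have hnZ : NeZero n := ⟨hn0.ne'⟩
  have hnL : NeZero (n : L) := ⟨by exact_mod_cast hn0.ne'⟩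
  have hζ' : IsPrimitiveRoot ζ n := by
    rw [← isRoot_cyclotomic_iff, IsRoot.def]
    rw [hf1, aeval_def, eval₂_eq_eval_map, map_cyclotomic] at hζ
    exact hζ
  have hα' : α ^ 3 = 3 := by
    rw [hf2] at hα
    simp only [map_sub, map_pow, aeval_X, map_ofNat] at hα
    linear_combination hα
  have hα0 : α ≠ 0 := by
    rintro rfl
    norm_num at hα'
  have hfd : FiniteDimensional ℚ L := IsSplittingField.finiteDimensional L f
  have hnf : NumberField L := ⟨⟩
  have hnorm : Normal ℚ L := Normal.of_isSplittingField f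
  have hsep : Algebra.IsSeparable ℚ L := Algebra.IsAlgebraic.isSeparable_of_perfectField
  have hgal : IsGalois ℚ L := ⟨⟩
  -- the cube root of unity
  obtain ⟨w, hw⟩ : ∃ w : L, w = ζ ^ 3 ^ k := ⟨_, rfl⟩
  have hw3 : IsPrimitiveRoot w 3 := by
    rw [hw]
    exact hζ'.pow hn0 (by rw [hn, pow_succ, mul_comm])
  have hw3' : w ^ 3 = 1 := hw3.pow_eq_one
  have hw1 : w ≠ 1 := hw3.ne_one (by norm_num)
  have hwq : w ^ 2 + w + 1 = 0 := by
    have h1 : (w - 1) * (w ^ 2 + w + 1) = 0 := by linear_combination hw3'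
    exact (mul_eq_zero.1 h1).resolve_left (sub_ne_zero.2 hw1)
  have hw0 : w ≠ 0 := hw3.ne_zero (by norm_num)
  have key : ∃ g : Gal(L/ℚ), g ζ = ζ ∧ g α ≠ α := by
    by_contra hcon
    push Not at hcon
    have hcz' : ∀ g h : Gal(L/ℚ), g (h ζ) = h (g ζ) := by
      intro g h
      obtain ⟨a, -, ha⟩ := hζ'.eq_pow_of_pow_eq_one (ξ := g ζ) (by
        rw [← map_pow, hζ'.pow_eq_one, map_one])
      obtain ⟨b, -, hb⟩ := hζ'.eq_pow_of_pow_eq_one (ξ := h ζ) (by
        rw [← map_pow, hζ'.pow_eq_one, map_one])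
      rw [← hb, ← ha, map_pow, map_pow, ← ha, ← hb, ← pow_mul, ← pow_mul, mul_comm]
    have comm : ∀ g h : Gal(L/ℚ), g (h α) = h (g α) := by
      intro g h
      obtain ⟨t, ht⟩ : ∃ t : Gal(L/ℚ), t = (h * g)⁻¹ * (g * h) := ⟨_, rfl⟩
      have h1 : ∀ x : L, (h * g) (t x) = (g * h) x := by
        intro x
        rw [← AlgEquiv.mul_apply, ht, mul_inv_cancel_left]
      have h2 : t ζ = ζ := by
        apply (h * g).injective
        rw [h1 ζ]
        exact hcz' g h
      have h3 := hcon t h2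
      have h4 := h1 α
      rw [h3] at h4
      exact h4.symm
    have hirr : Irreducible (X ^ 3 - C 3 : ℚ[X]) :=
      X_pow_sub_C_irreducible_of_prime Nat.prime_three not_cube
    have hmin : ∀ y : L, y ^ 3 = 3 → minpoly ℚ y = X ^ 3 - C 3 := by
      intro y hy
      refine (minpoly.eq_of_irreducible_of_monic hirr ?_ (monic_X_pow_sub_C _ (by norm_num))).symm
      simp only [map_sub, map_pow, aeval_X, map_ofNat]
      rw [hy, sub_self]
    have hex : ∀ y : L, y ^ 3 = 3 → ∃ σ : Gal(L/ℚ), y = σ α := by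
      intro y hy
      have h1 : IsConjRoot ℚ α y := by rw [isConjRoot_def, hmin y hy, hmin α hα']
      obtain ⟨σ, h2⟩ := isConjRoot_iff_exists_algEquiv.1 h1.symm
      exact ⟨σ, h2.symm⟩
    obtain ⟨σ, hσ⟩ := hex (w * α) (by rw [mul_pow, hw3', hα', one_mul])
    obtain ⟨σ', hσ'⟩ := hex (w ^ 2 * α) (by
      rw [mul_pow, ← pow_mul, mul_comm 2 3, pow_mul, hw3', hα', one_pow, one_mul])
    have hw32 : IsPrimitiveRoot (w ^ 2) 3 := hw3.pow_of_coprime 2 (by norm_num)
    have hcw : IsConjRoot ℚ w (w ^ 2) := by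
      rw [isConjRoot_def, ← cyclotomic_eq_minpoly_rat hw3 (by norm_num),
        ← cyclotomic_eq_minpoly_rat hw32 (by norm_num)]
    obtain ⟨τ, hτ⟩ : ∃ τ : Gal(L/ℚ), w ^ 2 = τ w := by
      obtain ⟨σ, h2⟩ := isConjRoot_iff_exists_algEquiv.1 hcw.symm
      exact ⟨σ, h2.symm⟩
    have hor : ∀ u : L, u ^ 3 = 1 → u = 1 ∨ u = w ∨ u = w ^ 2 := by
      intro u hu
      have h1 : (u - 1) * ((u - w) * (u - w ^ 2)) = 0 := by
        have e : (u - 1) * ((u - w) * (u - w ^ 2)) = u ^ 3 - u ^ 2 * (w ^ 2 + w + 1) +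
            u * (w * (w ^ 2 + w + 1)) - w ^ 3 := by ring
        rw [e, hwq, hu, hw3']
        ring
      rcases mul_eq_zero.1 h1 with h | h
      · exact Or.inl (sub_eq_zero.1 h)
      · rcases mul_eq_zero.1 h with h | h
        · exact Or.inr (Or.inl (sub_eq_zero.1 h))
        · exact Or.inr (Or.inr (sub_eq_zero.1 h))
    have hgw : ∀ g : Gal(L/ℚ), g w = w ∨ g w = w ^ 2 := by
      intro g
      rcases hor (g w) (by rw [← map_pow, hw3', map_one]) with h | h | h
      · exfalso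
        apply hw1
        apply g.injective
        rw [h, map_one]
      · exact Or.inl h
      · exact Or.inr h
    have hww : w ^ 2 ≠ w := by
      intro h
      apply hw1
      have h1 : w * (w - 1) = 0 := by linear_combination h
      rcases mul_eq_zero.1 h1 with h2 | h2
      · exact absurd h2 hw0
      · linear_combination h2
    have hσw : σ w = w := by
      rcases hgw σ with h | h
      · exact h
      exfalso
      have h1 := comm σ σ'
      rw [← hσ, ← hσ', map_mul, map_mul, map_pow, ← hσ, ← hσ', h] at h1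
      rcases hgw σ' with h2 | h2
      · rw [h2] at h1
        have h3 : w ^ 2 = 1 := by
          apply mul_right_cancel₀ hα0
          linear_combination h1 - (w ^ 2 * α - α) * hw3'
        apply hw1
        have h4 : w * w ^ 2 = 1 := by linear_combination hw3'
        rw [h3, mul_one] at h4
        exact h4
      · rw [h2] at h1
        apply hww
        apply mul_right_cancel₀ hα0
        linear_combination h1 - (w ^ 2 * α - w * α) * hw3'
    have h1 := comm σ τ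
    rw [← hσ, map_mul, ← hτ] at h1
    have h2 : ∃ u : L, u ^ 3 = 1 ∧ τ α = u * α := by
      refine ⟨τ α / α, ?_, by rw [div_mul_cancel₀ _ hα0]⟩
      rw [div_pow, ← map_pow, hα', map_ofNat, div_self (by norm_num)]
    obtain ⟨u, hu, hτα⟩ := h2
    have hu0 : u ≠ 0 := by
      rintro rfl
      norm_num at hu
    have hσu : σ u = u := by
      rcases hor u hu with h | h | h
      · rw [h, map_one]
      · rw [h, hσw]
      · rw [h, map_pow, hσw]
    rw [hτα, map_mul, hσu, ← hσ] at h1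
    apply hww
    apply mul_right_cancel₀ (mul_ne_zero hu0 hα0)
    linear_combination -h1
  obtain ⟨g, hg1, hg2⟩ := key
  have hgq : (g α) ^ 2 + (g α) * α + α ^ 2 = 0 := by
    have h1 : (g α) ^ 3 = 3 := by rw [← map_pow, hα', map_ofNat]
    have h2 : (g α - α) * ((g α) ^ 2 + (g α) * α + α ^ 2) = 0 := by
      linear_combination h1 - hα'
    exact (mul_eq_zero.1 h2).resolve_left (sub_ne_zero.2 hg2)
  have iζ : IsIntegral ℤ ζ := hζ'.isIntegral hn0
  have iα : IsIntegral ℤ α := by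
    refine IsIntegral.of_pow (n := 3) (by norm_num) ?_
    rw [hα']
    have h3 := isIntegral_algebraMap (R := ℤ) (A := L) (x := 3)
    rwa [map_ofNat] at h3
  refine ⟨L, hL1, hnf, hgal, g, ⟨ζ, iζ⟩, ⟨α, iα⟩, ?_, ?_, ?_, ?_⟩
  · apply RingOfIntegers.ext
    push_cast
    show (ζ ^ 3 ^ k) ^ 2 + ζ ^ 3 ^ k + 1 = 0
    rw [← hw]
    exact hwq
  · apply RingOfIntegers.ext
    push_cast
    exact hα'
  · apply RingOfIntegers.ext
    exact hg1
  · apply RingOfIntegers.ext
    push_cast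
    exact hgq

/-- from a mean value to a lower density -/
theorem dn_mean {a : ℕ → ℝ} (ha : ∀ p, 0 ≤ a p)
    (h : Tendsto (fun N : ℕ => (∑ p ∈ pr N, a p) / (Nat.primeCounting N : ℝ)) atTop (𝓝 1))
    {P : ℕ → Prop} {D : ℕ} (hD : 0 < D) {K : ℝ} (hK : 0 < K)
    (hS : ∀ p : ℕ, p.Prime → ¬ p ∣ D → a p ≠ 0 → P p ∧ a p ≤ K) :
    Pool.Agent.V11291.FK.Dn P := by
  obtain ⟨C0, hC0⟩ : ∃ C0 : ℝ, C0 = ∑ p ∈ D.primeFactors, a p := ⟨_, rfl⟩
  have hC0' : 0 ≤ C0 := by rw [hC0]; exact Finset.sum_nonneg fun p _ => ha p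
  have t1 : Tendsto (fun Y : ℕ => (Y : ℝ) / Real.log Y) atTop atTop := by
    have h1 : Tendsto (fun y : ℝ => Real.exp y / y ^ 1) atTop atTop :=
      Real.tendsto_exp_div_pow_atTop 1
    have h2 := h1.comp (Real.tendsto_log_atTop.comp (tendsto_natCast_atTop_atTop (R := ℝ)))
    refine h2.congr' ?_
    filter_upwards [eventually_ge_atTop 1] with Y hY
    have : (0 : ℝ) < Y := by exact_mod_cast hY
    simp only [Function.comp, pow_one]
    rw [Real.exp_log this]
  obtain ⟨Y₁, hY₁⟩ := eventually_atTop.1 (t1.eventually_ge_atTop (16 * C0))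
  obtain ⟨Y₂, hY₂⟩ := eventually_atTop.1 (h.eventually (lt_mem_nhds (show (1 / 2 : ℝ) < 1 by norm_num)))
  refine ⟨1 / (16 * K), max 4 (max Y₁ Y₂), by positivity, fun Y hY => ?_⟩
  have hY4 : 4 ≤ Y := (le_max_left _ _).trans hY
  have hYa : Y₁ ≤ Y := ((le_max_left _ _).trans (le_max_right _ _)).trans hY
  have hYb : Y₂ ≤ Y := ((le_max_right _ _).trans (le_max_right _ _)).trans hY
  have h1 := hY₁ Y hYa
  have h2 := hY₂ Y hYb
  have h3 := Pool.Agent.V11291.JF.pc_ge hY4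
  have hlog : 0 < Real.log (Y : ℝ) := Real.log_pos (by
    have : (4 : ℝ) ≤ Y := by exact_mod_cast hY4
    linarith)
  have hYp : (0 : ℝ) < Y := by
    have : (4 : ℝ) ≤ Y := by exact_mod_cast hY4
    linarith
  have hpc : (0 : ℝ) < (Nat.primeCounting Y : ℝ) := lt_of_lt_of_le (by positivity) h3
  rw [lt_div_iff₀ hpc] at h2
  have h4 : ∑ p ∈ pr Y, a p ≤ K * ((((Finset.range (Y + 1)).filter P).card : ℕ) : ℝ) + C0 := by
    rw [← Finset.sum_filter_add_sum_filter_not (pr Y) (fun p => p ∣ D)]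
    have h5 : ∑ p ∈ (pr Y).filter (fun p => p ∣ D), a p ≤ C0 := by
      rw [hC0]
      refine Finset.sum_le_sum_of_subset_of_nonneg ?_ fun p _ _ => ha p
      intro p hp
      rw [Finset.mem_filter] at hp
      rw [Nat.mem_primeFactors]
      exact ⟨(Finset.mem_filter.1 hp.1).2, hp.2, hD.ne'⟩
    have h6 : ∑ p ∈ (pr Y).filter (fun p => ¬ p ∣ D), a p ≤
        K * ((((Finset.range (Y + 1)).filter P).card : ℕ) : ℝ) := by
      have h7 : ∑ p ∈ (pr Y).filter (fun p => ¬ p ∣ D), a p ≤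
          ∑ p ∈ (Finset.range (Y + 1)).filter P, K := by
        rw [← Finset.sum_filter_add_sum_filter_not ((pr Y).filter (fun p => ¬ p ∣ D)) P]
        have h8 : ∑ p ∈ ((pr Y).filter (fun p => ¬ p ∣ D)).filter (fun p => ¬ P p), a p = 0 := by
          refine Finset.sum_eq_zero fun p hp => ?_
          rw [Finset.mem_filter, Finset.mem_filter] at hp
          by_contra h9
          exact hp.2 (hS p (Finset.mem_filter.1 hp.1.1).2 hp.1.2 h9).1
        rw [h8, add_zero]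
        refine (Finset.sum_le_sum (g := fun _ => K) fun p hp => ?_).trans
          (Finset.sum_le_sum_of_subset_of_nonneg ?_ fun p _ _ => hK.le)
        · rw [Finset.mem_filter, Finset.mem_filter] at hp
          by_cases h9 : a p = 0
          · rw [h9]
            exact hK.le
          · exact (hS p (Finset.mem_filter.1 hp.1.1).2 hp.1.2 h9).2
        · intro p hp
          rw [Finset.mem_filter, Finset.mem_filter] at hp
          rw [Finset.mem_filter]
          exact ⟨(Finset.mem_filter.1 hp.1.1).1, hp.2⟩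
      refine h7.trans (le_of_eq ?_)
      rw [Finset.sum_const, nsmul_eq_mul, mul_comm]
    linarith
  have h5 : 1 / 2 * (Y / (4 * Real.log Y)) ≤ K * ((((Finset.range (Y + 1)).filter P).card : ℕ) : ℝ) + C0 := by
    have h6 : 1 / 2 * ((Y : ℝ) / (4 * Real.log Y)) ≤ 1 / 2 * (Nat.primeCounting Y : ℝ) :=
      mul_le_mul_of_nonneg_left h3 (by norm_num)
    linarith
  have h6 : 1 / 2 * ((Y : ℝ) / (4 * Real.log Y)) = 1 / 8 * (Y / Real.log Y) := by
    field_simp
    ring
  rw [h6] at h5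
  have h7 : 1 / 16 * ((Y : ℝ) / Real.log Y) ≤
      K * ((((Finset.range (Y + 1)).filter P).card : ℕ) : ℝ) := by linarith
  have h8 : 1 / (16 * K) * ((Y : ℝ) / Real.log Y) = (1 / 16 * ((Y : ℝ) / Real.log Y)) / K := by
    field_simp
  rw [h8, div_le_iff₀ hK, mul_comm _ K]
  exact h7

/-- the primes for which three is not a cube -/
theorem dn_three (k : ℕ) : Pool.Agent.V11291.FK.Dn fun p => p.Prime ∧ 3 ^ (k + 1) ∣ p - 1 ∧
    ¬ ∃ x : ℤ, (p : ℤ) ∣ 3 - x ^ 3 := by
  obtain ⟨L, hL1, hL2, hL3, g, ζ, α, hζ, hα, gζ, gα⟩ := exists_field3 k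
  obtain ⟨D0, hD0, hT⟩ := Pool.Agent.W401.Cheb.torsor L
  refine dn_mean (a := fun p => (xp L g p : ℝ)) (fun p => Nat.cast_nonneg _)
    (Pool.Agent.W401.Cheb.chebotarev L g) (D := D0 * 3)
    (Nat.mul_pos hD0 (by norm_num))
    (K := (Nat.card Gal(L/ℚ) : ℝ)) (by exact_mod_cast Nat.card_pos) ?_
  intro p hp hpD hx
  have hpf : Fact p.Prime := ⟨hp⟩
  have hpD0 : ¬ p ∣ D0 := fun h => hpD (h.mul_right _)
  have hp3' : ¬ p ∣ 3 := fun h => hpD (h.mul_left _)
  have hp3 : p ≠ 3 := by rintro rfl; exact hp3' (dvd_refl _)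
  have hx' : xp L g p ≠ 0 := fun h => hx (by rw [h]; norm_num)
  have hxe : xp L g p = Nat.card {φ : 𝓞 L →+* AlgebraicClosure (ZMod p) // HasFrob p φ g} := by
    unfold xp
    rw [dif_pos hp]
  refine ⟨?_, ?_⟩
  swap
  · have hc := (hT p hpD0).1
    have h1 : Nat.card {φ : 𝓞 L →+* AlgebraicClosure (ZMod p) // HasFrob p φ g} ≤
        Nat.card (𝓞 L →+* AlgebraicClosure (ZMod p)) := by
      have : Finite (𝓞 L →+* AlgebraicClosure (ZMod p)) :=
        Nat.finite_of_card_ne_zero (by rw [hc]; exact Nat.card_pos.ne')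
      exact Nat.card_le_card_of_injective _ Subtype.val_injective
    rw [hc, ← hxe] at h1
    exact_mod_cast h1
  rw [hxe] at hx'
  obtain ⟨⟨φ, hφ⟩⟩ : Nonempty {φ : 𝓞 L →+* AlgebraicClosure (ZMod p) // HasFrob p φ g} := by
    by_contra h
    rw [not_nonempty_iff] at h
    exact hx' Nat.card_of_isEmpty
  have inj : Function.Injective (algebraMap (ZMod p) (AlgebraicClosure (ZMod p))) :=
    (algebraMap (ZMod p) (AlgebraicClosure (ZMod p))).injective
  obtain ⟨a, ha⟩ : ∃ z : ZMod p, algebraMap (ZMod p) (AlgebraicClosure (ZMod p)) z = φ ζ := by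
    refine W54.ChTor.frob_fixed p (φ ζ) ?_
    have := hφ ζ
    rw [gζ] at this
    exact this.symm
  have ha3 : (a ^ 3 ^ k) ^ 2 + a ^ 3 ^ k + 1 = 0 := by
    apply inj
    have h1 := congrArg φ hζ
    rw [map_add, map_add, map_one, map_pow, map_pow, map_zero, ← ha] at h1
    rw [map_add, map_add, map_one, map_pow, map_pow, map_zero]
    exact h1
  have n3 : (3 : ZMod p) ≠ 0 := by
    intro h
    have h1 : ((3 : ℕ) : ZMod p) = 0 := by exact_mod_cast h
    rw [ZMod.natCast_eq_zero_iff] at h1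
    exact hp3' h1
  obtain ⟨b, hb⟩ : ∃ b, b = a ^ 3 ^ k := ⟨_, rfl⟩
  rw [← hb] at ha3
  have hb3 : b ^ 3 = 1 := by linear_combination (b - 1) * ha3
  have hb1 : b ≠ 1 := by
    rintro h
    rw [h] at ha3
    apply n3
    linear_combination ha3
  have ha0 : a ≠ 0 := by
    intro h
    rw [h, zero_pow (by positivity)] at hb
    rw [hb] at hb3
    norm_num at hb3
  have hord : orderOf a = 3 ^ (k + 1) := by
    have : Fact (Nat.Prime 3) := ⟨Nat.prime_three⟩
    refine orderOf_eq_prime_pow ?_ ?_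
    · rw [← hb]; exact hb1
    · rw [pow_succ, pow_mul, ← hb]; exact hb3
  refine ⟨hp, ?_, ?_⟩
  · rw [← hord]
    exact orderOf_dvd_of_pow_eq_one (ZMod.pow_card_sub_one_eq_one ha0)
  · rintro ⟨x, hx3⟩
    have hx3' : ((x : ZMod p)) ^ 3 = 3 := by
      have h1 : (((3 - x ^ 3 : ℤ)) : ZMod p) = 0 := (ZMod.intCast_zmod_eq_zero_iff_dvd _ _).2 hx3
      push_cast at h1
      linear_combination -h1
    -- the cube root of three in the closure
    have e1 : (φ α) ^ 3 = 3 := by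
      have h1 := congrArg φ hα
      rw [map_pow, map_ofNat] at h1
      exact h1
    obtain ⟨X, hX⟩ : ∃ X : AlgebraicClosure (ZMod p), X = algebraMap (ZMod p) _ (x : ZMod p) :=
      ⟨_, rfl⟩
    obtain ⟨B, hB⟩ : ∃ B : AlgebraicClosure (ZMod p), B = algebraMap (ZMod p) _ b := ⟨_, rfl⟩
    have hX3 : X ^ 3 = 3 := by rw [hX, ← map_pow, hx3', map_ofNat]
    have hB3 : B ^ 2 + B + 1 = 0 := by
      rw [hB, ← map_pow, ← map_add, ← map_one (algebraMap (ZMod p) (AlgebraicClosure (ZMod p))),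
        ← map_add, ha3, map_zero]
    have hXp : X ^ p = X := by rw [hX, ← map_pow, ZMod.pow_card]
    have hBp : B ^ p = B := by rw [hB, ← map_pow, ZMod.pow_card]
    have h5 : (φ α) ^ p = φ α := by
      have h6 : (φ α - X) * ((φ α - B * X) * (φ α - B ^ 2 * X)) = 0 := by
        have e : (φ α - X) * ((φ α - B * X) * (φ α - B ^ 2 * X)) =
            (φ α) ^ 3 - X ^ 3 + (B ^ 2 + B + 1) * (-(φ α) ^ 2 * X + B * φ α * X ^ 2 -
              (B - 1) * X ^ 3) := by ring
        rw [e, hB3, e1, hX3]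
        ring
      rcases mul_eq_zero.1 h6 with h | h
      · rw [sub_eq_zero.1 h, hXp]
      · rcases mul_eq_zero.1 h with h | h
        · rw [sub_eq_zero.1 h, mul_pow, hXp, hBp]
        · rw [sub_eq_zero.1 h, mul_pow, hXp, ← pow_mul, mul_comm 2 p, pow_mul, hBp]
    have h6 := congrArg φ gα
    have h7 := hφ α
    rw [h5] at h7
    rw [map_add, map_add, map_mul, map_pow, map_pow, map_zero, h7] at h6
    have h8 : (3 : AlgebraicClosure (ZMod p)) * (φ α) ^ 2 = 0 := by linear_combination h6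
    have n3' : (3 : AlgebraicClosure (ZMod p)) ≠ 0 := by
      intro h
      apply n3
      apply inj
      rw [map_ofNat, map_zero]
      exact h
    have h9 := pow_eq_zero_iff (two_ne_zero) |>.1 ((mul_eq_zero.1 h8).resolve_left n3')
    rw [h9] at e1
    apply n3'
    rw [← e1]
    norm_num


open Pool.Agent.Y692.QS (Ei nr nr_nonneg)
open Pool.Agent.Y715.T.RecG (Pq cs_zero_iff)
open Pool.Agent.Y699.E (nrm nrm_cast)

theorem dn_mono {P Q : ℕ → Prop} (h : ∀ p, P p → Q p) (hP : Pool.Agent.V11291.FK.Dn P) :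
    Pool.Agent.V11291.FK.Dn Q := by
  obtain ⟨δ, Y₀, hδ, h1⟩ := hP
  refine ⟨δ, Y₀, hδ, fun Y hY => (h1 Y hY).trans ?_⟩
  exact_mod_cast Finset.card_le_card fun p hp => by
    rw [Finset.mem_filter] at hp ⊢
    exact ⟨hp.1, h p hp.2⟩

/-- a primary prime above a prime for which three is not a cube -/
theorem exists_pi {p : ℕ} (hp : p.Prime) (h1 : p % 3 = 1)
    (h3 : ¬ ∃ x : ℤ, (p : ℤ) ∣ 3 - x ^ 3) :
    ∃ π : Ei, Pq π ∧ nrm π = p ∧ ¬ (9 : Ei) ∣ π - 1 := by
  obtain ⟨hπ, hn⟩ := Pool.Agent.Y333.CX.pp_spec hp h1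
  obtain ⟨π, hπe⟩ : ∃ π : Ei, π = Pool.Agent.Y703.CX.pp p := ⟨_, rfl⟩
  rw [← hπe] at hπ hn
  have hnp : (nr π).natAbs = p := by rw [hn, Int.natAbs_natCast]
  refine ⟨π, hπ, ?_, ?_⟩
  · have := nrm_cast π
    rw [hn] at this
    exact_mod_cast this
  · intro h9
    have h4 := Su.supp hπ (by rw [hnp]; exact hp) h9
    rw [cs_zero_iff hπ.prime hπ.norm hπ.norm] at h4
    obtain ⟨y, hy⟩ := h4
    obtain ⟨x, hx⟩ := Pool.Agent.Y333.CX.exists_int hp h1 y
    rw [← hπe] at hx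
    apply h3
    refine ⟨x, ?_⟩
    rw [← Pool.Agent.Y333.CX.dvd_int hp h1, ← hπe]
    have e : (((3 : ℤ) - x ^ 3 : ℤ) : Ei) = (3 - y ^ 3) + (y ^ 3 - (x : Ei) ^ 3) := by
      push_cast
      ring
    rw [e]
    refine dvd_add hy (hx.trans ?_)
    exact sub_dvd_pow_sub_pow _ _ _

theorem dn_pi (k : ℕ) : Pool.Agent.V11291.FK.Dn fun p => ∃ π : Ei,
    (Bs (fun π => 3 ^ (k + 1) ∣ nrm π - 1) π ∧ ¬ (9 : Ei) ∣ π - 1) ∧ nrm π = p := by
  refine dn_mono ?_ (dn_three k)
  rintro p ⟨hp, h1, h3⟩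
  have h2 : 3 ∣ p - 1 := (dvd_pow_self 3 (Nat.succ_ne_zero k)).trans h1
  have h4 := hp.two_le
  obtain ⟨π, hπ, hn, h9⟩ := exists_pi hp (by omega) h3
  exact ⟨π, ⟨⟨⟨hπ, by rw [hn]; exact hp⟩, by show 3 ^ (k + 1) ∣ nrm π - 1; rw [hn]; exact h1⟩, h9⟩, hn⟩

end Pool.Agent.V11291.EK.De
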