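import Pool.Agent.V11291.EK.ParC
import Pool.Agent.V11291.EK.Dens

/-!
# The condition of the theorem in terms of cubes
-/

set_option autoImplicit false
set_option linter.unusedSectionVars false
set_option linter.unusedVariables false

open scoped Classical

namespace Pool.Agent.V11291.EK

open Finset
open Pool.Agent.Y692.QS (Ei nr)
open Pool.Agent.Y715.T.RecG (Pq cs_prod cs_pow cs_one cs_zero_iff)
open Pool.Agent.Y715.T.Rec (cs)

/-- the condition in terms of cubes -/
def Cub {m : ℕ} (p : Fin m → Ei) (e : Fin m → ZMod 3) : Prop :=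
  ∀ v : Fin m → ZMod 3, (∀ j, ∃ y, p j ∣ ∏ i, p i ^ (e i * (v i - v j)).val - y ^ 3) →
    ∀ i j, v i = v j

theorem cub_iff {m : ℕ} {p : Fin m → Ei} (hp : ∀ j, Pq (p j))
    (hinj : Function.Injective fun j => nr (p j)) {e : Fin m → ZMod 3} (he : ∀ j, e j ≠ 0) :
    Cub p e ↔ GdT e p := by
  have key : ∀ (v : Fin m → ZMod 3) (j : Fin m),
      (∃ y, p j ∣ ∏ i, p i ^ (e i * (v i - v j)).val - y ^ 3) ↔
        ∑ i, e j * e i * cs (p j) (p i) * (v i - v j) = 0 := by
    intro v j
    have hnd : ∀ i, i ≠ j → ¬ p j ∣ p i := fun i hij h =>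
      hij (hinj (by
        show nr (p i) = nr (p j)
        rw [Pool.Agent.Y699.E.eq_of_dvd (hp j) (hp i) h]))
    have hn1 : ∀ i, ¬ p j ∣ p i ^ (e i * (v i - v j)).val := by
      intro i h
      by_cases hij : i = j
      · subst hij
        rw [sub_self, mul_zero, ZMod.val_zero, pow_zero] at h
        exact (hp i).prime.not_isUnit (isUnit_of_dvd_one h)
      · exact hnd i hij ((hp j).prime.dvd_of_dvd_pow h)
    have hprod : ¬ p j ∣ ∏ i, p i ^ (e i * (v i - v j)).val := by
      intro h
      obtain ⟨i, -, hi⟩ := (hp j).prime.exists_mem_finset_dvd h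
      exact hn1 i hi
    rw [← cs_zero_iff (hp j).prime (hp j).norm hprod,
      cs_prod (hp j).prime (hp j).norm _ _ fun i _ => hn1 i]
    have h1 : ∀ i, cs (p j) (p i ^ (e i * (v i - v j)).val) =
        e i * (v i - v j) * cs (p j) (p i) := by
      intro i
      by_cases hij : i = j
      · subst hij
        rw [sub_self, mul_zero, ZMod.val_zero, pow_zero, zero_mul]
        exact cs_one (hp i).prime (hp i).norm
      · rw [cs_pow (hp j).prime (hp j).norm (hnd i hij), ZMod.natCast_zmod_val]
    have h2 : ∑ i, e j * e i * cs (p j) (p i) * (v i - v j) =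
        e j * ∑ i, cs (p j) (p i ^ (e i * (v i - v j)).val) := by
      rw [Finset.mul_sum]
      refine Finset.sum_congr rfl fun i _ => ?_
      rw [h1]
      ring
    rw [h2, mul_eq_zero, or_iff_right (he j)]
  unfold Cub GdT Lc
  constructor
  · intro h v hv
    exact h v fun j => (key v j).2 (hv j)
  · intro h v hv
    exact h v fun j => (key v j).1 (hv j)

end Pool.Agent.V11291.EK
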