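import Pool.Agent.V11291.EK.Law
import Pool.Agent.V11291.EK.Cnt
import Pool.Agent.Y85.XK.LA
import Pool.Agent.Y688.XK.BOX

/-!
# A fixed number of primes over `ℤ[ω]`: the count in a box

Adapted from `Pool.Agent.Y85.XK.LA` and `Pool.Agent.Y688.XK.BOX`.
-/

set_option autoImplicit false
set_option linter.unusedSectionVars false
set_option linter.unusedVariables false

open scoped Classical

namespace Pool.Agent.V11291.EK

open Finset Module
open Pool.Agent.Y692.QS (Ei)
open Pool.Agent.Y715.T.Rec (cs)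
open Pool.Agent.Y715.T.RecG (Pq)
open Pool.Agent.Y699.E (ez nrm QB)
open Pool.Agent.Y703.XK (prs HB GdA S_SYM S_EQ)
open Pool.Agent.Y85.XK (F sp fr_Ns Gs bf mA mC mL mZ Sy pa pa_surj bf_add bf_symm mZ_symm Ns)
open Pool.Agent.Y759.CX (fr fr_equiv fr_comp)
open Pool.Agent.Y688.XK (cs_symm ext_sum)

/-- the kernel of the Laplacian of the matrix consists of the constants -/
def Lc {ι : Type} [Fintype ι] (R : ι → ι → ZMod 3) : Prop :=
  ∀ d : ι → ZMod 3, (∀ k, ∑ l, R k l * (d l - d k) = 0) → ∀ k l, d k = d l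

section la

variable {ι : Type} [Fintype ι] [LinearOrder ι]

/-- the scaling of a completion -/
def scl (ε : ι → ZMod 3) (α : prs ι → ZMod 3) : prs ι → ZMod 3 :=
  fun e => ε e.1.1 * ε e.1.2 * α e

theorem ext_scl (ε : ι → ZMod 3) (α : prs ι → ZMod 3) (k l : ι) :
    Pool.Agent.Y703.XK.ext (scl ε α) k l = ε k * ε l * Pool.Agent.Y703.XK.ext α k l := by
  unfold Pool.Agent.Y703.XK.ext scl
  by_cases h : (k, l) ∈ prs ι
  · rw [dif_pos h, dif_pos h]
  · rw [dif_neg h, dif_neg h]
    by_cases h' : (l, k) ∈ prs ι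
    · rw [dif_pos h', dif_pos h']
      ring
    · rw [dif_neg h', dif_neg h', mul_zero]

theorem sq_one : ∀ a : ZMod 3, a ≠ 0 → a * a = 1 := by decide

theorem scl_scl {ε : ι → ZMod 3} (hε : ∀ i, ε i ≠ 0) (α : prs ι → ZMod 3) :
    scl ε (scl ε α) = α := by
  funext e
  unfold scl
  have h1 := sq_one _ (hε e.1.1)
  have h2 := sq_one _ (hε e.1.2)
  calc ε e.1.1 * ε e.1.2 * (ε e.1.1 * ε e.1.2 * α e) =
      (ε e.1.1 * ε e.1.1) * (ε e.1.2 * ε e.1.2) * α e := by ring
    _ = α e := by rw [h1, h2, one_mul, one_mul]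

/-- the probability that a random completion is good, no small primes -/
theorem LAE0 (h : S_SYM) (ks : ι) :
    ((univ.filter fun α : prs ι → ZMod 3 => Lc (Pool.Agent.Y703.XK.ext α)).card : ℝ) /
      3 ^ (prs ι).card = sp (Fintype.card ι - 1) := by
  have e1 : Fintype.card {k : ι // k ≠ ks} = Fintype.card ι - 1 := by
    rw [Fintype.card_subtype_compl, Fintype.card_subtype_eq]
  have e2 : finrank F ({k : ι // k ≠ ks} → F) = Fintype.card ι - 1 := by
    rw [finrank_fintype_fun_eq_card, e1]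
  let A : Empty → Empty → ZMod 3 := fun _ _ => 0
  let B : Empty → ι → ZMod 3 := fun _ _ => 0
  rw [← e2, ← fr_Ns (V := {k : ι // k ≠ ks} → F) h]
  have h7 : (fun S : Sy ({k : ι // k ≠ ks} → F) => Gs (bf (mA A B)) (bf (mC ks B)) S.1) =
      fun S : Sy ({k : ι // k ≠ ks} → F) => Ns S.1 := by
    funext S
    apply propext
    unfold Gs Ns
    constructor
    · intro h x hx
      exact (h 0 x (fun x' => by
        have : x' = 0 := Subsingleton.elim _ _
        rw [this]
        simp) (fun y' => by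
        rw [map_zero, LinearMap.zero_apply, zero_add]
        exact hx y')).2
    · intro h x y _ h2
      have hx : x = 0 := Subsingleton.elim _ _
      refine ⟨hx, h y fun y' => ?_⟩
      have := h2 y'
      rw [hx, map_zero, LinearMap.zero_apply, zero_add] at this
      exact this
  rw [← h7]
  let S0 : Sy ({k : ι // k ≠ ks} → F) := ⟨bf (mZ ks B), bf_symm _ (mZ_symm ks B)⟩
  rw [← fr_equiv (Equiv.addRight S0)
    (fun S : Sy ({k : ι // k ≠ ks} → F) => Gs (bf (mA A B)) (bf (mC ks B)) S.1),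
    ← fr_comp (pa ks) (pa_surj ks)]
  unfold Pool.Agent.Y759.CX.fr
  have h6 : Nat.card (prs ι → F) = 3 ^ (prs ι).card := by
    rw [Nat.card_fun, Nat.card_eq_fintype_card, Nat.card_eq_fintype_card, ZMod.card,
      Fintype.card_coe]
  rw [h6, Nat.card_eq_fintype_card, Fintype.card_subtype]
  push_cast
  congr 3
  refine Finset.filter_congr fun α _ => ?_
  have h8 := Pool.Agent.Y85.XK.gd_iff ks A B (fun u _ => u.elim) α
  rw [bf_add] at h8
  refine Iff.trans ?_ h8
  unfold Lc GdA
  constructor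
  · intro h c d _ h2
    refine ⟨d ks, fun u => u.elim, fun l => h d (fun k => ?_) l ks⟩
    have := h2 k
    rw [Finset.univ_eq_empty, Finset.sum_empty, zero_add] at this
    exact this
  · intro h d hd k l
    obtain ⟨t, -, h3⟩ := h (fun u => u.elim) d (fun u => u.elim) (fun k => by
      rw [Finset.univ_eq_empty, Finset.sum_empty, zero_add]
      exact hd k)
    rw [h3 k, h3 l]

/-- the probability that a random completion is good, with weights -/
theorem LAE (h : S_SYM) (ks : ι) {ε : ι → ZMod 3} (hε : ∀ i, ε i ≠ 0) :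
    ((univ.filter fun α : prs ι → ZMod 3 =>
      Lc fun k l => ε k * ε l * Pool.Agent.Y703.XK.ext α k l).card : ℝ) /
      3 ^ (prs ι).card = sp (Fintype.card ι - 1) := by
  rw [← LAE0 h ks]
  congr 2
  refine Finset.card_bij (fun α _ => scl ε α) ?_ ?_ ?_
  · intro α hα
    rw [mem_filter] at hα ⊢
    refine ⟨mem_univ _, ?_⟩
    have e : Pool.Agent.Y703.XK.ext (scl ε α) =
        fun k l => ε k * ε l * Pool.Agent.Y703.XK.ext α k l := by
      funext k l
      exact ext_scl ε α k l
    rw [e]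
    exact hα.2
  · intro α _ β _ hαβ
    have := congrArg (scl ε) hαβ
    rwa [scl_scl hε, scl_scl hε] at this
  · intro β hβ
    refine ⟨scl ε β, ?_, scl_scl hε β⟩
    rw [mem_filter] at hβ ⊢
    refine ⟨mem_univ _, ?_⟩
    have e : (fun k l => ε k * ε l * Pool.Agent.Y703.XK.ext (scl ε β) k l) =
        Pool.Agent.Y703.XK.ext β := by
      funext k l
      rw [← ext_scl, scl_scl hε]
    rw [e]
    exact hβ.2

/-- the good tuples -/
def GdT (ε : ι → ZMod 3) (p : ι → Ei) : Prop := Lc fun k l => ε k * ε l * cs (p k) (p l)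

/-- **The count in a box.** -/
theorem boxE (h : S_SYM) (hEQ : S_EQ) (ks : ι) {ε : ι → ZMod 3} (hε : ∀ i, ε i ≠ 0)
    (C : ι → Finset Ei) (X : ι → ℕ) (κ : ℝ) (hκ : 0 ≤ κ) (hCX : ∀ i, (C i).card ≤ X i)
    (hHB : HB C X κ) (hC : ∀ i, ∀ π ∈ C i, Pq π) :
    |(((Fintype.piFinset C).filter fun p => GdT ε p).card : ℝ) -
        sp (Fintype.card ι - 1) * ((Fintype.piFinset C).card : ℝ)| ≤
      3 ^ (prs ι).card * (κ * ∏ j, (X j : ℝ)) := by
  set Q : (prs ι → ZMod 3) → Prop := fun α =>
    Lc fun k l => ε k * ε l * Pool.Agent.Y703.XK.ext α k l with hQ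
  have h2 : ((univ.filter Q).card : ℝ) / 3 ^ (prs ι).card = sp (Fintype.card ι - 1) := LAE h ks hε
  have h3 := hEQ ι C X κ hκ hCX hHB Q
  have h4 : ((Fintype.piFinset C).filter fun p => GdT ε p) =
      ((Fintype.piFinset C).filter fun p => Q fun e => cs (p e.1.1) (p e.1.2)) := by
    refine Finset.filter_congr fun p hp => ?_
    rw [Fintype.mem_piFinset] at hp
    have hpr : ∀ i, Pq (p i) := fun i => hC i _ (hp i)
    have e : ∀ (d : ι → ZMod 3) (k : ι), ∑ l, ε k * ε l * Pool.Agent.Y703.XK.ext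
        (fun e : prs ι => cs (p e.1.1) (p e.1.2)) k l * (d l - d k) =
        ∑ l, ε k * ε l * cs (p k) (p l) * (d l - d k) := by
      intro d k
      refine Finset.sum_congr rfl fun l _ => ?_
      by_cases hlk : l = k
      · rw [hlk, sub_self, mul_zero, mul_zero]
      congr 2
      unfold Pool.Agent.Y703.XK.ext
      by_cases h : (k, l) ∈ prs ι
      · rw [dif_pos h]
      · rw [dif_neg h]
        have h2 : (l, k) ∈ prs ι := by
          unfold prs at h ⊢
          rw [Finset.mem_filter] at h ⊢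
          refine ⟨Finset.mem_univ _, ?_⟩
          rcases lt_trichotomy l k with h1 | h1 | h1
          · exact h1
          · exact absurd h1 hlk
          · exact absurd ⟨Finset.mem_univ _, h1⟩ h
        rw [dif_pos h2]
        exact cs_symm (hpr l) (hpr k)
    rw [hQ]
    unfold GdT Lc
    simp only [e]
  have h5 : (((Fintype.piFinset C).card : ℕ) : ℝ) = ∏ j, ((C j).card : ℝ) := by
    rw [Fintype.card_piFinset]
    push_cast
    rfl
  rw [h4, h5, ← h2]
  exact h3

end la

end Pool.Agent.V11291.EK
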