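import Pool.Agent.V11291.EK.Chr

/-!
# The theorem on twists of order a power of three, with the kernel of the Laplacian

The proof is that of `Pool.Agent.Y715.T.Pf.main`.
-/

set_option autoImplicit false

namespace Pool.Agent.V11291.EK.MK

open WeierstrassCurve Pool.Agent.Y715.T.St Pool.Agent.Y715.T.Pf
open scoped Classical

theorem mainK (k m : ℕ) (hk : 2 ≤ k) (π : Fin m → Eis)
    (hprime : ∀ j, Prime (π j)) (hinj : Function.Injective π)
    (hthree : ∀ j, (3 : Eis) ∣ π j - 1)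
    (hnorm : ∀ j, (3 : ℤ) ^ (k + 1) ∣ nrm (π j) - 1)
    (lam : ∀ j, MulChar (Eis ⧸ Ideal.span {π j}) ℂ)
    (hlam : ∀ j, orderOf (lam j) = 3 ^ k)
    (e : Fin m → ZMod 3)
    (hres : ∀ j (x : Eis) (c : ℕ), π j ∣ x ^ (((nrm (π j)).natAbs - 1) / 3) - ⟨0, 1⟩ ^ c →
      lam j (Ideal.Quotient.mk _ x) ^ 3 ^ (k - 1) = omega ^ (c * (e j).val))
    (hker : ∀ v : Fin m → ZMod 3, (∀ j, ∑ i, Pool.Agent.Y715.T.Sel.aij π e i j * (v i - v j) = 0) →
      ∀ i j, v i = v j)
    (hodd : ¬ (9 : Eis) ∣ ∏ j, π j ^ (e j).val - 1)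
    (ζ : ℂ) (hζ : ζ ^ 3 ^ (k - 1) = omega) :
    (∃ F : ℕ → ℂ → ℂ, (∀ t, ¬ 3 ∣ t → IsLFunction lam t (F t)) ∧
      (∀ t, ¬ 3 ∣ t → ∃ u, ThreeUnit u ∧ F t 1 = Omega * (1 - ζ) ^ (m - 1) * u) ∧
      ∃ u, ThreeUnit u ∧ LA k F 1 = (Omega : ℂ) ^ (2 * 3 ^ (k - 1)) * 3 ^ (m - 1) * u) ∧
    ∀ (i₀ : QBar), i₀ ^ 2 + i₀ + 1 = 0 → ∀ a : GalK i₀ → ZMod (3 ^ k), Corresponds ζ lam a →
      (∃ (T : Pts QBar) (h : (E.baseChange QBar).toAffine.Nonsingular 0 0),
        T = .some 0 0 h ∧ pointsK a = {0, fun _ => T, fun _ => -T}) ∧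
      ∀ (f : GalK i₀ → ZMod (3 ^ k) → Pts QBar) (n : ℕ), IsCocycle a f → LocallyTrivial a f →
        IsCoboundary a (fun σ => (3 ^ n) • f σ) → IsCoboundary a f := by
  have hk0 : k ≠ 0 := by omega
  have hpr : ∀ j, Pool.Agent.Y715.T.Rec.Pr (π j) :=
    fun j => pr_of hk (hprime j) (hthree j) (hnorm j)
  have hnd : ∀ i j, i ≠ j → ¬ π j ∣ π i := fun i j hij h =>
    hij (hinj (Pool.Agent.Y715.T.RecC.eq_of_dvd (hpr i) (hpr j) h)).symm
  have hprim := Pool.Agent.Y715.T.Fin.prim_of (by omega : 1 ≤ k) (hζ.trans omega_eq)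
  have hz1 : 1 - ζ ≠ 0 := sub_ne_zero.2 (hprim.ne_one (Nat.one_lt_pow hk0 (by norm_num))).symm
  refine ⟨?_, ?_⟩
  · obtain ⟨L, ξ, hξ, hL⟩ := Pool.Agent.Y715.T.Om.exists_lat
    have hΩ : Pool.Agent.Y715.T.Om.Om = Omega := rfl
    have hpos := Pool.Agent.Y715.T.Om.Om_pos
    rw [hΩ] at hL hpos
    have hΩ0 : (Omega : ℂ) ≠ 0 := by exact_mod_cast hpos.ne'
    have hex : ∀ t : ℕ, ∃ F : ℂ → ℂ, ¬ 3 ∣ t → (IsLFunction lam t F ∧ F 1 ≠ 0) ∧
      ∀ (Γ : Type) [LinearOrderedCommGroupWithZero Γ] (v : Valuation ℂ Γ), v 3 < 1 →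
        v (F 1 / Omega) = v (1 - ζ) ^ (m - 1) ∧
            v ((starRingEnd ℂ) (F 1) / Omega) = v (1 - ζ) ^ (m - 1) := by
      intro t
      by_cases ht : ¬ 3 ∣ t
      · obtain ⟨F, hF1, hF2⟩ := one_value hk hpr hnd hnorm hker hodd hlam hres hζ ht
        exact ⟨F, fun _ => ⟨hF1, fun Γ _ v hv => hF2 Γ v hv L Omega ξ hξ hL⟩⟩
      · exact ⟨0, fun h => absurd h ht⟩
    choose F hF using hex
    refine ⟨F, fun t ht => (hF t ht).1.1, ?_, ?_⟩
    · intro t ht
      obtain ⟨u, hu, e⟩ := unit_of (x := F t 1 / Omega) (y := (1 - ζ) ^ (m - 1))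
        (div_ne_zero (hF t ht).1.2 hΩ0) (pow_ne_zero _ hz1) (fun Γ _ v hv => by
          rw [((hF t ht).2 Γ v hv).1, map_pow])
      refine ⟨u, hu, ?_⟩
      rw [div_eq_iff hΩ0] at e
      rw [e]
      ring
    · have hval : ∀ (Γ : Type) [LinearOrderedCommGroupWithZero Γ] (v : Valuation ℂ Γ), v 3 < 1 →
          v (LA k F 1 / (Omega : ℂ) ^ (2 * 3 ^ (k - 1))) = v (3 ^ (m - 1)) := by
        intro Γ _ v hv
        have h1 := Pool.Agent.Y715.T.Pv.prod_val hv (by omega : 1 ≤ k) hprim (Ω := (Omega : ℂ))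
          (f := fun t => F t 1) (m := m - 1)
          (fun t ht => ((hF t ht).2 Γ v hv).1)
          (fun t ht => ((hF t ht).2 Γ v hv).2)
        unfold LA
        rw [map_one, map_pow]
        exact h1
      have h2 : (3 : ℂ) ^ (m - 1) ≠ 0 := pow_ne_zero _ three_ne_zero
      have h3 : LA k F 1 / (Omega : ℂ) ^ (2 * 3 ^ (k - 1)) ≠ 0 := by
        refine div_ne_zero ?_ (pow_ne_zero _ hΩ0)
        unfold LA
        refine Finset.prod_ne_zero_iff.2 fun t ht => ?_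
        have ht3 : ¬ 3 ∣ t := by
          rw [Finset.mem_filter] at ht
          omega
        have h4 := (hF t ht3).1.2
        rw [map_one]
        exact mul_ne_zero h4 ((map_ne_zero _).2 h4)
      obtain ⟨u, hu, e⟩ := unit_of h3 h2 hval
      refine ⟨u, hu, ?_⟩
      rw [div_eq_iff (pow_ne_zero _ hΩ0)] at e
      rw [e]
      ring
  · intro i₀ hi a ha
    have hD := dat_of hk hpr hnd hlam hres hζ hi ha
    refine ⟨⟨Pool.Agent.Y715.T.Ell.T0 (Pool.Agent.Y715.T.Df.isE QBar),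
      Pool.Agent.Y715.T.Ell.T0_nons (Pool.Agent.Y715.T.Df.isE QBar), rfl, ?_⟩, ?_⟩
    · apply Set.ext
      intro P
      rw [points_eq hi a P]
      constructor
      · intro hP
        obtain ⟨c, hc⟩ := Pool.Agent.Y715.T.Ot.AK_eq hk0 hk hD hker hodd hP
        rcases Pool.Agent.Y715.T.Df.z3 c with rfl | rfl | rfl
        · left
          rw [hc]
          funext j
          exact Pool.Agent.Y715.T.Df.tt_zero
        · right
          left
          rw [hc]
          funext j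
          exact Pool.Agent.Y715.T.Df.tt_one
        · right
          right
          rw [Set.mem_singleton_iff, hc]
          funext j
          exact Pool.Agent.Y715.T.Df.tt_neg_one
      · rintro (h | h | h)
        · rw [h]
          exact zero_mem _
        · have h1 : P = Pool.Agent.Y715.T.Ar.ct QBar k 1 := by
            rw [h]
            funext j
            exact Pool.Agent.Y715.T.Df.tt_one.symm
          rw [h1]
          exact Pool.Agent.Y715.T.Mw.ct_mem 1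
        · have h1 : P = Pool.Agent.Y715.T.Ar.ct QBar k (-1) := by
            rw [Set.mem_singleton_iff.1 h]
            funext j
            exact Pool.Agent.Y715.T.Df.tt_neg_one.symm
          rw [h1]
          exact Pool.Agent.Y715.T.Mw.ct_mem (-1)
    · intro f n h1 h2 h3
      rw [coboundary_iff hi]
      exact Pool.Agent.Y715.T.Ar.sha_zero hk0 hk hD hker hodd n ((cocycle_iff hi a f).1 h1)
        ((local_iff hi a f).1 h2) ((coboundary_iff hi a _).1 h3)


end Pool.Agent.V11291.EK.MK
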