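import Pool.Agent.V11291.EK.Sig
import Pool.Agent.Y550.XK.NS

/-!
# A fixed number of primes over `ℤ[ω]`: from the tuples to the elements
-/

set_option autoImplicit false
set_option linter.unusedSectionVars false
set_option linter.unusedVariables false

open scoped Classical

namespace Pool.Agent.V11291.EK

open Finset Filter Topology Module
open Pool.Agent.Y692.QS (Ei nr)
open Pool.Agent.Y715.T.Rec (cs)
open Pool.Agent.Y715.T.RecG (Pq)
open Pool.Agent.Y699.E (nrm QB mem_QB PD mem_PD PS PS_prod)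
open Pool.Agent.Y703.XK (Sol Gd Cl SS prs)
open Pool.Agent.Y703.CT (ClsE GoodE)
open Pool.Agent.Y85.XK (sp)
open Pool.Agent.V11291.FK (Dn)

/-! ### tuples and sets -/

section perm

variable {ι α : Type} [Fintype ι] [DecidableEq α]

/-- the numbers of the tuples and of the sets are proportional -/
theorem card_perm (T : Finset (ι → α)) (hinj : ∀ p ∈ T, Function.Injective p)
    (hperm : ∀ p ∈ T, ∀ σ : Equiv.Perm ι, p ∘ σ ∈ T) (Q : Finset α → Prop) :
    (T.filter fun p => Q (univ.image p)).card =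
      (Fintype.card ι).factorial * ((T.image fun p => univ.image p).filter Q).card := by
  have hfib : ∀ S ∈ (T.image fun p => univ.image p).filter Q,
      ((T.filter fun p => Q (univ.image p)).filter fun p => univ.image p = S).card =
        (Fintype.card ι).factorial := by
    intro S hS
    rw [mem_filter, mem_image] at hS
    obtain ⟨⟨p₀, h₀, rfl⟩, hQ⟩ := hS
    rw [← Fintype.card_perm, ← Finset.card_univ]
    symm
    refine Finset.card_bij (fun σ _ => p₀ ∘ σ) ?_ ?_ ?_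
    · intro σ _
      have e : univ.image (p₀ ∘ σ) = univ.image p₀ := by
        ext q
        simp only [mem_image, mem_univ, true_and, Function.comp_apply]
        constructor
        · rintro ⟨i, hi⟩
          exact ⟨_, hi⟩
        · rintro ⟨i, hi⟩
          exact ⟨σ.symm i, by rw [Equiv.apply_symm_apply]; exact hi⟩
      rw [mem_filter, mem_filter, e]
      exact ⟨⟨hperm p₀ h₀ σ, hQ⟩, rfl⟩
    · intro σ _ τ _ h
      refine Equiv.ext fun i => ?_
      exact hinj p₀ h₀ (congrFun h i)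
    · intro p hp
      rw [mem_filter, mem_filter] at hp
      obtain ⟨⟨hp, -⟩, himg⟩ := hp
      have hs : ∀ i, ∃ j, p₀ j = p i := by
        intro i
        have : p i ∈ univ.image p₀ := by
          rw [← himg]
          exact mem_image_of_mem _ (mem_univ i)
        rw [mem_image] at this
        obtain ⟨j, -, hj⟩ := this
        exact ⟨j, hj⟩
      choose σ hσ using hs
      have hσi : Function.Injective σ := by
        intro i j hij
        apply hinj p hp
        rw [← hσ i, ← hσ j, hij]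
      refine ⟨Equiv.ofBijective σ (Finite.injective_iff_bijective.1 hσi), mem_univ _, ?_⟩
      funext i
      exact hσ i
  rw [Finset.card_eq_sum_card_fiberwise (f := fun p => univ.image p)
    (t := (T.image fun p => univ.image p).filter Q) (by
      intro p hp
      rw [mem_coe, mem_filter] at hp
      rw [mem_coe, mem_filter]
      exact ⟨Finset.mem_image_of_mem _ hp.1, hp.2⟩), Finset.sum_congr rfl hfib,
    Finset.sum_const, smul_eq_mul, mul_comm]

end perm

section num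

variable {ι : Type} [Fintype ι] [LinearOrder ι]

/-- the primary primes of degree one with the property `A` -/
def Bs (A : Ei → Prop) (π : Ei) : Prop := P1 π ∧ A π

/-- the tuples with the condition modulo `9` -/
noncomputable def TA (ι : Type) [Fintype ι] [LinearOrder ι] (A : Ei → Prop) (X : ℕ) :
    Finset (ι → Ei) :=
  (TupE (fun _ => Bs A) X).filter fun p => (∏ i, nrm (p i)) % 9 ≠ 1

theorem mem_TA {A : Ei → Prop} {X : ℕ} {p : ι → Ei} : p ∈ TA ι A X ↔
    ((∀ i, Bs A (p i)) ∧ Function.Injective (fun i => nrm (p i)) ∧ ∏ i, nrm (p i) ≤ X) ∧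
      (∏ i, nrm (p i)) % 9 ≠ 1 := by
  unfold TA
  rw [mem_filter, mem_TupE fun _ π h => h.1]

/-- the residues are prescribed -/
def PR (A : Ei → Prop) (ρ : ι → Fin 9) (i : ι) (π : Ei) : Prop :=
  Bs A π ∧ nrm π % 9 = (ρ i : ℕ) ∧ (∏ i, (ρ i : ℕ)) % 9 ≠ 1

theorem sum_parts (i₀ : ι) (A : Ei → Prop) (X : ℕ) (Q : (ι → Ei) → Prop) [DecidablePred Q] :
    ∑ ρ : ι → Fin 9, ((TupE (PR A ρ) X).filter Q).card = ((TA ι A X).filter Q).card := by
  rw [Finset.card_eq_sum_card_fiberwise (s := (TA ι A X).filter Q)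
    (f := fun (p : ι → Ei) (i : ι) => (⟨nrm (p i) % 9, Nat.mod_lt _ (by norm_num)⟩ : Fin 9))
    (t := univ) fun p _ => mem_coe.2 (mem_univ _)]
  refine Finset.sum_congr rfl fun ρ _ => ?_
  congr 1
  ext p
  rw [mem_filter, mem_TupE fun i π h => h.1.1, mem_filter, mem_filter, mem_TA]
  have key : (∀ i, nrm (p i) % 9 = (ρ i : ℕ)) →
      (∏ i, nrm (p i)) % 9 = (∏ i, (ρ i : ℕ)) % 9 := by
    intro h
    rw [Finset.prod_nat_mod]
    congr 1
    exact Finset.prod_congr rfl fun i _ => h i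
  constructor
  · rintro ⟨⟨h1, h2, h3⟩, h4⟩
    refine ⟨⟨⟨⟨fun i => (h1 i).1, h2, h3⟩, ?_⟩, h4⟩, ?_⟩
    · rw [key fun i => (h1 i).2.1]
      exact (h1 i₀).2.2
    · funext i
      exact Fin.ext (h1 i).2.1
  · rintro ⟨⟨⟨⟨h1, h2, h3⟩, h4⟩, h5⟩, h6⟩
    have h7 : ∀ i, nrm (p i) % 9 = (ρ i : ℕ) := fun i => congrArg Fin.val (congrFun h6 i)
    rw [key h7] at h4
    exact ⟨⟨fun i => ⟨h1 i, h7 i, h4⟩, h2, h3⟩, h5⟩

/-- the law for the tuples -/
theorem TA_law {A : Ei → Prop} {j : ℕ} (hj : Fintype.card ι = j + 2) (ks : ι) {ρ : ι → Fin 9}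
    (hρ : (∏ i, (ρ i : ℕ)) % 9 ≠ 1)
    (hD : ∀ i, Dn fun p => ∃ π, (Bs A π ∧ nrm π % 9 = (ρ i : ℕ)) ∧ nrm π = p) :
    Tendsto (fun X : ℕ => (((TA ι A X).filter fun p => GdT (fun _ => 1) p).card : ℝ) /
      ((TA ι A X).card : ℝ)) atTop (𝓝 (sp (Fintype.card ι - 1))) := by
  have h := law_sig ks hj (P := fun ρ : ι → Fin 9 => PR A ρ) (fun s i π h => h.1.1)
    (ε := fun _ _ => 1) (fun _ _ => one_ne_zero) ρ (fun i => by
      obtain ⟨δ, Y₀, hδ, h⟩ := hD i
      refine ⟨δ, Y₀, hδ, fun Y hY => (h Y hY).trans ?_⟩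
      refine le_of_eq ?_
      congr 2
      ext p
      simp only [mem_filter]
      refine and_congr_right fun _ => ⟨?_, ?_⟩
      · rintro ⟨π, ⟨h1, h2⟩, h3⟩
        exact ⟨π, ⟨h1, h2, hρ⟩, h3⟩
      · rintro ⟨π, ⟨h1, h2, -⟩, h3⟩
        exact ⟨π, ⟨h1, h2⟩, h3⟩)
  refine h.congr fun X => ?_
  rw [sum_parts ks A X]
  have h2 := sum_parts (ι := ι) ks A X fun _ => True
  simp only [Finset.filter_true] at h2
  rw [h2]

/-- the size of the family of the tuples -/
theorem TA_low {A : Ei → Prop} (ks : ι) {ρ : ι → Fin 9}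
    (hρ : (∏ i, (ρ i : ℕ)) % 9 ≠ 1)
    (hD : ∀ i, Dn fun p => ∃ π, (Bs A π ∧ nrm π % 9 = (ρ i : ℕ)) ∧ nrm π = p) :
    LowG (Fintype.card ι) (TA ι A) := by
  obtain ⟨c, X₀, hc, h⟩ := lowE (P := fun i π => Bs A π ∧ nrm π % 9 = (ρ i : ℕ))
    (fun i π h => h.1.1) hD ks
  refine ⟨c, X₀, hc, fun X hX => (h X hX).trans ?_⟩
  have h1 : (TupE (fun i π => Bs A π ∧ nrm π % 9 = (ρ i : ℕ)) X) ⊆ TA ι A X := by
    intro p hp
    rw [mem_TupE fun i π h => h.1.1] at hp
    rw [mem_TA]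
    refine ⟨⟨fun i => (hp.1 i).1, hp.2⟩, ?_⟩
    rw [Finset.prod_nat_mod, Finset.prod_congr rfl fun i _ => (hp.1 i).2]
    exact hρ
  exact_mod_cast Finset.card_le_card h1

theorem inj_of_TA {A : Ei → Prop} {X : ℕ} {p : ι → Ei} (h : p ∈ TA ι A X) :
    Function.Injective p := by
  rw [mem_TA] at h
  intro i j hij
  apply h.1.2.1
  simp only
  rw [hij]

theorem perm_TA {A : Ei → Prop} {X : ℕ} {p : ι → Ei} (h : p ∈ TA ι A X) (σ : Equiv.Perm ι) :
    p ∘ σ ∈ TA ι A X := by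
  rw [mem_TA] at h ⊢
  obtain ⟨⟨h1, h2, h3⟩, h4⟩ := h
  have e : ∏ i, nrm ((p ∘ σ) i) = ∏ i, nrm (p i) :=
    Equiv.prod_comp σ fun i => nrm (p i)
  rw [e]
  exact ⟨⟨fun i => h1 _, h2.comp σ.injective, h3⟩, h4⟩

/-- the conditions on the sets of primes -/
def QA (A : Ei → Prop) (m : ℕ) (S : Finset Ei) : Prop :=
  (∀ π ∈ S, A π) ∧ Set.InjOn nrm (S : Set Ei) ∧ (∀ π ∈ S, (nrm π).Prime) ∧ S.card = m

theorem image_TA (A : Ei → Prop) (X : ℕ) :
    ((TA ι A X).image fun p => univ.image p) = (SS X).filter (QA A (Fintype.card ι)) := by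
  ext S
  rw [mem_image, mem_filter]
  unfold SS
  rw [mem_filter, mem_powerset]
  constructor
  · rintro ⟨p, hp, rfl⟩
    have hinj := inj_of_TA hp
    rw [mem_TA] at hp
    obtain ⟨⟨h1, h2, h3⟩, h4⟩ := hp
    have e : ∏ π ∈ univ.image p, nrm π = ∏ i, nrm (p i) :=
      Finset.prod_image fun a _ b _ h => hinj h
    rw [e]
    refine ⟨⟨fun π hπ => ?_, ⟨fun π hπ => ?_, by rw [e]; exact h4⟩, h3⟩, ⟨fun π hπ => ?_, ?_,
      fun π hπ => ?_, ?_⟩⟩
    · rw [mem_image] at hπ
      obtain ⟨i, -, rfl⟩ := hπ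
      rw [mem_QB]
      refine ⟨le_trans ?_ h3, (h1 i).1.1⟩
      exact Nat.le_of_dvd (Finset.prod_pos fun j _ => (h1 j).1.2.pos)
        (Finset.dvd_prod_of_mem (fun i => nrm (p i)) (mem_univ i))
    · rw [mem_image] at hπ
      obtain ⟨i, -, rfl⟩ := hπ
      exact (h1 i).1.1
    · rw [mem_image] at hπ
      obtain ⟨i, -, rfl⟩ := hπ
      exact (h1 i).2
    · intro π hπ π' hπ' h
      rw [mem_coe, mem_image] at hπ hπ'
      obtain ⟨i, -, rfl⟩ := hπ
      obtain ⟨i', -, rfl⟩ := hπ'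
      rw [h2 h]
    · rw [mem_image] at hπ
      obtain ⟨i, -, rfl⟩ := hπ
      exact (h1 i).1.2
    · rw [Finset.card_image_of_injective _ hinj, Finset.card_univ]
  · rintro ⟨⟨h1, ⟨h2, h3⟩, h4⟩, ⟨h5, h6, h7, h8⟩⟩
    have hc : Fintype.card ι = Fintype.card S := by rw [Fintype.card_coe, h8]
    let e : ι ≃ S := Fintype.equivOfCardEq hc
    have himg : univ.image (fun i => ((e i : S) : Ei)) = S := by
      ext π
      simp only [mem_image, mem_univ, true_and]
      constructor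
      · rintro ⟨i, rfl⟩
        exact (e i).2
      · intro h
        exact ⟨e.symm ⟨π, h⟩, by rw [Equiv.apply_symm_apply]⟩
    have hinj : Function.Injective fun i => ((e i : S) : Ei) :=
      Subtype.coe_injective.comp e.injective
    have ep : ∏ i, nrm ((e i : S) : Ei) = ∏ π ∈ S, nrm π := by
      conv_rhs => rw [← himg]
      rw [Finset.prod_image fun a _ b _ h => hinj h]
    refine ⟨fun i => ((e i : S) : Ei), ?_, himg⟩
    rw [mem_TA, ep]
    refine ⟨⟨fun i => ⟨⟨h2 _ (e i).2, h7 _ (e i).2⟩, h5 _ (e i).2⟩, ?_, h4⟩, h3⟩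
    intro i i' h
    exact hinj (h6 (e i).2 (e i').2 h)

theorem gdT_iff {p : ι → Ei} (hp : Function.Injective p) :
    GdT (fun _ => 1) p ↔ Gd (univ.image p) := by
  unfold GdT Lc Gd Sol
  simp only [one_mul]
  constructor
  · intro h v hv π hπ ρ hρ
    rw [mem_image] at hπ hρ
    obtain ⟨i, -, rfl⟩ := hπ
    obtain ⟨j, -, rfl⟩ := hρ
    refine h (fun i => v (p i)) (fun k => ?_) i j
    have h1 := hv (p k) (mem_image_of_mem _ (mem_univ k))
    rw [Finset.sum_image fun a _ b _ h => hp h] at h1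
    exact h1
  · intro h d hd i j
    obtain ⟨v, hv⟩ : ∃ v : Ei → ZMod 3, ∀ i, v (p i) = d i := by
      refine ⟨fun π => if h : ∃ i, p i = π then d h.choose else 0, fun i => ?_⟩
      have h1 : ∃ i', p i' = p i := ⟨i, rfl⟩
      simp only
      rw [dif_pos h1]
      exact congrArg d (hp h1.choose_spec)
    have h2 := h v (fun π hπ => by
      rw [mem_image] at hπ
      obtain ⟨k, -, rfl⟩ := hπ
      rw [Finset.sum_image fun a _ b _ h => hp h]
      simp only [hv]
      exact hd k) (p i) (mem_image_of_mem _ (mem_univ i)) (p j) (mem_image_of_mem _ (mem_univ j))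
    rw [hv, hv] at h2
    exact h2

/-- the family of the elements -/
def FamE (A : Ei → Prop) (m : ℕ) (D : Ei) : Prop := ClsE D ∧ QA A m (PD D)

theorem card_FamE (A : Ei → Prop) (X : ℕ) :
    (TA ι A X).card = (Fintype.card ι).factorial *
      {D : Ei | nr D ≤ X ∧ FamE A (Fintype.card ι) D}.ncard := by
  have h := card_perm (TA ι A X) (fun p hp => inj_of_TA hp) (fun p hp σ => perm_TA hp σ)
    fun _ => True
  rw [Finset.filter_true, Finset.filter_true, image_TA] at h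
  rw [h, ← Pool.Agent.Y550.XK.NS.card_eq]
  rfl

theorem card_FamE_good (A : Ei → Prop) (X : ℕ) :
    ((TA ι A X).filter fun p => GdT (fun _ => 1) p).card = (Fintype.card ι).factorial *
      {D : Ei | nr D ≤ X ∧ (FamE A (Fintype.card ι) D ∧ GoodE D)}.ncard := by
  have h := card_perm (TA ι A X) (fun p hp => inj_of_TA hp) (fun p hp σ => perm_TA hp σ) Gd
  have e1 : ((TA ι A X).filter fun p => GdT (fun _ => 1) p) =
      (TA ι A X).filter fun p => Gd (univ.image p) :=
    Finset.filter_congr fun p hp => gdT_iff (inj_of_TA hp)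
  rw [image_TA, Finset.filter_filter] at h
  rw [e1, h]
  congr 1
  have h2 := Pool.Agent.Y550.XK.NS.card_eq X fun S => QA A (Fintype.card ι) S ∧ Gd S
  refine Eq.trans ?_ (h2.symm.trans ?_)
  · congr 1
    ext S
    simp only [mem_filter]
  congr 1
  ext D
  simp only [Set.mem_ofPred_eq]
  unfold FamE
  constructor
  · rintro ⟨h1, h2, h3, h4⟩
    refine ⟨h1, ⟨h2, h3⟩, h2.1, h2.2.1, h2.2.2, ?_⟩
    rw [Pool.Agent.Y550.XK.NS.ppr_eq (PS.ne ⟨h2.1, h2.2.1⟩)]
    exact h4
  · rintro ⟨h1, ⟨h2, h3⟩, h4, h5, h6, h7⟩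
    refine ⟨h1, h2, h3, ?_⟩
    rw [Pool.Agent.Y550.XK.NS.ppr_eq (PS.ne ⟨h2.1, h2.2.1⟩)] at h7
    exact h7

end num

end Pool.Agent.V11291.EK
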