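import Pool.Agent.V11291.EK.Num
import Pool.Agent.Y696.XL.Up
import Pool.Agent.V11291.FK.Cub3

/-!
# A fixed number of primes over `ℤ[ω]`: the law for the elements of the ring of integers
-/

set_option autoImplicit false
set_option linter.unusedSectionVars false
set_option linter.unusedVariables false

open scoped Classical

namespace Pool.Agent.V11291.EK

open Finset Filter Topology Module NumberField
open Pool.Agent.Y692.QS (Ei nr)
open Pool.Agent.Y715.T.RecG (Pq)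
open Pool.Agent.Y699.E (nrm nrm_cast nrm_mul nrm_natCast nrm_one QB mem_QB PD mem_PD PS PS_prod
  pq_nrm_two pq_rat exists_PP dvd_nrm nrm_one_iff nrm_zero_iff)
open Pool.Agent.Y550.XK.NS (nrm_prod)
open Pool.Agent.Y703.CT (ClsE GoodE)
open Pool.Agent.Y696.CTK (ClsK Tri Law3)
open Pool.Agent.Y85.XK (sp)
open Pool.Agent.V11291.FK (Dn Tup mem_Tup AA mem_AA card_AA exists_MH MH LL card_le_image one_le_LL)

/-! ### squarefree norms -/

theorem sqf_prod_primes (s : Finset ℕ) (hs : ∀ p ∈ s, p.Prime) : Squarefree (∏ p ∈ s, p) := by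
  induction s using Finset.induction_on with
  | empty =>
    rw [Finset.prod_empty]
    exact squarefree_one
  | insert a s ha ih =>
    rw [Finset.prod_insert ha, Nat.squarefree_mul]
    · exact ⟨(hs a (Finset.mem_insert_self a s)).squarefree,
        ih fun p hp => hs p (Finset.mem_insert_of_mem hp)⟩
    · refine Nat.Coprime.prod_right fun p hp => ?_
      rw [Nat.coprime_primes (hs a (Finset.mem_insert_self a s))
        (hs p (Finset.mem_insert_of_mem hp))]
      rintro rfl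
      exact ha hp

/-- the norm is squarefree if and only if the prime factors have degree one and different norms -/
theorem sqf_iff {D : Ei} (hD : PS D) : Squarefree (nrm D) ↔
    (∀ π ∈ PD D, (nrm π).Prime) ∧ Set.InjOn nrm (PD D : Set Ei) := by
  have h1 : ∏ π ∈ PD D, nrm π = nrm D := by rw [← nrm_prod, hD.prod]
  constructor
  · intro h
    have h2 : ∀ π ∈ PD D, Squarefree (nrm π) := by
      intro π hπ
      refine h.squarefree_of_dvd ?_
      rw [← h1]
      exact Finset.dvd_prod_of_mem nrm hπ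
    have h3 : ∀ π ∈ PD D, (nrm π).Prime := by
      intro π hπ
      have hq := ((mem_PD hD.ne).1 hπ).1
      obtain ⟨hp, hd, -, -⟩ := pq_rat hq
      have h4 : nrm π ∣ (nrm π).minFac ^ 2 := by
        obtain ⟨c, hc⟩ := hd
        rw [← nrm_natCast, hc, nrm_mul]
        exact dvd_mul_right _ _
      obtain ⟨i, hi, hi2⟩ := (Nat.dvd_prime_pow hp).1 h4
      have h5 := h2 π hπ
      rw [hi2] at h5
      have h6 : i ≠ 0 := by
        rintro rfl
        have := pq_nrm_two hq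
        rw [hi2, pow_zero] at this
        omega
      rcases Nat.lt_or_ge i 2 with h7 | h7
      · have h8 : i = 1 := by omega
        rw [h8, pow_one] at hi2
        rw [hi2]
        exact hp
      · exfalso
        have h8 : i = 2 := by omega
        rw [h8, pow_two] at h5
        have h9 := h5 _ dvd_rfl
        exact hp.not_isUnit h9
    refine ⟨h3, ?_⟩
    intro π hπ ρ hρ he
    by_contra hne
    have h4 : nrm π * nrm ρ ∣ nrm D := by
      rw [← h1, ← Finset.mul_prod_erase _ _ (Finset.mem_coe.1 hπ)]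
      refine mul_dvd_mul_left _ (Finset.dvd_prod_of_mem nrm ?_)
      exact Finset.mem_erase.2 ⟨Ne.symm hne, Finset.mem_coe.1 hρ⟩
    rw [← he] at h4
    exact (h3 π (Finset.mem_coe.1 hπ)).not_isUnit (h _ h4)
  · rintro ⟨h2, h3⟩
    have h4 : ∏ p ∈ (PD D).image nrm, p = nrm D := by
      rw [Finset.prod_image fun a ha b hb h => h3 ha hb h]
      exact h1
    rw [← h4]
    refine sqf_prod_primes _ fun p hp => ?_
    rw [mem_image] at hp
    obtain ⟨π, hπ, rfl⟩ := hp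
    exact h2 π hπ

theorem card_factors {D : Ei} (hD : PS D) (h : Squarefree (nrm D)) :
    (nrm D).primeFactors.card = (PD D).card := by
  obtain ⟨h2, h3⟩ := (sqf_iff hD).1 h
  have h1 : ∏ π ∈ PD D, nrm π = nrm D := by rw [← nrm_prod, hD.prod]
  have h4 : ∏ p ∈ (PD D).image nrm, p = nrm D := by
    rw [Finset.prod_image fun a ha b hb h => h3 ha hb h]
    exact h1
  rw [← h4, Nat.primeFactors_prod fun p hp => by
    rw [mem_image] at hp
    obtain ⟨π, hπ, rfl⟩ := hp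
    exact h2 π hπ]
  exact Finset.card_image_of_injOn h3

section fam

variable {K : Type} [Field K] [NumberField K]

/-- the family: `D` has exactly `m` prime factors, of different norms and of degree one, all in `S` -/
def FamK (S : Set (Ideal (𝓞 K))) (m : ℕ) (D : 𝓞 K) : Prop :=
  ClsK D ∧ Squarefree (Algebra.norm ℤ D) ∧ (Algebra.norm ℤ D).natAbs.primeFactors.card = m ∧
    ∀ P : Ideal (𝓞 K), P.IsPrime → D ∈ P → P ∈ S

variable (j : Ei ≃+* 𝓞 K)

theorem prime_span {π : Ei} (h : Pq π) : (Ideal.span {j π}).IsPrime ∧ Ideal.span {j π} ≠ ⊥ := by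
  have h1 : Prime (j π) := (MulEquiv.prime_iff (j : Ei ≃* 𝓞 K)).2 h.prime
  exact ⟨(Ideal.span_singleton_prime h1.ne_zero).2 h1, by
    rw [Ne, Ideal.span_singleton_eq_bot]
    exact h1.ne_zero⟩

theorem ideals_iff (S : Set (Ideal (𝓞 K))) {D : Ei} (hD : PS D) :
    (∀ P : Ideal (𝓞 K), P.IsPrime → j D ∈ P → P ∈ S) ↔
      ∀ π ∈ PD D, Ideal.span {j π} ∈ S := by
  constructor
  · intro h π hπ
    obtain ⟨h1, h2⟩ := (mem_PD hD.ne).1 hπ
    refine h _ (prime_span j h1).1 ?_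
    rw [Ideal.mem_span_singleton]
    exact map_dvd j h2
  · intro h P hP hDP
    have h1 : j D = ∏ π ∈ PD D, j π := by
      conv_lhs => rw [← hD.prod]
      exact map_prod j _ _
    rw [h1] at hDP
    obtain ⟨π, hπ, hmem⟩ := (hP.prod_mem_iff).1 hDP
    have h2 := prime_span j ((mem_PD hD.ne).1 hπ).1
    have h3 : (Ideal.span {j π}).IsMaximal := h2.1.isMaximal h2.2
    have h4 : Ideal.span {j π} ≤ P := by
      rw [Ideal.span_singleton_le_iff_mem]
      exact hmem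
    rw [← h3.eq_of_le hP.ne_top h4]
    exact h π hπ

theorem fam_iff (hj : ∀ z : Ei, Algebra.norm ℤ (j z) = nr z) (S : Set (Ideal (𝓞 K))) (m : ℕ)
    (D : Ei) : FamK S m (j D) ↔ FamE (fun π => Ideal.span {j π} ∈ S) m D := by
  unfold FamK FamE QA
  rw [Pool.Agent.Y696.XK.cls_iff j hj]
  by_cases hc : ClsE D
  swap
  · constructor
    · exact fun h => absurd h.1 hc
    · exact fun h => absurd h.1 hc
  have hD : PS D := ⟨hc.1, hc.2.1⟩
  rw [ideals_iff j S hD, hj, ← nrm_cast, Int.natAbs_natCast, Int.squarefree_natCast]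
  constructor
  · rintro ⟨h1, h2, h3, h4⟩
    obtain ⟨h5, h6⟩ := (sqf_iff hD).1 h2
    exact ⟨h1, h4, h6, h5, by rw [← card_factors hD h2]; exact h3⟩
  · rintro ⟨h1, h4, h6, h5, h3⟩
    have h2 := (sqf_iff hD).2 ⟨h5, h6⟩
    exact ⟨h1, h2, by rw [card_factors hD h2]; exact h3, h4⟩

/-- the primary generator of a prime ideal of degree one -/
theorem gen_deg1 (hj : ∀ z : Ei, Algebra.norm ℤ (j z) = nr z) {P : Ideal (𝓞 K)} {p : ℕ}
    (hp : p.Prime) (hp3 : p % 3 = 1) (hP : Ideal.absNorm P = p) :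
    ∃ π : Ei, P1 π ∧ nrm π = p ∧ Ideal.span {j π} = P := by
  have := Pool.Agent.Y455.CTK.pid_of j
  obtain ⟨y, hy⟩ := (IsPrincipalIdealRing.principal P).principal
  obtain ⟨ρ, rfl⟩ := j.surjective y
  have hy' : P = Ideal.span {j ρ} := hy
  have h1 : nrm ρ = p := by
    rw [hy', Ideal.absNorm_span_singleton, hj, ← nrm_cast, Int.natAbs_natCast] at hP
    exact hP
  have hPp : P.IsPrime := Ideal.isPrime_of_irreducible_absNorm (by
    rw [hP]
    exact hp)
  have hρ0 : ρ ≠ 0 := by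
    rintro rfl
    rw [nrm_zero_iff.2 rfl] at h1
    exact hp.ne_zero h1.symm
  have hρ : Prime ρ := by
    rw [hy', Ideal.span_singleton_prime (by
      rw [Ne, map_eq_zero_iff j j.injective]
      exact hρ0)] at hPp
    exact (MulEquiv.prime_iff (j : Ei ≃* 𝓞 K)).1 hPp
  have h3 : ¬ ρ ∣ 3 := by
    rintro ⟨c, hc⟩
    have h4 : nrm (3 : Ei) = nrm ρ * nrm c := by rw [← nrm_mul, ← hc]
    have h5 : nrm (3 : Ei) = 9 := by decide
    rw [h5, h1] at h4
    have h6 : p ∣ 3 ^ 2 := ⟨nrm c, h4⟩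
    have h7 := (Nat.prime_dvd_prime_iff_eq hp Nat.prime_three).1 (hp.dvd_of_dvd_pow h6)
    omega
  obtain ⟨π, hπ, hass⟩ := exists_PP hρ h3
  have h4 : nrm π = p := by
    obtain ⟨u, hu⟩ := hass
    rw [← h1, ← hu, nrm_mul, nrm_one_iff.2 u.isUnit, mul_one]
  refine ⟨π, ⟨hπ, by rw [h4]; exact hp⟩, h4, ?_⟩
  rw [hy', Ideal.span_singleton_eq_span_singleton]
  exact hass.map j

/-- the condition on the set of primes: `m` degree one primes of `S` can be taken with norms in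
residue classes `≡ 1` modulo `3`, with many primes of `S` each, and with a product `≢ 1` modulo `9` -/
def Rich (S : Set (Ideal (𝓞 K))) (m : ℕ) : Prop :=
  ∃ r : Fin m → ℕ, (∏ i, r i) % 9 ≠ 1 ∧
    ∀ i, r i % 3 = 1 ∧ Dn fun p => p.Prime ∧ p % 9 = r i ∧ ∃ P ∈ S, Ideal.absNorm P = p

theorem rich_data (hj : ∀ z : Ei, Algebra.norm ℤ (j z) = nr z) {S : Set (Ideal (𝓞 K))} {m : ℕ}
    (h : Rich S m) : ∃ ρ : Fin m → Fin 9, (∏ i, (ρ i : ℕ)) % 9 ≠ 1 ∧
      ∀ i, Dn fun p => ∃ π, (Bs (fun π => Ideal.span {j π} ∈ S) π ∧ nrm π % 9 = (ρ i : ℕ)) ∧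
        nrm π = p := by
  obtain ⟨r, h1, h2⟩ := h
  refine ⟨fun i => ⟨r i % 9, Nat.mod_lt _ (by norm_num)⟩, ?_, fun i => ?_⟩
  · simp only
    rw [← Finset.prod_nat_mod]
    exact h1
  · obtain ⟨hr, δ, Y₀, hδ, h3⟩ := h2 i
    refine ⟨δ, Y₀, hδ, fun Y hY => (h3 Y hY).trans ?_⟩
    have h4 : ((range (Y + 1)).filter fun p => p.Prime ∧ p % 9 = r i ∧ ∃ P ∈ S,
        Ideal.absNorm P = p) ⊆ (range (Y + 1)).filter fun p =>
          ∃ π, (Bs (fun π => Ideal.span {j π} ∈ S) π ∧ nrm π % 9 = r i % 9) ∧ nrm π = p := by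
      intro p hp
      rw [mem_filter] at hp ⊢
      obtain ⟨hp1, hp2, hp3, P, hP, hPn⟩ := hp
      obtain ⟨π, h5, h6, h7⟩ := gen_deg1 j hj hp2 (by omega) hPn
      refine ⟨hp1, π, ⟨⟨h5, ?_⟩, ?_⟩, h6⟩
      · show Ideal.span {j π} ∈ S
        rw [h7]
        exact hP
      · rw [h6]
        omega
    have h5 : (((range (Y + 1)).filter fun p => p.Prime ∧ p % 9 = r i ∧ ∃ P ∈ S,
        Ideal.absNorm P = p).card : ℝ) ≤ (((range (Y + 1)).filter fun p =>
          ∃ π, (Bs (fun π => Ideal.span {j π} ∈ S) π ∧ nrm π % 9 = r i % 9) ∧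
            nrm π = p).card : ℝ) := by
      exact_mod_cast Finset.card_le_card h4
    refine le_trans (le_of_eq ?_) h5
    congr 2
    ext p
    simp only [mem_filter]

/-- the upper bound of the number of the tuples -/
theorem TA_up {ι : Type} [Fintype ι] [LinearOrder ι] {n : ℕ} (hn : Fintype.card ι = n + 1)
    (A : Ei → Prop) : ∃ (C : ℝ) (X₀ : ℕ), 0 < C ∧ ∀ X : ℕ, X₀ ≤ X →
      ((TA ι A X).card : ℝ) ≤ C * (X * Real.log (Real.log X) ^ n / Real.log X) := by
  obtain ⟨M, hM⟩ := exists_MH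
  obtain ⟨C₁, hC₁, hAA⟩ := card_AA hM n
  have t3 : Tendsto (fun X : ℕ => Real.log (Real.log (X : ℝ))) atTop atTop :=
    Real.tendsto_log_atTop.comp (Real.tendsto_log_atTop.comp tendsto_natCast_atTop_atTop)
  obtain ⟨X₀, hX₀⟩ := eventually_atTop.1 ((eventually_ge_atTop 3).and
    (t3.eventually_ge_atTop (max 1 M)))
  have hc0 : 0 < Fintype.card ι := by omega
  have hc0' : (0 : ℝ) < (Fintype.card ι : ℝ) := by exact_mod_cast hc0
  refine ⟨2 ^ Fintype.card ι * (Fintype.card ι : ℝ) ^ Fintype.card ι * (C₁ * 2 ^ n), X₀,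
    by positivity, fun X hX => ?_⟩
  obtain ⟨h3, hll⟩ := hX₀ X hX
  have hX1 : (1 : ℝ) < X := by exact_mod_cast (by omega : 1 < X)
  have hl : 0 < Real.log X := Real.log_pos hX1
  have h1 : (TA ι A X).card ≤ 2 ^ Fintype.card ι *
      (Tup (fun (_ : ι) (p : ℕ) => p.Prime) X).card := by
    refine card_le_norms _ (fun p hp i => ?_) _ fun p hp => ?_
    · rw [mem_TA] at hp
      exact (hp.1.1 i).1
    · rw [mem_TA] at hp
      rw [mem_Tup fun i p h => h]
      exact ⟨fun i => (hp.1.1 i).1.2, hp.1.2⟩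
  have h2 : (Tup (fun (_ : ι) (p : ℕ) => p.Prime) X).card ≤
      Fintype.card ι ^ Fintype.card ι * (AA (n + 1) X).card := by
    refine card_le_image _ (fun p hp => ?_) _ fun p hp => ?_
    · rw [mem_Tup fun i p h => h] at hp
      exact hp.2.1
    · rw [mem_Tup fun i p h => h] at hp
      rw [mem_AA]
      refine ⟨fun q hq => ?_, ?_, ?_⟩
      · rw [mem_image] at hq
        obtain ⟨i, -, rfl⟩ := hq
        exact hp.1 i
      · rw [Finset.card_image_of_injective _ hp.2.1, Finset.card_univ, hn]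
      · rw [Finset.prod_image fun a _ b _ h => hp.2.1 h]
        exact hp.2.2
  have h4 : ((TA ι A X).card : ℝ) ≤ 2 ^ Fintype.card ι *
      ((Fintype.card ι : ℝ) ^ Fintype.card ι * ((AA (n + 1) X).card : ℝ)) := by
    have : (TA ι A X).card ≤ 2 ^ Fintype.card ι *
      (Fintype.card ι ^ Fintype.card ι * (AA (n + 1) X).card) :=
      h1.trans (Nat.mul_le_mul_left _ h2)
    exact_mod_cast this
  have h5 := hAA X (by omega)
  have h6 : LL M X ≤ 2 * Real.log (Real.log X) := by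
    unfold LL
    have := (le_max_right 1 M).trans hll
    linarith
  have h7 : 0 ≤ LL M X := by linarith [one_le_LL hM.1 (show 2 ≤ X by omega)]
  have h8 : LL M X ^ n ≤ (2 * Real.log (Real.log X)) ^ n := pow_le_pow_left₀ h7 h6 n
  have h9 : ((AA (n + 1) X).card : ℝ) ≤ C₁ * 2 ^ n * (X * Real.log (Real.log X) ^ n / Real.log X) := by
    refine h5.trans ?_
    calc C₁ * (X * LL M X ^ n / Real.log X) ≤
        C₁ * (X * (2 * Real.log (Real.log X)) ^ n / Real.log X) := by gcongr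
      _ = _ := by
          rw [mul_pow]
          ring
  calc ((TA ι A X).card : ℝ) ≤ 2 ^ Fintype.card ι *
      ((Fintype.card ι : ℝ) ^ Fintype.card ι * ((AA (n + 1) X).card : ℝ)) := h4
    _ ≤ 2 ^ Fintype.card ι * ((Fintype.card ι : ℝ) ^ Fintype.card ι *
        (C₁ * 2 ^ n * (X * Real.log (Real.log X) ^ n / Real.log X))) := by gcongr
    _ = _ := by ring

/-- one index: every tuple is good -/
theorem gdT_one {ι : Type} [Fintype ι] [LinearOrder ι] (h : Fintype.card ι = 1) (ε : ι → ZMod 3)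
    (p : ι → Ei) : GdT ε p := by
  have : Subsingleton ι := Fintype.card_le_one_iff_subsingleton.1 h.le
  intro d _ k l
  rw [Subsingleton.elim k l]

/-- a bound of the form `c X (log log X)^n / log X` from below makes the family not empty -/
theorem pos_of_low {n : ℕ} {f : ℕ → ℕ} (h : ∃ (c : ℝ) (X₀ : ℕ), 0 < c ∧ ∀ X : ℕ, X₀ ≤ X →
    c * (X * Real.log (Real.log X) ^ n / Real.log X) ≤ (f X : ℝ)) :
    ∀ᶠ X : ℕ in atTop, 0 < f X := by
  obtain ⟨c, X₀, hc, h⟩ := h
  have t3 : Tendsto (fun X : ℕ => Real.log (Real.log (X : ℝ))) atTop atTop :=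
    Real.tendsto_log_atTop.comp (Real.tendsto_log_atTop.comp tendsto_natCast_atTop_atTop)
  filter_upwards [eventually_ge_atTop X₀, eventually_ge_atTop 3, t3.eventually_ge_atTop 1]
    with X hX hX3 hll
  have hX1 : (1 : ℝ) < X := by exact_mod_cast (by omega : 1 < X)
  have hl : 0 < Real.log X := Real.log_pos hX1
  have h4 := h X hX
  have h6 : (0 : ℝ) < (f X : ℝ) := by
    refine lt_of_lt_of_le ?_ h4
    have : 0 < Real.log (Real.log X) := by linarith
    positivity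
  exact_mod_cast h6

/-- the law for the tuples, all lengths -/
theorem TA_law' {m : ℕ} (hm : 1 ≤ m) {A : Ei → Prop} {ρ : Fin m → Fin 9}
    (hρ : (∏ i, (ρ i : ℕ)) % 9 ≠ 1)
    (hD : ∀ i, Dn fun p => ∃ π, (Bs A π ∧ nrm π % 9 = (ρ i : ℕ)) ∧ nrm π = p) :
    Tendsto (fun X : ℕ => (((TA (Fin m) A X).filter fun p => GdT (fun _ => 1) p).card : ℝ) /
      ((TA (Fin m) A X).card : ℝ)) atTop (𝓝 (sp (m - 1))) := by
  have ks : Fin m := ⟨0, hm⟩
  rcases Nat.lt_or_ge m 2 with h1 | h1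
  · have hm1 : m = 1 := by omega
    subst hm1
    have h2 : ∀ X, (TA (Fin 1) A X).filter (fun p => GdT (fun _ => 1) p) = TA (Fin 1) A X :=
      fun X => Finset.filter_true_of_mem fun p _ => gdT_one (by simp) _ p
    have h3 := pos_of_low (TA_low ks hρ hD)
    have h4 : sp (1 - 1) = 1 := by
      unfold sp
      norm_num
    rw [h4]
    refine tendsto_const_nhds.congr' ?_
    filter_upwards [h3] with X hX
    rw [h2]
    have : ((TA (Fin 1) A X).card : ℝ) ≠ 0 := by exact_mod_cast hX.ne'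
    rw [div_self this]
  · obtain ⟨n, rfl⟩ : ∃ n, m = n + 2 := ⟨m - 2, by omega⟩
    have h := TA_law (ι := Fin (n + 2)) (j := n) (by rw [Fintype.card_fin]) ks hρ hD
    rw [Fintype.card_fin] at h
    exact h

theorem fact_pos (m : ℕ) : (0 : ℝ) < ((Fintype.card (Fin m)).factorial : ℝ) := by
  exact_mod_cast Nat.factorial_pos _

variable [IsCyclotomicExtension {3} ℚ K]

/-- **The law.** -/
theorem K_law {S : Set (Ideal (𝓞 K))} {m : ℕ} (hm : 1 ≤ m) (hS : Rich S m) :
    Tendsto (fun X : ℕ =>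
      ({D : 𝓞 K | Algebra.norm ℤ D ≤ X ∧ FamK S m D ∧ Tri D}.ncard : ℝ) /
        ({D : 𝓞 K | Algebra.norm ℤ D ≤ X ∧ FamK S m D}.ncard : ℝ)) atTop
      (𝓝 (∏ i ∈ range (m / 2), (1 - (1 / 3 : ℝ) ^ (2 * i + 1)))) := by
  obtain ⟨⟨j, hj⟩, -⟩ := Pool.Agent.Y455.CTK.jex K
  obtain ⟨ρ, hρ, hD⟩ := rich_data j hj hS
  have h := TA_law' hm hρ hD
  have e3 : sp (m - 1) = ∏ i ∈ range (m / 2), (1 - (1 / 3 : ℝ) ^ (2 * i + 1)) := by
    unfold sp
    rw [Nat.sub_add_cancel hm]
  rw [e3] at h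
  have e1 : ∀ X : ℕ, {D : 𝓞 K | Algebra.norm ℤ D ≤ X ∧ (FamK S m D ∧ Tri D)}.ncard =
      {D : Ei | nr D ≤ X ∧ (FamE (fun π => Ideal.span {j π} ∈ S) m D ∧ GoodE D)}.ncard := by
    intro X
    refine Pool.Agent.Y696.XK.img_ncard j hj X
      (fun D => FamE (fun π => Ideal.span {j π} ∈ S) m D ∧ GoodE D)
      (fun D => FamK S m D ∧ Tri D) fun D => ?_
    rw [fam_iff j hj, Pool.Agent.Y696.XK.good_tri j hj, Pool.Agent.Y696.XK.cls_iff j hj]
    constructor
    · rintro ⟨h1, h2, h3⟩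
      exact ⟨h1, h3⟩
    · rintro ⟨h1, h3⟩
      exact ⟨h1, h1.1, h3⟩
  have e2 : ∀ X : ℕ, {D : 𝓞 K | Algebra.norm ℤ D ≤ X ∧ FamK S m D}.ncard =
      {D : Ei | nr D ≤ X ∧ FamE (fun π => Ideal.span {j π} ∈ S) m D}.ncard := fun X =>
    Pool.Agent.Y696.XK.img_ncard j hj X _ _ fun D => (fam_iff j hj S m D).symm
  refine h.congr fun X => ?_
  have h1 := card_FamE (ι := Fin m) (fun π => Ideal.span {j π} ∈ S) X
  have h2 := card_FamE_good (ι := Fin m) (fun π => Ideal.span {j π} ∈ S) X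
  rw [e1, e2, h1, h2]
  push_cast
  rw [mul_div_mul_left _ _ (fact_pos m).ne', Fintype.card_fin]

/-- the size of the family -/
theorem K_size {S : Set (Ideal (𝓞 K))} {m : ℕ} (hm : 1 ≤ m) (hS : Rich S m) :
    ∃ (c C : ℝ) (X₀ : ℕ), 0 < c ∧ 0 < C ∧ ∀ X : ℕ, X₀ ≤ X →
      c * (X * Real.log (Real.log X) ^ (m - 1) / Real.log X) ≤
        ({D : 𝓞 K | Algebra.norm ℤ D ≤ X ∧ FamK S m D}.ncard : ℝ) ∧
      ({D : 𝓞 K | Algebra.norm ℤ D ≤ X ∧ FamK S m D}.ncard : ℝ) ≤
        C * (X * Real.log (Real.log X) ^ (m - 1) / Real.log X) := by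
  obtain ⟨⟨j, hj⟩, -⟩ := Pool.Agent.Y455.CTK.jex K
  obtain ⟨ρ, hρ, hD⟩ := rich_data j hj hS
  obtain ⟨c, X₀, hc, hlow⟩ := TA_low (⟨0, hm⟩ : Fin m) hρ hD
  obtain ⟨C, X₁, hC, hup⟩ := TA_up (ι := Fin m) (n := m - 1) (by
    rw [Fintype.card_fin]
    omega) (fun π => Ideal.span {j π} ∈ S)
  have e2 : ∀ X : ℕ, {D : 𝓞 K | Algebra.norm ℤ D ≤ X ∧ FamK S m D}.ncard =
      {D : Ei | nr D ≤ X ∧ FamE (fun π => Ideal.span {j π} ∈ S) m D}.ncard := fun X =>
    Pool.Agent.Y696.XK.img_ncard j hj X _ _ fun D => (fam_iff j hj S m D).symm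
  have hf := fact_pos m
  refine ⟨c / ((Fintype.card (Fin m)).factorial : ℝ), C / ((Fintype.card (Fin m)).factorial : ℝ),
    max X₀ X₁, by positivity, by positivity, fun X hX => ?_⟩
  have h1 := card_FamE (ι := Fin m) (fun π => Ideal.span {j π} ∈ S) X
  have h2 := hlow X ((le_max_left _ _).trans hX)
  have h3 := hup X ((le_max_right _ _).trans hX)
  rw [h1] at h2 h3
  push_cast at h2 h3
  rw [e2]
  rw [Fintype.card_fin] at h2 h3 hf ⊢
  constructor
  · rw [div_mul_eq_mul_div, div_le_iff₀ hf, mul_comm (({D : Ei | nr D ≤ X ∧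
      FamE (fun π => Ideal.span {j π} ∈ S) m D}.ncard : ℕ) : ℝ)]
    exact h2
  · rw [div_mul_eq_mul_div, le_div_iff₀ hf, mul_comm (({D : Ei | nr D ≤ X ∧
      FamE (fun π => Ideal.span {j π} ∈ S) m D}.ncard : ℕ) : ℝ)]
    exact h3

end fam

end Pool.Agent.V11291.EK
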