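import Pool.Agent.V11291.EK.Par
import Pool.Agent.V11291.EK.MainK

/-!
# The number of the families of primes and characters of order `3 ^ k`
-/

set_option autoImplicit false
set_option linter.unusedSectionVars false
set_option linter.unusedVariables false

open scoped Classical

namespace Pool.Agent.V11291.EK

open Finset Filter Topology Module
open Pool.Agent.Y692.QS (Ei nr)
open Pool.Agent.Y715.T.RecG (Pq)
open Pool.Agent.Y715.T.Rec (cs)
open Pool.Agent.Y699.E (nrm nrm_cast)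
open Pool.Agent.Y85.XK (sp)
open Pool.Agent.V11291.FK (Dn)
open Chr (MC Ty)

/-- families of elements and of characters -/
abbrev Dta (m : ℕ) : Type := Σ π : Fin m → Ei, ∀ j, MC (π j)

section card

variable {m k : ℕ}

theorem card_data (hk : 1 ≤ k) (T : Finset (Fin m → Ei))
    (hT : ∀ p ∈ T, ∀ j, Prime (p j) ∧ (3 : ℤ) ^ (k + 1) ∣ nr (p j) - 1)
    (R : (Fin m → ZMod 3) → (Fin m → Ei) → Prop) :
    Nat.card {x : Dta m // x.1 ∈ T ∧ (∀ j, orderOf (x.2 j) = 3 ^ k) ∧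
      ∀ e, (∀ j, Ty k (x.2 j) (e j)) → R e x.1} =
    (∑ b : Fin m → Bool, (T.filter fun p => R (eb b) p).card) * (3 ^ (k - 1)) ^ m := by
  have h9 : ∀ p ∈ T, ∀ j, (9 : ℤ) ∣ nr (p j) - 1 := by
    intro p hp j
    refine dvd_trans ?_ (hT p hp j).2
    have : (9 : ℤ) = 3 ^ 2 := by norm_num
    rw [this]
    exact pow_dvd_pow 3 (by omega)
  let f : (Σ b : Fin m → Bool, Σ p : {p : Fin m → Ei // p ∈ T ∧ R (eb b) p},
      ∀ j, {χ : MC (p.1 j) // orderOf χ = 3 ^ k ∧ Ty k χ (eb b j)}) →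
      {x : Dta m // x.1 ∈ T ∧ (∀ j, orderOf (x.2 j) = 3 ^ k) ∧
        ∀ e, (∀ j, Ty k (x.2 j) (e j)) → R e x.1} := fun y =>
    ⟨⟨y.2.1.1, fun j => (y.2.2 j).1⟩, y.2.1.2.1, fun j => (y.2.2 j).2.1, fun e he => by
      have h1 : e = eb y.1 := funext fun j =>
        Chr.ty_uniq (hT _ y.2.1.2.1 j).1 (h9 _ y.2.1.2.1 j) (he j) (y.2.2 j).2.2
      rw [h1]
      exact y.2.1.2.2⟩
  have hf : Function.Bijective f := by
    constructor
    · rintro ⟨b, ⟨p, hp⟩, χ⟩ ⟨b', ⟨p', hp'⟩, χ'⟩ h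
      have h1 : (⟨p, fun j => (χ j).1⟩ : Dta m) = ⟨p', fun j => (χ' j).1⟩ :=
        Subtype.mk.inj h
      obtain ⟨h2, h3⟩ := Sigma.mk.inj h1
      subst h2
      have h4 := eq_of_heq h3
      have h5 : ∀ j, (χ j).1 = (χ' j).1 := fun j => congrFun h4 j
      have h6 : b = b' := eb_inj fun j =>
        Chr.ty_uniq (hT _ hp.1 j).1 (h9 _ hp.1 j) (χ j).2.2 ((h5 j) ▸ (χ' j).2.2)
      subst h6
      have h7 : χ = χ' := funext fun j => Subtype.ext (h5 j)
      subst h7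
      rfl
    · rintro ⟨⟨p, χ⟩, h1, h2, h3⟩
      choose e he hty using fun j => Chr.exists_ty (hT p h1 j).1 (h9 p h1 j) hk (h2 j)
      obtain ⟨b, hb⟩ := exists_eb he
      subst hb
      exact ⟨⟨b, ⟨p, h1, h3 _ hty⟩, fun j => ⟨χ j, h2 j, hty j⟩⟩, rfl⟩
  rw [← Nat.card_congr (Equiv.ofBijective f hf)]
  have hfin : ∀ (b : Fin m → Bool) (p : {p : Fin m → Ei // p ∈ T ∧ R (eb b) p}) (j : Fin m),
      Nat.card {χ : MC (p.1 j) // orderOf χ = 3 ^ k ∧ Ty k χ (eb b j)} = 3 ^ (k - 1) := by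
    intro b p j
    refine Chr.card_type (hT _ p.2.1 j).1 (h9 _ p.2.1 j) hk ?_ (eb_ne b j)
    refine dvd_trans ?_ (hT _ p.2.1 j).2
    exact pow_dvd_pow 3 (by omega)
  have hfin' : ∀ (b : Fin m → Bool) (p : {p : Fin m → Ei // p ∈ T ∧ R (eb b) p}) (j : Fin m),
      Finite {χ : MC (p.1 j) // orderOf χ = 3 ^ k ∧ Ty k χ (eb b j)} := by
    intro b p j
    apply Nat.finite_of_card_ne_zero
    rw [hfin]
    positivity
  have hpi : ∀ (b : Fin m → Bool) (p : {p : Fin m → Ei // p ∈ T ∧ R (eb b) p}),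
      Nat.card (∀ j, {χ : MC (p.1 j) // orderOf χ = 3 ^ k ∧ Ty k χ (eb b j)}) =
        (3 ^ (k - 1)) ^ m := by
    intro b p
    rw [Nat.card_pi]
    simp only [hfin, Finset.prod_const, Finset.card_univ, Fintype.card_fin]
  have hfinp : ∀ b : Fin m → Bool, Finite {p : Fin m → Ei // p ∈ T ∧ R (eb b) p} := by
    intro b
    refine Finite.of_injective (β := {p // p ∈ T}) (fun p => ⟨p.1, p.2.1⟩) ?_
    intro p p' h
    exact Subtype.ext (Subtype.mk.inj h)
  have hcp : ∀ b : Fin m → Bool, Nat.card {p : Fin m → Ei // p ∈ T ∧ R (eb b) p} =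
      (T.filter fun p => R (eb b) p).card := by
    intro b
    rw [← Nat.subtype_card]
    intro p
    rw [mem_filter]
  have hsg : ∀ b : Fin m → Bool, Nat.card (Σ p : {p : Fin m → Ei // p ∈ T ∧ R (eb b) p},
      ∀ j, {χ : MC (p.1 j) // orderOf χ = 3 ^ k ∧ Ty k χ (eb b j)}) =
      (T.filter fun p => R (eb b) p).card * (3 ^ (k - 1)) ^ m := by
    intro b
    have := Fintype.ofFinite {p : Fin m → Ei // p ∈ T ∧ R (eb b) p}
    rw [Nat.card_sigma]
    simp only [hpi, Finset.sum_const, smul_eq_mul, Finset.card_univ]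
    rw [← hcp, Nat.card_eq_fintype_card]
  have : ∀ b : Fin m → Bool, Finite (Σ p : {p : Fin m → Ei // p ∈ T ∧ R (eb b) p},
      ∀ j, {χ : MC (p.1 j) // orderOf χ = 3 ^ k ∧ Ty k χ (eb b j)}) := fun b => inferInstance
  rw [Nat.card_sigma]
  simp only [hsg]
  rw [Finset.sum_mul]

end card

/-- the kernel condition -/
theorem ker_of_gd {m : ℕ} {p : Fin m → Ei} {e : Fin m → ZMod 3} (he : ∀ j, e j ≠ 0)
    (h : GdT e p) : ∀ v : Fin m → ZMod 3,
      (∀ j, ∑ i, Pool.Agent.Y715.T.Sel.aij p e i j * (v i - v j) = 0) → ∀ i j, v i = v j := by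
  intro v hv
  refine h v fun k => ?_
  have h1 := hv k
  unfold Pool.Agent.Y715.T.Sel.aij at h1
  have h2 : ∑ l, e k * e l * cs (p k) (p l) * (v l - v k) =
      e k * ∑ i, e i * cs (p k) (p i) * (v i - v k) := by
    rw [Finset.mul_sum]
    refine Finset.sum_congr rfl fun l _ => ?_
    ring
  rw [h2, h1, mul_zero]

end Pool.Agent.V11291.EK
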