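import Pool.Agent.V11291.EK.Tup

/-!
# A fixed number of primes over `ℤ[ω]`: the law for the tuples with weights
-/

set_option autoImplicit false
set_option linter.unusedSectionVars false
set_option linter.unusedVariables false

open scoped Classical

namespace Pool.Agent.V11291.EK

open Finset Filter Topology Module
open Pool.Agent.Y692.QS (Ei)
open Pool.Agent.Y699.E (nrm)
open Pool.Agent.Y703.XK (prs)
open Pool.Agent.Y85.XK (sp)
open Pool.Agent.V11291.FK (Exc Tup mem_Tup AA ExcH Dn low)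

theorem sp_nonneg (m : ℕ) : 0 ≤ sp m := by
  unfold sp
  refine Finset.prod_nonneg fun i _ => ?_
  have : (1 / 3 : ℝ) ^ (2 * i + 1) ≤ 1 := pow_le_one₀ (by norm_num) (by norm_num)
  linarith

theorem sp_le_one (m : ℕ) : sp m ≤ 1 := by
  unfold sp
  refine Finset.prod_le_one (fun i _ => ?_) fun i _ => ?_
  · have : (1 / 3 : ℝ) ^ (2 * i + 1) ≤ 1 := pow_le_one₀ (by norm_num) (by norm_num)
    linarith
  · have : (0 : ℝ) ≤ (1 / 3 : ℝ) ^ (2 * i + 1) := by positivity
    linarith

section sig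

variable {ι : Type} [Fintype ι] [LinearOrder ι]

/-- the number of the exceptional tuples of numbers -/
theorem exc_nat {j : ℕ} (hj : Fintype.card ι = j + 1) :
    ExcH (Tup fun (_ : ι) (p : ℕ) => p.Prime) j := by
  refine Pool.Agent.V11291.FK.exc_abs hj Pool.Agent.Y911.CX.TT (fun X p hp => ?_)
    (fun X z H _ hH => Cnt.cut_count hH) (fun X z H _ hH => Cnt.coll_count hH)
  rw [mem_Tup fun i p h => h] at hp
  obtain ⟨h1, h2, h3⟩ := hp
  refine ⟨h1, h2, h3, Pool.Agent.Y911.CX.mem_TT (fun q hq => ?_) ?_⟩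
  · rw [mem_image] at hq
    obtain ⟨i, -, rfl⟩ := hq
    exact h1 i
  · rw [Finset.prod_image fun a _ b _ h => h2 h]
    exact h3

/-- the fibres of the norm map -/
theorem card_le_norms (T : Finset (ι → Ei)) (hT : ∀ p ∈ T, ∀ i, P1 (p i)) (B : Finset (ι → ℕ))
    (hB : ∀ p ∈ T, (fun i => nrm (p i)) ∈ B) : T.card ≤ 2 ^ Fintype.card ι * B.card := by
  refine Finset.card_le_mul_card_image_of_maps_to hB _ fun q _ => ?_
  have h1 : (T.filter fun p => (fun i => nrm (p i)) = q) ⊆
      Fintype.piFinset fun i => (T.image fun p => p i).filter fun π => nrm π = q i := by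
    intro p hp
    rw [mem_filter] at hp
    rw [Fintype.mem_piFinset]
    intro i
    rw [mem_filter]
    exact ⟨Finset.mem_image_of_mem _ hp.1, congrFun hp.2 i⟩
  refine (Finset.card_le_card h1).trans ?_
  rw [Fintype.card_piFinset]
  have h2 : ∀ i ∈ (univ : Finset ι),
      ((T.image fun p => p i).filter fun π => nrm π = q i).card ≤ 2 := by
    intro i _
    refine card_norm_le _ (fun π hπ => ?_) (q := q i) fun π hπ => (Finset.mem_filter.1 hπ).2
    rw [mem_filter, mem_image] at hπ
    obtain ⟨⟨p, hp, rfl⟩, -⟩ := hπ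
    exact hT p hp i
  refine (Finset.prod_le_prod' h2).trans ?_
  rw [Finset.prod_const, Finset.card_univ]

/-- the bound of the number of the exceptional tuples -/
theorem excE {j : ℕ} (hj : Fintype.card ι = j + 1) {P : ι → Ei → Prop}
    (hP : ∀ i π, P i π → P1 π) : ExcG (Fintype.card ι) j (TupE P) ExE := by
  refine ⟨2 ^ Fintype.card ι * (Fintype.card ι : ℝ) ^ Fintype.card ι, by positivity,
    fun X z H hX hH => ?_⟩
  have h1 : ((TupE P X).filter fun p => ExE X z H p).card ≤ 2 ^ Fintype.card ι *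
      ((Tup (fun (_ : ι) (p : ℕ) => p.Prime) X).filter fun p => Exc X z H p).card := by
    refine card_le_norms _ (fun p hp i => ?_) _ fun p hp => ?_
    · rw [mem_filter, mem_TupE hP] at hp
      exact hP i _ (hp.1.1 i)
    · rw [mem_filter, mem_TupE hP] at hp
      rw [mem_filter, mem_Tup fun i p h => h]
      exact ⟨⟨fun i => (hP i _ (hp.1.1 i)).2, hp.1.2⟩, hp.2⟩
  have h2 := exc_nat (ι := ι) hj X z H hX hH
  have h3 : (((TupE P X).filter fun p => ExE X z H p).card : ℝ) ≤ 2 ^ Fintype.card ι *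
      (((Tup (fun (_ : ι) (p : ℕ) => p.Prime) X).filter fun p => Exc X z H p).card : ℝ) := by
    exact_mod_cast h1
  refine h3.trans ?_
  rw [mul_assoc]
  exact mul_le_mul_of_nonneg_left h2 (by positivity)

/-- the lower bound of the number of the tuples -/
theorem lowE {P : ι → Ei → Prop} (hP : ∀ i π, P i π → P1 π)
    (hD : ∀ i, Dn fun p => ∃ π, P i π ∧ nrm π = p) (i₀ : ι) :
    LowG (Fintype.card ι) (TupE P) := by
  obtain ⟨c, X₀, hc, h⟩ := low (P := fun i p => ∃ π, P i π ∧ nrm π = p)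
    (fun i p ⟨π, h1, h2⟩ => h2 ▸ (hP i π h1).2) hD i₀
  refine ⟨c, X₀, hc, fun X hX => (h X hX).trans ?_⟩
  have h1 : (Tup (fun i p => ∃ π, P i π ∧ nrm π = p) X).card ≤ (TupE P X).card := by
    refine Finset.card_le_card_of_injOn
      (fun p i => if h : ∃ π, P i π ∧ nrm π = p i then h.choose else 0) ?_ ?_
    · intro p hp
      rw [mem_coe, mem_Tup fun i p ⟨π, h1, h2⟩ => h2 ▸ (hP i π h1).2] at hp
      obtain ⟨a1, a2, a3⟩ := hp
      have e : ∀ i, P i (if h : ∃ π, P i π ∧ nrm π = p i then h.choose else 0) ∧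
          nrm (if h : ∃ π, P i π ∧ nrm π = p i then h.choose else 0) = p i := by
        intro i
        rw [dif_pos (a1 i)]
        exact (a1 i).choose_spec
      rw [mem_coe, mem_TupE hP]
      refine ⟨fun i => (e i).1, ?_, ?_⟩
      · intro i j hij
        simp only at hij
        rw [(e i).2, (e j).2] at hij
        exact a2 hij
      · simp only
        rw [Finset.prod_congr rfl fun i _ => (e i).2]
        exact a3
    · intro p hp q hq hpq
      rw [mem_coe, mem_Tup fun i p ⟨π, h1, h2⟩ => h2 ▸ (hP i π h1).2] at hp hq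
      funext i
      have h1 := congrFun hpq i
      simp only at h1
      rw [dif_pos (hp.1 i), dif_pos (hq.1 i)] at h1
      rw [← (hp.1 i).choose_spec.2, ← (hq.1 i).choose_spec.2, h1]
  exact_mod_cast h1

variable {I : Type} [Fintype I]

/-- the disjoint union of the families of tuples -/
noncomputable def Sg (P : I → ι → Ei → Prop) (X : ℕ) : Finset (Σ _ : I, ι → Ei) :=
  univ.sigma fun s => TupE (P s) X

theorem card_Sg (P : I → ι → Ei → Prop) (X : ℕ) (Q : (Σ _ : I, ι → Ei) → Prop)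
    [DecidablePred Q] :
    ((Sg P X).filter Q).card = ∑ s, ((TupE (P s) X).filter fun p => Q ⟨s, p⟩).card := by
  have e : (Sg P X).filter Q = univ.sigma fun s => (TupE (P s) X).filter fun p => Q ⟨s, p⟩ := by
    ext ⟨s, p⟩
    unfold Sg
    simp only [mem_filter, mem_sigma, mem_univ, true_and]
  rw [e, Finset.card_sigma]

/-- **The law for the tuples with weights.** -/
theorem law_sig' (ks : ι) {j : ℕ} (hj : Fintype.card ι = j + 2) {P : I → ι → Ei → Prop}
    (hP : ∀ s i π, P s i π → P1 π) {ε : I → ι → ZMod 3} (hε : ∀ s i, ε s i ≠ 0)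
    (hL : LowG (Fintype.card ι) (Sg P)) :
    Tendsto (fun X : ℕ => ((∑ s, ((TupE (P s) X).filter fun p => GdT (ε s) p).card : ℕ) : ℝ) /
      ((∑ s, (TupE (P s) X).card : ℕ) : ℝ)) atTop (𝓝 (sp (Fintype.card ι - 1))) := by
  have hB : BoxG (Fintype.card ι) 24 (Sg P) (fun X z H x => ExE X z H x.2)
      (fun x => GdT (ε x.1) x.2) (sp (Fintype.card ι - 1)) := by
    obtain ⟨C, hC, hbox⟩ := sum_boxesE (ι := ι) ks
    refine ⟨Fintype.card I * (3 ^ (prs ι).card * 2 ^ Fintype.card ι), C, by positivity, hC, ?_⟩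
    intro X z H N κ hH hz hκ hκz hN
    beta_reduce
    rw [card_Sg, card_Sg]
    push_cast
    rw [Finset.mul_sum, ← Finset.sum_sub_distrib]
    refine (Finset.abs_sum_le_sum_abs _ _).trans ?_
    refine (Finset.sum_le_sum fun s _ => hbox (ε s) (P s) X z H N κ (hε s) (hP s) hH hz hκ hκz
      hN).trans ?_
    rw [Finset.sum_const, nsmul_eq_mul, Finset.card_univ]
    refine le_of_eq ?_
    ring
  have hE : ExcG (Fintype.card ι) (j + 1) (Sg P) (fun X z H x => ExE X z H x.2) := by
    choose A hA0 hA using fun s => excE (ι := ι) (j := j + 1) hj (hP s)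
    refine ⟨∑ s, A s, Finset.sum_nonneg fun s _ => hA0 s, fun X z H hX hH => ?_⟩
    beta_reduce
    rw [card_Sg]
    push_cast
    rw [Finset.sum_mul]
    exact Finset.sum_le_sum fun s _ => hA s X z H hX hH
  have h := law_gen hj (by norm_num) (sp_nonneg _) (sp_le_one _) hB hE hL
  refine h.congr fun X => ?_
  have e1 : (((Sg P X).filter fun x => GdT (ε x.1) x.2).card : ℝ) =
      ((∑ s, ((TupE (P s) X).filter fun p => GdT (ε s) p).card : ℕ) : ℝ) := by
    rw [card_Sg]
  have e2 : ((Sg P X).card : ℝ) = ((∑ s, (TupE (P s) X).card : ℕ) : ℝ) := by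
    unfold Sg
    rw [Finset.card_sigma]
  rw [e1, e2]

/-- **The law for the tuples with weights**, with a density hypothesis. -/
theorem law_sig (ks : ι) {j : ℕ} (hj : Fintype.card ι = j + 2) {P : I → ι → Ei → Prop}
    (hP : ∀ s i π, P s i π → P1 π) {ε : I → ι → ZMod 3} (hε : ∀ s i, ε s i ≠ 0) (s₀ : I)
    (hD : ∀ i, Dn fun p => ∃ π, P s₀ i π ∧ nrm π = p) :
    Tendsto (fun X : ℕ => ((∑ s, ((TupE (P s) X).filter fun p => GdT (ε s) p).card : ℕ) : ℝ) /
      ((∑ s, (TupE (P s) X).card : ℕ) : ℝ)) atTop (𝓝 (sp (Fintype.card ι - 1))) := by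
  have hL : LowG (Fintype.card ι) (Sg P) := by
    obtain ⟨c, X₀, hc, h⟩ := lowE (hP s₀) hD ks
    refine ⟨c, X₀, hc, fun X hX => (h X hX).trans ?_⟩
    have h1 : (TupE (P s₀) X).card ≤ (Sg P X).card := by
      unfold Sg
      rw [Finset.card_sigma]
      exact Finset.single_le_sum (f := fun s => (TupE (P s) X).card) (fun _ _ => Nat.zero_le _)
        (mem_univ s₀)
    exact_mod_cast h1
  exact law_sig' ks hj hP hε hL

end sig

end Pool.Agent.V11291.EK
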