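import Pool.Agent.V11291.EK.Box
import Pool.Agent.Y363.XK.Bil
import Pool.Agent.Y710.XK.EQ
import Pool.Agent.Y804.XK.SYM
import Pool.Agent.Y699.E.Cheb

/-!
# A fixed number of primes over `ℤ[ω]`: the sum over the boxes
-/

set_option autoImplicit false
set_option linter.unusedSectionVars false
set_option linter.unusedVariables false

open scoped Classical

namespace Pool.Agent.V11291.EK

open Finset Module
open Pool.Agent.Y692.QS (Ei)
open Pool.Agent.Y715.T.Rec (cs)
open Pool.Agent.Y715.T.RecG (Pq)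
open Pool.Agent.Y699.E (ez nrm QB mem_QB PD mem_PD card_PD_nat dvd_nrm nrm_zero_iff nrm_natCast)
open Pool.Agent.Y703.CX (jj XX)
open Pool.Agent.Y703.XK (prs HB)
open Pool.Agent.Y85.XK (sp)
open Pool.Agent.Y911.CX (le_XX)
open Pool.Agent.V11291.FK (Exc)

/-- a primary prime of degree one -/
def P1 (π : Ei) : Prop := Pq π ∧ (nrm π).Prime

section tup

variable {ι : Type} [Fintype ι] [LinearOrder ι]

/-- the tuples of primary primes with different norms, with product of the norms at most `X`, the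
`i`-th prime with the property `P i` -/
noncomputable def TupE (P : ι → Ei → Prop) (X : ℕ) : Finset (ι → Ei) :=
  (Fintype.piFinset fun _ => QB X).filter fun p =>
    (∀ i, P i (p i)) ∧ Function.Injective (fun i => nrm (p i)) ∧ ∏ i, nrm (p i) ≤ X

theorem mem_TupE {P : ι → Ei → Prop} (hP : ∀ i π, P i π → P1 π) {X : ℕ} {p : ι → Ei} :
    p ∈ TupE P X ↔ (∀ i, P i (p i)) ∧ Function.Injective (fun i => nrm (p i)) ∧
      ∏ i, nrm (p i) ≤ X := by
  unfold TupE
  rw [mem_filter, Fintype.mem_piFinset]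
  constructor
  · exact fun h => h.2
  · intro h
    refine ⟨fun i => ?_, h⟩
    rw [mem_QB]
    have h1 : nrm (p i) ≤ ∏ j, nrm (p j) := Nat.le_of_dvd
      (Finset.prod_pos fun j _ => (hP j _ (h.1 j)).2.pos) (Finset.dvd_prod_of_mem _ (mem_univ i))
    exact ⟨h1.trans h.2.2, (hP i _ (h.1 i)).1⟩

/-- the exceptional tuples -/
def ExE (X z H : ℕ) (p : ι → Ei) : Prop := Exc X z H fun i => nrm (p i)

/-- the box -/
noncomputable def bxE (P : ι → Ei → Prop) (z H : ℕ) (b : ι → ℕ) (i : ι) : Finset Ei :=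
  (QB (XX H (b i))).filter fun π => P i π ∧ jj H (nrm π) = b i ∧ z < nrm π

theorem fibE_eq {P : ι → Ei → Prop} (hP : ∀ i π, P i π → P1 π) {X z H : ℕ} (hH : 1 ≤ H)
    {b : ι → ℕ} (hb : Function.Injective b) (hbX : ∏ i, XX H (b i) ≤ X) :
    ((TupE P X).filter fun p => ¬ ExE X z H p ∧ (fun i => jj H (nrm (p i))) = b) =
      Fintype.piFinset (bxE P z H b) := by
  ext p
  rw [mem_filter, mem_TupE hP, Fintype.mem_piFinset]
  constructor
  · rintro ⟨⟨h1, h2, h3⟩, h4, h5⟩ i
    unfold ExE Exc at h4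
    push Not at h4
    unfold bxE
    rw [mem_filter, mem_QB]
    have h6 : jj H (nrm (p i)) = b i := congrFun h5 i
    refine ⟨⟨?_, (hP i _ (h1 i)).1⟩, h1 i, h6, h4.1 i⟩
    rw [← h6]
    exact le_XX hH (hP i _ (h1 i)).2.one_lt.le
  · intro h
    have h1 : ∀ i, P i (p i) ∧ jj H (nrm (p i)) = b i ∧ z < nrm (p i) ∧
        nrm (p i) ≤ XX H (b i) := by
      intro i
      have := h i
      unfold bxE at this
      rw [mem_filter, mem_QB] at this
      exact ⟨this.2.1, this.2.2.1, this.2.2.2, this.1.1⟩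
    have h2 : (fun i => jj H (nrm (p i))) = b := funext fun i => (h1 i).2.1
    have hinj : Function.Injective fun i => nrm (p i) := by
      intro i j hij
      simp only at hij
      apply hb
      rw [← (h1 i).2.1, ← (h1 j).2.1, hij]
    refine ⟨⟨fun i => (h1 i).1, hinj, (Finset.prod_le_prod' fun i _ => (h1 i).2.2.2).trans hbX⟩, ?_,
      h2⟩
    unfold ExE Exc
    push Not
    refine ⟨fun i => (h1 i).2.2.1, ?_, ?_⟩
    · rw [h2]
      exact hb
    · have : ∏ i, XX H (jj H (nrm (p i))) = ∏ i, XX H (b i) :=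
        Finset.prod_congr rfl fun i _ => by rw [(h1 i).2.1]
      rw [this]
      exact hbX

theorem fibE_empty {P : ι → Ei → Prop} {X z H : ℕ}
    {b : ι → ℕ} (h : ¬ (Function.Injective b ∧ ∏ i, XX H (b i) ≤ X)) :
    ((TupE P X).filter fun p => ¬ ExE X z H p ∧ (fun i => jj H (nrm (p i))) = b) = ∅ := by
  refine Finset.filter_eq_empty_iff.2 ?_
  rintro p - ⟨h4, h5⟩
  unfold ExE Exc at h4
  push Not at h4
  apply h
  subst h5
  exact ⟨h4.2.1, h4.2.2⟩

/-- at most two primary primes of a prime norm -/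
theorem card_norm_le (T : Finset Ei) (hT : ∀ π ∈ T, P1 π) {q : ℕ} (hq : ∀ π ∈ T, nrm π = q) :
    T.card ≤ 2 := by
  rcases T.eq_empty_or_nonempty with h | ⟨π₀, h₀⟩
  · rw [h, Finset.card_empty]
    omega
  · have hqp : q.Prime := by
      rw [← hq π₀ h₀]
      exact (hT π₀ h₀).2
    have hp0 : (q : Ei) ≠ 0 := by
      intro h0
      have h1 := nrm_natCast q
      rw [h0, nrm_zero_iff.2 rfl] at h1
      have := hqp.pos
      nlinarith
    refine (Finset.card_le_card fun π hπ => ?_).trans (card_PD_nat hqp)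
    rw [mem_PD hp0]
    refine ⟨(hT π hπ).1, ?_⟩
    rw [← hq π hπ]
    exact dvd_nrm π

theorem card_deg1_le (T : Finset Ei) (hT : ∀ π ∈ T, P1 π) {V : ℕ} (hV : ∀ π ∈ T, nrm π ≤ V) :
    T.card ≤ 2 * V := by
  have h1 : T.card ≤ 2 * (T.image nrm).card :=
    Finset.card_le_mul_card_image T 2 fun q _ => card_norm_le _
      (fun π hπ => hT π (Finset.mem_filter.1 hπ).1) fun π hπ => (Finset.mem_filter.1 hπ).2
  have h2 : (T.image nrm).card ≤ V := by
    have h3 : T.image nrm ⊆ Icc 1 V := by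
      intro q hq
      rw [mem_image] at hq
      obtain ⟨π, hπ, rfl⟩ := hq
      rw [mem_Icc]
      exact ⟨(hT π hπ).2.one_lt.le, hV π hπ⟩
    refine (Finset.card_le_card h3).trans ?_
    rw [Nat.card_Icc]
    omega
  omega

theorem root24 {x κ C A B z : ℝ} (hκ : 0 ≤ κ) (hA : 0 ≤ A) (hB : 0 ≤ B) (hz : 0 < z)
    (h : x ^ 24 * z ≤ C * (A * B) ^ 24) (hC : C ≤ κ ^ 24 * z) : x ≤ κ * (A * B) := by
  have h1 : x ^ 24 * z ≤ (κ * (A * B)) ^ 24 * z := by
    refine h.trans ?_
    have h2 : 0 ≤ (A * B) ^ 24 := by positivity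
    have h3 := mul_le_mul_of_nonneg_right hC h2
    refine h3.trans (le_of_eq ?_)
    ring
  have h2 : x ^ 24 ≤ (κ * (A * B)) ^ 24 := le_of_mul_le_mul_right h1 hz
  exact le_of_pow_le_pow_left₀ (by norm_num) (by positivity) h2

/-- **The sum over the boxes.** -/
theorem sum_boxesE (ks : ι) :
    ∃ C : ℝ, 1 ≤ C ∧ ∀ (ε : ι → ZMod 3) (P : ι → Ei → Prop) (X z H N : ℕ) (κ : ℝ),
      (∀ i, ε i ≠ 0) → (∀ i π, P i π → P1 π) →
      1 ≤ H → 1 ≤ z → 0 ≤ κ → C ≤ κ ^ 24 * z → (H : ℝ) * Real.log X < N →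
      |(((TupE P X).filter fun p => ¬ ExE X z H p ∧ GdT ε p).card : ℝ) -
          sp (Fintype.card ι - 1) * (((TupE P X).filter fun p => ¬ ExE X z H p).card : ℝ)| ≤
        (N : ℝ) ^ Fintype.card ι *
          (3 ^ (prs ι).card * 2 ^ Fintype.card ι * (κ * X)) := by
  obtain ⟨C₁, hC₁, h1⟩ := Pool.Agent.Y363.XK.t_BIL
  refine ⟨C₁, hC₁, ?_⟩
  intro ε P X z H N κ hε hP hH hz hκ hκz hN
  have hz0 : (0 : ℝ) < z := by exact_mod_cast hz
  -- the value in a box
  set B : Finset (ι → ℕ) := Fintype.piFinset fun _ : ι => range N with hBd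
  have hmem : ∀ p ∈ TupE P X, (fun i => jj H (nrm (p i))) ∈ B := by
    intro p hp
    rw [mem_TupE hP] at hp
    rw [hBd, Fintype.mem_piFinset]
    intro i
    rw [mem_range]
    have hp0 := (hP i _ (hp.1 i)).2.pos
    have hqX : nrm (p i) ≤ X := by
      refine le_trans ?_ hp.2.2
      exact Nat.le_of_dvd (Finset.prod_pos fun j _ => (hP j _ (hp.1 j)).2.pos)
        (Finset.dvd_prod_of_mem _ (mem_univ i))
    have h3 : ((jj H (nrm (p i)) : ℕ) : ℝ) < N := by
      refine lt_of_le_of_lt (Nat.floor_le (mul_nonneg (Nat.cast_nonneg _)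
        (Real.log_nonneg (by exact_mod_cast hp0)))) ?_
      refine lt_of_le_of_lt ?_ hN
      refine mul_le_mul_of_nonneg_left ?_ (Nat.cast_nonneg _)
      exact Real.log_le_log (by exact_mod_cast hp0) (by exact_mod_cast hqX)
    exact_mod_cast h3
  have hfib : ∀ T : (ι → Ei) → Prop,
      (((TupE P X).filter fun p => ¬ ExE X z H p ∧ T p).card : ℝ) =
      ∑ b ∈ B, ((((TupE P X).filter fun p => ¬ ExE X z H p ∧
        (fun i => jj H (nrm (p i))) = b).filter T).card : ℝ) := by
    intro T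
    rw [Finset.card_eq_sum_card_fiberwise (f := fun (p : ι → Ei) (i : ι) => jj H (nrm (p i)))
      (t := B) (fun p hp => by
        rw [mem_coe, mem_filter] at hp
        exact mem_coe.2 (hmem p hp.1))]
    push_cast
    refine Finset.sum_congr rfl fun b _ => ?_
    congr 2
    ext p
    simp only [mem_filter]
    tauto
  have hf1 := hfib fun p => GdT ε p
  have hf2 := hfib fun _ => True
  simp only [and_true, Finset.filter_true] at hf2
  rw [hf1, hf2, Finset.mul_sum, ← Finset.sum_sub_distrib]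
  refine (Finset.abs_sum_le_sum_abs _ _).trans ?_
  have hbox : ∀ b ∈ B, |((((TupE P X).filter fun p => ¬ ExE X z H p ∧
        (fun i => jj H (nrm (p i))) = b).filter fun p => GdT ε p).card : ℝ) -
      sp (Fintype.card ι - 1) * (((TupE P X).filter fun p => ¬ ExE X z H p ∧
        (fun i => jj H (nrm (p i))) = b).card : ℝ)| ≤
      3 ^ (prs ι).card * 2 ^ Fintype.card ι * (κ * X) := by
    intro b _
    by_cases hb : Function.Injective b ∧ ∏ i, XX H (b i) ≤ X
    · rw [fibE_eq hP hH hb.1 hb.2]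
      have hmb : ∀ i, ∀ p ∈ bxE P z H b i, P i p ∧ jj H (nrm p) = b i ∧ z < nrm p ∧
          nrm p ≤ XX H (b i) := by
        intro i p hp
        unfold bxE at hp
        rw [mem_filter, mem_QB] at hp
        exact ⟨hp.2.1, hp.2.2.1, hp.2.2.2, hp.1.1⟩
      have hdis : ∀ i l, i ≠ l → Disjoint (bxE P z H b i) (bxE P z H b l) := by
        intro i l hil
        rw [Finset.disjoint_left]
        intro p hp hp'
        exact hil (hb.1 ((hmb i p hp).2.1.symm.trans (hmb l p hp').2.1))
      have hHB : HB (bxE P z H b) (fun i => 2 * XX H (b i)) κ := by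
        intro i l hil a c d ha hc hd
        have hk0 : (0 : ℝ) ≤ κ * ((XX H (b i) : ℝ) * (XX H (b l) : ℝ)) := by positivity
        have hk1 : κ * ((XX H (b i) : ℝ) * (XX H (b l) : ℝ)) ≤
            κ * (((2 * XX H (b i) : ℕ) : ℝ) * ((2 * XX H (b l) : ℕ) : ℝ)) := by
          apply mul_le_mul_of_nonneg_left _ hκ
          push_cast
          nlinarith [mul_nonneg (Nat.cast_nonneg (α := ℝ) (XX H (b i)))
            (Nat.cast_nonneg (α := ℝ) (XX H (b l)))]
        refine le_trans ?_ hk1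
        rcases (bxE P z H b i).eq_empty_or_nonempty with he | ⟨p₀, hp₀⟩
        · rw [he, Finset.sum_empty, norm_zero]
          exact hk0
        rcases (bxE P z H b l).eq_empty_or_nonempty with he | ⟨q₀, hq₀⟩
        · rw [he]
          simp only [Finset.sum_empty, Finset.sum_const_zero, norm_zero]
          exact hk0
        have hzi : z ≤ XX H (b i) := by
          have := hmb i p₀ hp₀
          omega
        have hzl : z ≤ XX H (b l) := by
          have := hmb l q₀ hq₀
          omega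
        have h3 := h1 (bxE P z H b i) (bxE P z H b l) (XX H (b i)) (XX H (b l)) z c d a
          (fun p hp => ⟨(hP i p (hmb i p hp).1).1, (hmb i p hp).2.2.2⟩)
          (fun p hp => ⟨(hP l p (hmb l p hp).1).1, (hmb l p hp).2.2.2⟩)
          (hdis i l hil) ha hz hzi hzl hc hd
        exact root24 hκ (Nat.cast_nonneg _) (Nat.cast_nonneg _) hz0 h3 hκz
      have h6 := boxE Pool.Agent.Y804.XK.t_SYM Pool.Agent.Y710.XK.t_EQ ks hε (bxE P z H b)
        (fun i => 2 * XX H (b i)) κ hκ
        (fun i => card_deg1_le _ (fun π hπ => hP i π (hmb i π hπ).1)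
          fun π hπ => (hmb i π hπ).2.2.2) hHB
        (fun i p hp => (hP i p (hmb i p hp).1).1)
      refine h6.trans ?_
      have h2 : ∏ j, ((XX H (b j) : ℕ) : ℝ) ≤ X := by exact_mod_cast hb.2
      have h3 : ∏ j, (((2 * XX H (b j) : ℕ) : ℕ) : ℝ) =
          2 ^ Fintype.card ι * ∏ j, ((XX H (b j) : ℕ) : ℝ) := by
        push_cast
        rw [Finset.prod_mul_distrib, Finset.prod_const, Finset.card_univ]
      rw [h3]
      have h4 : κ * ∏ j, ((XX H (b j) : ℕ) : ℝ) ≤ κ * X := mul_le_mul_of_nonneg_left h2 hκ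
      calc (3 : ℝ) ^ (prs ι).card * (κ * (2 ^ Fintype.card ι * ∏ j, ((XX H (b j) : ℕ) : ℝ))) =
          3 ^ (prs ι).card * 2 ^ Fintype.card ι * (κ * ∏ j, ((XX H (b j) : ℕ) : ℝ)) := by ring
        _ ≤ _ := mul_le_mul_of_nonneg_left h4 (by positivity)
    · rw [fibE_empty hb]
      simp only [Finset.filter_empty, Finset.card_empty, Nat.cast_zero, mul_zero, sub_zero, abs_zero]
      positivity
  refine (Finset.sum_le_sum hbox).trans ?_
  rw [Finset.sum_const, nsmul_eq_mul, hBd, Fintype.card_piFinset]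
  simp only [Finset.card_range, Finset.prod_const, Finset.card_univ]
  push_cast
  exact le_rfl

end tup

end Pool.Agent.V11291.EK
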